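import Pool.Agent.Y673.PP.Asy

/-!
Few parameters with many preperiodic points (helper673).
-/

set_option autoImplicit false

namespace Pool.Agent.Y673.PP

open Polynomial NumberField Module Height

theorem finite_of_card {α : Type} {s : Set α} {B : ℝ}
    (h : ∀ S : Finset α, (∀ x ∈ S, x ∈ s) → (S.card : ℝ) ≤ B) : s.Finite ∧ (s.ncard : ℝ) ≤ B := by
  have hfin : s.Finite := by
    by_contra hinf
    obtain ⟨n, hn⟩ := exists_nat_gt B
    obtain ⟨t, ht, hc⟩ := Set.Infinite.exists_subset_card_eq hinf n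
    have := h t (fun x hx => ht hx)
    rw [hc] at this
    linarith
  refine ⟨hfin, ?_⟩
  have h1 := h hfin.toFinset (fun x hx => hfin.mem_toFinset.1 hx)
  rwa [← Set.ncard_eq_toFinset_card s hfin] at h1

theorem exists_of_encard {L : Type} [Field L] {d : ℕ} (hd : 2 ≤ d) (N₀ : ℕ) (c : L)
    {s : Set L} (hs : (((N₀ + 1) * (N₀ + 1) * d ^ N₀ : ℕ) : ℕ∞) < s.encard) :
    ∃ z ∈ s, ¬ Gd d N₀ c z := by
  by_contra hcon
  push Not at hcon
  have h1 : ∀ S : Finset L, (∀ x ∈ S, x ∈ s) → S.card ≤ (N₀ + 1) * (N₀ + 1) * d ^ N₀ :=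
    fun S hS => card_gd hd N₀ c S (fun z hz => hcon z (hS z hz))
  obtain ⟨h2, h3⟩ := finite_of_card (s := s) (B := (((N₀ + 1) * (N₀ + 1) * d ^ N₀ : ℕ) : ℝ))
    (fun S hS => by exact_mod_cast h1 S hS)
  rw [← h2.cast_ncard_eq] at hs
  have h4 : s.ncard ≤ (N₀ + 1) * (N₀ + 1) * d ^ N₀ := by exact_mod_cast h3
  have h5 : (N₀ + 1) * (N₀ + 1) * d ^ N₀ < s.ncard := by exact_mod_cast hs
  omega

/-- all number fields of a given degree -/
theorem few_params {d : ℕ} (hd : 2 ≤ d) (D : ℕ) (hD : 1 ≤ D) (ε : ℝ) (hε : 0 < ε) :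
    ∃ (N : ℕ) (C : ℝ), ∀ (K : Type) [Field K] [NumberField K], finrank ℚ K = D →
      ∀ X : ℝ, 1 ≤ X →
        {c : K | mulHeight₁ c ≤ X ∧ (N : ℕ∞) <
          {z : K | (Set.range fun k : ℕ => (fun w : K => w ^ d + c)^[k] z).Finite}.encard}.Finite ∧
        ({c : K | mulHeight₁ c ≤ X ∧ (N : ℕ∞) <
          {z : K | (Set.range fun k : ℕ => (fun w : K => w ^ d + c)^[k] z).Finite}.encard}.ncard : ℝ)
            ≤ C * X ^ ε := by
  obtain ⟨N₀, C, h⟩ := count_exc hd D hD ε hε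
  refine ⟨(N₀ + 1) * (N₀ + 1) * d ^ N₀, C, fun K _ _ hK X hX => ?_⟩
  apply finite_of_card
  intro S hS
  apply h K hK X hX S
  intro c hc
  obtain ⟨h1, h2⟩ := hS c hc
  obtain ⟨z, h3, h4⟩ := exists_of_encard hd N₀ c h2
  exact ⟨sz_of_height h1, z, prep_of_finite h3, h4⟩

/-- the rational numbers -/
theorem few_rat {d : ℕ} (hd : 2 ≤ d) (ε : ℝ) (hε : 0 < ε) : ∃ (N : ℕ) (C : ℝ),
    ∀ X : ℝ, 1 ≤ X →
      {c : ℚ | ((|c.num| : ℤ) : ℝ) ≤ X ∧ (c.den : ℝ) ≤ X ∧ (N : ℕ∞) <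
        {z : ℚ | (Set.range fun k : ℕ => (fun w : ℚ => w ^ d + c)^[k] z).Finite}.encard}.Finite ∧
      ({c : ℚ | ((|c.num| : ℤ) : ℝ) ≤ X ∧ (c.den : ℝ) ≤ X ∧ (N : ℕ∞) <
        {z : ℚ | (Set.range fun k : ℕ => (fun w : ℚ => w ^ d + c)^[k] z).Finite}.encard}.ncard : ℝ)
          ≤ C * X ^ ε := by
  obtain ⟨N₀, C, h⟩ := count_exc hd 1 (le_refl 1) ε hε
  refine ⟨(N₀ + 1) * (N₀ + 1) * d ^ N₀, C, fun X hX => ?_⟩
  apply finite_of_card
  intro S hS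
  apply h ℚ (Module.finrank_self ℚ) X hX S
  intro c hc
  obtain ⟨h1, h1', h2⟩ := hS c hc
  obtain ⟨z, h3, h4⟩ := exists_of_encard hd N₀ c h2
  refine ⟨⟨c.den, c.den_nz, h1', ?_, fun σ => ?_⟩, z, prep_of_finite h3, h4⟩
  · rw [mul_comm, Rat.mul_den_eq_num]
    exact isIntegral_algebraMap (R := ℤ) (A := ℚ) (x := c.num)
  · rw [eq_ratCast]
    have h5 : ‖((c : ℚ) : ℂ)‖ = |(c : ℝ)| := Complex.norm_ratCast c
    rw [h5]
    refine le_trans ?_ h1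
    have h6 : (c : ℝ) = c.num / c.den := by exact_mod_cast (Rat.num_div_den c).symm
    rw [h6, abs_div]
    push_cast
    rw [Nat.abs_cast]
    exact div_le_self (abs_nonneg _) (by exact_mod_cast c.den_pos)

end Pool.Agent.Y673.PP
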