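import Pool.Agent.Y673.PP.Cv
import Pool.Agent.H58W.HtNorth

/-!
Preperiodic points have orbits of bounded size with bounded denominators (helper673).
-/

set_option autoImplicit false

namespace Pool.Agent.Y673.PP

open Polynomial NumberField Module Height

/-- the orbit is finite -/
def Prep {S : Type} [CommRing S] (d : ℕ) (c z : S) : Prop :=
  ∃ m n, m < n ∧ orb d c z m = orb d c z n

section
variable {d : ℕ}

theorem Prep.orb {S : Type} [CommRing S] {c z : S} (h : Prep d c z) (i : ℕ) :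
    Prep d c (orb d c z i) := by
  obtain ⟨m, n, hmn, he⟩ := h
  refine ⟨m, n, hmn, ?_⟩
  rw [orb_orb, orb_orb, add_comm m i, add_comm n i, ← orb_orb, ← orb_orb, he]

theorem Prep.map {S S' : Type} [CommRing S] [CommRing S'] (φ : S →+* S') {c z : S}
    (h : Prep d c z) : Prep d (φ c) (φ z) := by
  obtain ⟨m, n, hmn, he⟩ := h
  refine ⟨m, n, hmn, ?_⟩
  rw [← orb_map, ← orb_map, he]

theorem prep_of_finite {S : Type} [CommRing S] {c z : S}
    (h : (Set.range fun k : ℕ => (fun w : S => w ^ d + c)^[k] z).Finite) : Prep d c z := by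
  by_contra hcon
  have hinj : Function.Injective (fun k : ℕ => (fun w : S => w ^ d + c)^[k] z) := by
    intro m n he
    by_contra hne
    rcases lt_or_gt_of_ne hne with h1 | h1
    · exact hcon ⟨m, n, h1, he⟩
    · exact hcon ⟨n, m, h1, he.symm⟩
  exact Set.infinite_range_of_injective hinj h

theorem growth_step (hd : 2 ≤ d) {c z : ℂ} (hz : 1 + ‖c‖ < ‖z‖) : ‖z‖ < ‖z ^ d + c‖ := by
  have h0 : 0 ≤ ‖c‖ := norm_nonneg _
  have h1 : 1 < ‖z‖ := by linarith
  have h2 : ‖z‖ ^ 2 ≤ ‖z‖ ^ d := pow_le_pow_right₀ h1.le hd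
  have h3 : ‖z‖ ^ d - ‖c‖ ≤ ‖z ^ d + c‖ := by
    have := norm_sub_norm_le (z ^ d) (-c)
    rw [norm_pow, norm_neg, sub_neg_eq_add] at this
    exact this
  nlinarith

theorem Prep.norm_le (hd : 2 ≤ d) {c z : ℂ} (h : Prep d c z) : ‖z‖ ≤ 1 + ‖c‖ := by
  by_contra hcon
  have hcon := not_le.1 hcon
  have h1 : ∀ k, 1 + ‖c‖ < ‖PP.orb d c z k‖ := by
    intro k
    induction k with
    | zero => exact hcon
    | succ k ih =>
      rw [orb_succ]
      exact ih.trans (growth_step hd ih)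
  have h2 : StrictMono (fun k => ‖PP.orb d c z k‖) := by
    apply strictMono_nat_of_lt_succ
    intro k
    show ‖PP.orb d c z k‖ < ‖PP.orb d c z (k + 1)‖
    rw [orb_succ]
    exact growth_step hd (h1 k)
  obtain ⟨m, n, hmn, he⟩ := h
  have h3 := h2 hmn
  simp only [he] at h3
  exact lt_irrefl _ h3

theorem monic_rep {R : Type} [CommRing R] [Nontrivial R] (hd : 1 ≤ d) (v a : R) (k : ℕ) :
    ∃ P : R[X], P.Monic ∧ P.natDegree = d ^ k ∧ ∀ (S : Type) [CommRing S] (φ : R →+* S)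
      (u : ℕ → S), (∀ i, φ v ^ (d - 1) * u (i + 1) = u i ^ d + φ a) →
      P.eval₂ φ (u 0) = φ v ^ (d ^ k - 1) * u k := by
  induction k with
  | zero =>
    refine ⟨X, monic_X, by rw [natDegree_X, pow_zero], fun S _ φ u _ => ?_⟩
    rw [eval₂_X, pow_zero, Nat.sub_self, pow_zero, one_mul]
  | succ k ih =>
    obtain ⟨P, hP, hPd, hPe⟩ := ih
    have h3 : (P ^ d).Monic := hP.pow d
    have h4 : (P ^ d).natDegree = d ^ (k + 1) := by
      rw [hP.natDegree_pow, hPd, pow_succ, mul_comm]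
    have h5 : (C (v ^ (d * (d ^ k - 1)) * a) : R[X]).degree < (P ^ d).degree := by
      rw [degree_eq_natDegree h3.ne_zero, h4]
      refine lt_of_le_of_lt degree_C_le ?_
      have : 0 < d ^ (k + 1) := by positivity
      exact_mod_cast this
    refine ⟨P ^ d + C (v ^ (d * (d ^ k - 1)) * a), h3.add_of_left h5, ?_, fun S _ φ u hu => ?_⟩
    · rw [natDegree_add_eq_left_of_degree_lt h5, h4]
    · rw [eval₂_add, eval₂_pow, hPe S φ u hu, eval₂_C, map_mul, map_pow]
      have h6 : d ^ (k + 1) - 1 = d * (d ^ k - 1) + (d - 1) := by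
        have h7 : 1 ≤ d ^ k := Nat.one_le_pow _ _ hd
        have h8 : d * (d ^ k - 1) = d ^ (k + 1) - d := by
          rw [Nat.mul_sub, mul_one, pow_succ, mul_comm]
        have h9 : d ≤ d ^ (k + 1) := by
          rw [pow_succ]; exact Nat.le_mul_of_pos_left _ h7
        omega
      rw [h6, pow_add, mul_assoc, hu k]
      rw [mul_pow, ← pow_mul, mul_comm (d ^ k - 1) d]
      ring

theorem integral_of_eq {R S : Type} [CommRing R] [Nontrivial R] [CommRing S] [Algebra R S]
    (hd : 2 ≤ d) (v a : R) (u : ℕ → S)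
    (hu : ∀ i, algebraMap R S v ^ (d - 1) * u (i + 1) = u i ^ d + algebraMap R S a) {m n : ℕ}
    (hmn : m < n) (he : u m = u n) : IsIntegral R (u 0) := by
  obtain ⟨P, hP, hPd, hPe⟩ := monic_rep (by omega : 1 ≤ d) v a n
  obtain ⟨Q, hQ, hQd, hQe⟩ := monic_rep (by omega : 1 ≤ d) v a m
  have hlt : d ^ m < d ^ n := Nat.pow_lt_pow_right (by omega) hmn
  have h1 : (C (v ^ (d ^ n - d ^ m)) * Q).degree < P.degree := by
    refine lt_of_le_of_lt ((degree_mul_le _ _).trans (add_le_add degree_C_le le_rfl)) ?_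
    rw [zero_add]
    rw [degree_eq_natDegree hQ.ne_zero, degree_eq_natDegree hP.ne_zero, hQd, hPd]
    exact_mod_cast hlt
  refine ⟨P - C (v ^ (d ^ n - d ^ m)) * Q, hP.sub_of_left h1, ?_⟩
  rw [eval₂_sub, eval₂_mul, eval₂_C, hPe S (algebraMap R S) u hu, hQe S (algebraMap R S) u hu,
    map_pow, he, ← mul_assoc, ← pow_add]
  have h2 : 1 ≤ d ^ m := Nat.one_le_pow _ _ (by omega)
  have h3 : d ^ n - d ^ m + (d ^ m - 1) = d ^ n - 1 := by omega
  rw [h3, sub_self]

variable {K : Type} [Field K] [NumberField K]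

/-- the size of an algebraic number -/
def Sz (X : ℝ) (v : ℕ) (c : K) : Prop :=
  v ≠ 0 ∧ (v : ℝ) ≤ X ∧ IsIntegral ℤ ((v : K) * c) ∧ ∀ σ : K →+* ℂ, ‖σ c‖ ≤ X

theorem sz_of_height {X : ℝ} {c : K} (hc : mulHeight₁ c ≤ X) : ∃ v, Sz X v c := by
  obtain ⟨v, hv0, hvX, hvi⟩ := NumberField.exists_nat_le_mulHeight₁ c
  exact ⟨v, hv0, hvX.trans hc, hvi,
    fun σ => (Pool.Agent.H58W.norm_embedding_le_mulHeight₁ c σ).trans hc⟩

theorem exists_pt (hd : 2 ≤ d) {X : ℝ} {c z : K} {v : ℕ} (hc : Sz X v c) (h : Prep d c z) :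
    ∃ (a : 𝓞 K) (u : ℕ → 𝓞 K), Pt d (2 * X ^ (d + 1)) c z v a u := by
  obtain ⟨hv0, hvX', hvi, hcX⟩ := hc
  have hX1 : 1 ≤ X := by
    have h1 : (1 : ℝ) ≤ v := by exact_mod_cast Nat.one_le_iff_ne_zero.2 hv0
    linarith
  -- the numerator
  have hai : IsIntegral ℤ ((v : K) ^ d * c) := by
    have h1 : (v : K) ^ d * c = (v : K) ^ (d - 1) * (v * c) := by
      rw [← mul_assoc, ← pow_succ]; congr 2; omega
    rw [h1]
    exact ((isIntegral_algebraMap (R := ℤ) (A := K) (x := (v : ℤ))).pow (d - 1) |> fun h2 => by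
      rw [map_natCast] at h2; exact h2.mul hvi)
  set a : 𝓞 K := ⟨(v : K) ^ d * c, hai⟩ with ha
  have haK : (a : K) = (v : K) ^ d * c := rfl
  have hpre : ∀ i, Prep d c (PP.orb d c z i) := fun i => h.orb i
  have hint : ∀ w : K, Prep d c w → IsIntegral ℤ ((v : K) * w) := by
    intro w hw
    obtain ⟨m, n, hmn, he⟩ := hw
    have h1 : IsIntegral (𝓞 K) ((v : K) * PP.orb d c w 0) := by
      apply integral_of_eq (R := 𝓞 K) (S := K) hd (v : 𝓞 K) a
        (fun i => (v : K) * PP.orb d c w i) _ hmn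
      · show (v : K) * _ = (v : K) * _
        rw [he]
      · intro i
        show algebraMap (𝓞 K) K (v : 𝓞 K) ^ (d - 1) * ((v : K) * PP.orb d c w (i + 1)) =
          ((v : K) * PP.orb d c w i) ^ d + algebraMap (𝓞 K) K a
        have h2 : algebraMap (𝓞 K) K a = (v : K) ^ d * c := haK
        rw [h2, map_natCast, orb_succ, ← mul_assoc, ← pow_succ, Nat.sub_add_cancel (by omega)]
        ring
    have h3 := isIntegral_trans (R := ℤ) (A := 𝓞 K) _ h1
    exact h3
  set u : ℕ → 𝓞 K := fun i => ⟨(v : K) * PP.orb d c z i, hint _ (hpre i)⟩ with hu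
  have hXd : X ≤ X ^ (d + 1) := le_self_pow₀ hX1 (by omega)
  have hX0 : 0 ≤ X := by linarith
  refine ⟨a, u, hv0, ?_, haK, fun i => rfl, ?_, ?_⟩
  · nlinarith
  · intro σ
    rw [haK, map_mul, norm_mul, map_pow, map_natCast, norm_pow, Complex.norm_natCast]
    have h1 : ‖σ c‖ ≤ X := hcX σ
    calc (v : ℝ) ^ d * ‖σ c‖ ≤ X ^ d * X := by gcongr
      _ = X ^ (d + 1) := (pow_succ _ _).symm
      _ ≤ 2 * X ^ (d + 1) := by nlinarith
  · intro i σ
    show ‖σ ((v : K) * PP.orb d c z i)‖ ≤ _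
    rw [map_mul, norm_mul, map_natCast, Complex.norm_natCast]
    have h1 : ‖σ c‖ ≤ X := hcX σ
    have h2 : ‖σ (PP.orb d c z i)‖ ≤ 1 + ‖σ c‖ := ((hpre i).map σ).norm_le hd
    have h3 : ‖σ (PP.orb d c z i)‖ ≤ 2 * X := by linarith
    have h4 : X ^ 2 ≤ X ^ (d + 1) := pow_le_pow_right₀ hX1 (by omega)
    calc (v : ℝ) * ‖σ (PP.orb d c z i)‖ ≤ X * (2 * X) := by gcongr
      _ = 2 * X ^ 2 := by ring
      _ ≤ 2 * X ^ (d + 1) := by linarith

/-- there are few preperiodic points of bounded type -/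
theorem card_gd {L : Type} [Field L] (hd : 2 ≤ d) (N₀ : ℕ) (c : L) (S : Finset L)
    (hS : ∀ z ∈ S, Gd d N₀ c z) : S.card ≤ (N₀ + 1) * (N₀ + 1) * d ^ N₀ := by
  classical
  set φ : ℤ[X] →+* L := eval₂RingHom (Int.castRingHom L) c with hφ
  set F : ℕ × ℕ → Finset L := fun x =>
    if x.1 < x.2 ∧ x.2 ≤ N₀ then ((it d x.2 - it d x.1).map φ).roots.toFinset else ∅ with hF
  have h1 : S ⊆ (Finset.range (N₀ + 1) ×ˢ Finset.range (N₀ + 1)).biUnion F := by
    intro z hz
    obtain ⟨i, j, hij, hj, he⟩ := hS z hz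
    rw [Finset.mem_biUnion]
    refine ⟨(i, j), Finset.mem_product.2 ⟨Finset.mem_range.2 (by omega),
      Finset.mem_range.2 (by omega)⟩, ?_⟩
    rw [hF]
    simp only
    rw [if_pos ⟨hij, hj⟩, Multiset.mem_toFinset, mem_roots', IsRoot.def]
    constructor
    · rw [Polynomial.map_sub]
      intro h0
      have h2 : ((it d j).map φ).natDegree = d ^ j := by
        rw [(it_natDegree (by omega) j).1.natDegree_map, (it_natDegree (by omega) j).2]
      have h3 : ((it d i).map φ).natDegree = d ^ i := by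
        rw [(it_natDegree (by omega) i).1.natDegree_map, (it_natDegree (by omega) i).2]
      rw [sub_eq_zero] at h0
      rw [h0, h3] at h2
      have : d ^ i < d ^ j := Nat.pow_lt_pow_right (by omega) hij
      omega
    · rw [← E2_eq_eval, map_sub, E2_it, E2_it, he, sub_self]
  have h2 : ∀ x ∈ Finset.range (N₀ + 1) ×ˢ Finset.range (N₀ + 1), (F x).card ≤ d ^ N₀ := by
    intro x _
    rw [hF]
    simp only
    split_ifs with h3
    · refine (Multiset.toFinset_card_le _).trans ((card_roots' _).trans ?_)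
      refine (natDegree_map_le).trans ((natDegree_sub_le _ _).trans ?_)
      rw [(it_natDegree (by omega) _).2, (it_natDegree (by omega) _).2]
      apply max_le
      · exact Nat.pow_le_pow_right (by omega) h3.2
      · exact Nat.pow_le_pow_right (by omega) (h3.1.le.trans h3.2)
    · rw [Finset.card_empty]; exact Nat.zero_le _
  refine (Finset.card_le_card h1).trans ((Finset.card_biUnion_le_card_mul _ _ _ h2).trans ?_)
  rw [Finset.card_product, Finset.card_range]

end

end Pool.Agent.Y673.PP
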