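import Pool.Agent.Y673.PP.Pl
import Pool.Agent.Y673.PP.Pre

/-!
The asymptotic count of exceptional parameters (helper673).
-/

set_option autoImplicit false

namespace Pool.Agent.Y673.PP

open Polynomial NumberField Module Height

theorem exists_l (W : ℕ) : ∃ l : ℕ, W < 2 ^ l ∧ (l : ℝ) ≤ 2 * Real.log W + 1 := by
  refine ⟨Nat.log 2 W + 1, Nat.lt_pow_succ_log_self (by norm_num) W, ?_⟩
  rcases Nat.eq_zero_or_pos W with h0 | h0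
  · rw [h0]; simp
  · have h1 : 2 ^ (Nat.log 2 W) ≤ W := Nat.pow_log_le_self 2 (by omega)
    have h2 : ((2 : ℝ) ^ (Nat.log 2 W)) ≤ W := by exact_mod_cast h1
    have h3 := Real.log_le_log (by positivity) h2
    rw [Real.log_pow] at h3
    have h4 : (1 : ℝ) / 2 ≤ Real.log 2 := by
      have := Real.log_two_gt_d9
      linarith
    have h5 : (Nat.log 2 W : ℝ) * (1 / 2) ≤ Nat.log 2 W * Real.log 2 := by gcongr
    push_cast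
    linarith

theorem exists_l' {η : ℝ} (hη : 0 < η) (c : ℝ) (hc : 1 ≤ c) (m : ℕ) : ∃ c' : ℝ, 0 ≤ c' ∧
    ∀ X : ℝ, 1 ≤ X → ∀ W : ℕ, (W : ℝ) ≤ c * X ^ m → ∃ l : ℕ, W < 2 ^ l ∧ (l : ℝ) ≤ c' * X ^ η := by
  refine ⟨2 * (Real.log c + m / η) + 1, ?_, fun X hX W hW => ?_⟩
  · have := Real.log_nonneg hc
    positivity
  · obtain ⟨l, h1, h2⟩ := exists_l W
    refine ⟨l, h1, h2.trans ?_⟩
    have hX0 : 0 < X := by linarith
    have hXη : 1 ≤ X ^ η := Real.one_le_rpow hX hη.le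
    have hlc := Real.log_nonneg hc
    have h3 : Real.log W ≤ (Real.log c + m / η) * X ^ η := by
      rcases Nat.eq_zero_or_pos W with h0 | h0
      · rw [h0, Nat.cast_zero, Real.log_zero]
        positivity
      · have h4 := Real.log_le_log (by exact_mod_cast h0) hW
        rw [Real.log_mul (by linarith) (by positivity), Real.log_pow] at h4
        have h5 := Real.log_le_rpow_div hX0.le hη
        have h6 : (m : ℝ) * Real.log X ≤ m * (X ^ η / η) := by gcongr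
        have h7 : Real.log c ≤ Real.log c * X ^ η := le_mul_of_one_le_right hlc hXη
        calc Real.log W ≤ Real.log c + m * Real.log X := h4
          _ ≤ Real.log c * X ^ η + m * (X ^ η / η) := by linarith
          _ = _ := by ring
    linarith

/-- the size of the primes used -/
theorem exists_z0 {η : ℝ} (hη : 0 < η) {d t : ℕ} (ht : (d : ℝ) + 1 ≤ t * η) (ht1 : 1 ≤ t) (s : ℕ) :
    ∃ c : ℝ, 0 ≤ c ∧ ∀ X : ℝ, 1 ≤ X → ∃ Z₀ : ℕ, (Z₀ : ℝ) ≤ c * X ^ η ∧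
      ∀ s' T : ℕ, s' ≤ s → 2 * (s' : ℝ) * (2 * X ^ (d + 1)) ^ T < (Z₀ : ℝ) ^ (t * T + 1) := by
  refine ⟨4 * s + 3, by positivity, fun X hX => ?_⟩
  have hX0 : 0 < X := by linarith
  have hXη : 1 ≤ X ^ η := Real.one_le_rpow hX hη.le
  refine ⟨⌈(4 * (s : ℝ) + 2) * X ^ η⌉₊, ?_, fun s' T hs' => ?_⟩
  · have h1 := Nat.ceil_lt_add_one (a := (4 * (s : ℝ) + 2) * X ^ η) (by positivity)
    have h2 : (4 * (s : ℝ) + 2) * X ^ η + 1 ≤ (4 * (s : ℝ) + 2) * X ^ η + X ^ η := by linarith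
    linarith
  · set Z₀ := ⌈(4 * (s : ℝ) + 2) * X ^ η⌉₊ with hZ₀
    have h1 : (4 * (s : ℝ) + 2) * X ^ η ≤ Z₀ := Nat.le_ceil _
    have h2 : 2 * X ^ η ≤ Z₀ := by
      refine le_trans ?_ h1
      have : (2 : ℝ) ≤ 4 * s + 2 := by have : (0 : ℝ) ≤ s := Nat.cast_nonneg _; linarith
      gcongr
    have h3 : 2 * (s' : ℝ) < Z₀ := by
      have e1 : (s' : ℝ) ≤ s := by exact_mod_cast hs'
      have e2 : 4 * (s : ℝ) + 2 ≤ (4 * (s : ℝ) + 2) * X ^ η :=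
        le_mul_of_one_le_right (by positivity) hXη
      have : (0 : ℝ) ≤ s := Nat.cast_nonneg _
      linarith
    have h4 : 2 * X ^ (d + 1) ≤ (Z₀ : ℝ) ^ t := by
      calc 2 * X ^ (d + 1) ≤ 2 ^ t * (X ^ η) ^ t := by
            apply mul_le_mul
            · exact le_self_pow₀ (by norm_num) (by omega)
            · rw [← Real.rpow_natCast (X ^ η), ← Real.rpow_mul hX0.le, ← Real.rpow_natCast X]
              apply Real.rpow_le_rpow_of_exponent_le hX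
              push_cast
              linarith
            · positivity
            · positivity
        _ = (2 * X ^ η) ^ t := by rw [mul_pow]
        _ ≤ _ := by
          apply pow_le_pow_left₀ (by positivity) h2
    calc 2 * (s' : ℝ) * (2 * X ^ (d + 1)) ^ T < Z₀ * (2 * X ^ (d + 1)) ^ T := by
          apply mul_lt_mul_of_pos_right h3 (by positivity)
      _ ≤ Z₀ * ((Z₀ : ℝ) ^ t) ^ T := by gcongr
      _ = (Z₀ : ℝ) ^ (t * T + 1) := by rw [pow_succ, pow_mul]; ring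

set_option maxHeartbeats 1000000 in
theorem count_exc {d : ℕ} (hd : 2 ≤ d) (D : ℕ) (hD : 1 ≤ D) (ε : ℝ) (hε : 0 < ε) :
    ∃ (N : ℕ) (C : ℝ), ∀ (K : Type) [Field K] [NumberField K], finrank ℚ K = D →
      ∀ X : ℝ, 1 ≤ X → ∀ S : Finset K, (∀ c ∈ S, (∃ v, Sz X v c) ∧
        ∃ z : K, Prep d c z ∧ ¬ Gd d N c z) → (S.card : ℝ) ≤ C * X ^ ε := by
  set η : ℝ := min 1 (ε / (4 * (2 * D + 1))) with hη
  have hη0 : 0 < η := by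
    rw [hη]
    exact lt_min one_pos (by positivity)
  have hη1 : η ≤ 1 := min_le_left _ _
  have hηε : η * (4 * (2 * D + 1)) ≤ ε := by
    have h1 : η ≤ ε / (4 * (2 * D + 1)) := min_le_right _ _
    rwa [le_div_iff₀ (by positivity)] at h1
  obtain ⟨t, ht⟩ := exists_nat_ge (((d : ℝ) + 1) / η)
  have ht' : (d : ℝ) + 1 ≤ t * η := by rwa [div_le_iff₀ hη0] at ht
  have ht1 : 1 ≤ t := by
    rcases Nat.eq_zero_or_pos t with h0 | h0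
    · rw [h0] at ht'
      have : (0 : ℝ) ≤ d := Nat.cast_nonneg _
      simp at ht'
      linarith
    · exact h0
  obtain ⟨A, B, C, M₃, s₁, s₂, T₁, T₂, hpl⟩ := plane_count hd D t hD
  obtain ⟨Zc, hZc⟩ := SU.exists_prime_not_dvd
  obtain ⟨c₀, hc₀, hz0⟩ := exists_z0 hη0 ht' ht1 (s₁ + s₂)
  -- the first set of primes
  obtain ⟨l₁, hl₁, hlog₁⟩ := exists_l' hη0 (2 * 2 ^ D) (by
    have : (1 : ℝ) ≤ 2 ^ D := one_le_pow₀ (by norm_num)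
    linarith) ((d + 1) * D)
  set c₁ : ℝ := (c₀ + l₁ + 1) ^ 2 + Zc with hc₁
  have hc₁1 : 1 ≤ c₁ := by
    have : (0 : ℝ) ≤ Zc := Nat.cast_nonneg _
    nlinarith
  -- the second set of primes
  set n₁ : ℕ := D * (t * T₁ + 1) with hn₁
  set n₂ : ℕ := d * B + A with hn₂
  set E : ℝ := (2 * ((A + 1) * (B + 1) * (((A : ℝ) + 1) ^ (A + 1) * (C * (2 * c₁ ^ n₁)))) *
    2 ^ n₂) ^ D with hE
  have hE0 : 0 ≤ E := by positivity
  set m₂ : ℕ := ((d + 1) + 2 * n₁ + (d + 1) * n₂) * D with hm₂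
  obtain ⟨l₂, hl₂, hlog₂⟩ := exists_l' hη0 (E + 1) (by linarith) m₂
  set c₂ : ℝ := (c₀ + l₂ + 1) ^ 2 + Zc with hc₂
  have hc₂1 : 1 ≤ c₂ := by
    have : (0 : ℝ) ≤ Zc := Nat.cast_nonneg _
    nlinarith
  refine ⟨(d * d) ^ A, (B + (A + 1) * (M₃ * ((c₂ + 1) * c₂ ^ (2 * D)))) *
    ((c₁ + 1) * c₁ ^ (2 * D)), fun K _ _ hK X hX S hS => ?_⟩
  have hX0 : 0 < X := by linarith
  have hXη : 1 ≤ X ^ η := Real.one_le_rpow hX hη0.le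
  have hXη0 : 0 < X ^ η := by linarith
  have hXη2 : X ^ η ≤ X := by
    calc X ^ η ≤ X ^ (1 : ℝ) := Real.rpow_le_rpow_of_exponent_le hX hη1
      _ = X := Real.rpow_one X
  set P : ℝ := (X ^ η) ^ 2 with hP
  have hP1 : 1 ≤ P := one_le_pow₀ hXη
  have hPX : P ≤ X ^ 2 := pow_le_pow_left₀ hXη0.le hXη2 2
  obtain ⟨Z₀, hZ₀, hsz⟩ := hz0 X hX
  set Y : ℝ := 2 * X ^ (d + 1) with hY
  have hXd : 1 ≤ X ^ (d + 1) := one_le_pow₀ hX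
  have hY1 : 1 ≤ Y := by linarith
  -- choice of `Z₁`
  set W₁ : ℕ := ⌈Y ^ D⌉₊ with hW₁
  have hW₁Y : Y ^ D ≤ W₁ := Nat.le_ceil _
  have hW₁X : (W₁ : ℝ) ≤ 2 * 2 ^ D * X ^ ((d + 1) * D) := by
    have h1 := Nat.ceil_lt_add_one (a := Y ^ D) (by positivity)
    have h2 : 1 ≤ Y ^ D := one_le_pow₀ hY1
    have h3 : Y ^ D = 2 ^ D * X ^ ((d + 1) * D) := by rw [hY, mul_pow, ← pow_mul]
    calc (W₁ : ℝ) ≤ 2 * Y ^ D := by linarith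
      _ = _ := by rw [h3]; ring
  obtain ⟨L₁, hL₁, hL₁'⟩ := hlog₁ X hX W₁ hW₁X
  set Z₁ : ℕ := (Z₀ + L₁ + 1) ^ 2 + Zc with hZ₁
  have hZcP : (Zc : ℝ) ≤ Zc * P := le_mul_of_one_le_right (Nat.cast_nonneg _) hP1
  have hZ₁P : (Z₁ : ℝ) ≤ c₁ * P := by
    rw [hZ₁, hc₁]
    push_cast
    have h1 : (Z₀ : ℝ) + L₁ + 1 ≤ (c₀ + l₁ + 1) * X ^ η := by linarith
    have h2 : ((Z₀ : ℝ) + L₁ + 1) ^ 2 ≤ ((c₀ + l₁ + 1) * X ^ η) ^ 2 := by gcongr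
    rw [mul_pow] at h2
    linarith
  have hpr₁ := hZc Z₀ W₁ L₁ Z₁ (Nat.le_add_left _ _) hL₁ (Nat.le_add_right _ _)
  -- choice of `Z₂`
  set R : ℝ := (Y * ((A + 1) * (B + 1) *
    (((A + 1) ^ (A + 1) * (C * ((Z₁ ^ D) ^ (t * T₁ + 1) + 1)) : ℕ) : ℝ) * Y ^ (d * B + A))) ^ D
    with hR
  have hR0 : 0 ≤ R := by positivity
  set W₂ : ℕ := ⌈R⌉₊ with hW₂
  have hRX : R ≤ E * X ^ m₂ := by
    have h1 : (Z₁ : ℝ) ≤ c₁ * X ^ 2 := hZ₁P.trans (by gcongr)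
    have h2 : ((Z₁ : ℝ) ^ D) ^ (t * T₁ + 1) + 1 ≤ 2 * c₁ ^ n₁ * (X ^ 2) ^ n₁ := by
      have h3 : ((Z₁ : ℝ) ^ D) ^ (t * T₁ + 1) ≤ (c₁ * X ^ 2) ^ n₁ := by
        rw [← pow_mul]
        gcongr
      have h4 : 1 ≤ (c₁ * X ^ 2) ^ n₁ := by
        apply one_le_pow₀
        have : 1 ≤ X ^ 2 := one_le_pow₀ hX
        nlinarith
      rw [mul_pow] at h3 h4
      linarith
    have h5 : (((A + 1) ^ (A + 1) * (C * ((Z₁ ^ D) ^ (t * T₁ + 1) + 1)) : ℕ) : ℝ) ≤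
        ((A : ℝ) + 1) ^ (A + 1) * (C * (2 * c₁ ^ n₁ * (X ^ 2) ^ n₁)) := by
      push_cast
      gcongr
    calc R ≤ (Y * ((A + 1) * (B + 1) *
          (((A : ℝ) + 1) ^ (A + 1) * (C * (2 * c₁ ^ n₁ * (X ^ 2) ^ n₁))) * Y ^ n₂)) ^ D := by
          rw [hR]
          gcongr
      _ = E * X ^ m₂ := by
          rw [hE, hm₂, pow_mul X, ← mul_pow, hY]
          congr 1
          rw [mul_pow 2 (X ^ (d + 1)) n₂, ← pow_mul X (d + 1) n₂, ← pow_mul X 2 n₁,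
            pow_add X (d + 1 + 2 * n₁), pow_add X (d + 1) (2 * n₁)]
          ring
  have hW₂R : R ≤ W₂ := Nat.le_ceil _
  have hW₂X : (W₂ : ℝ) ≤ (E + 1) * X ^ m₂ := by
    have h1 := Nat.ceil_lt_add_one hR0
    have h2 : 1 ≤ X ^ m₂ := one_le_pow₀ hX
    calc (W₂ : ℝ) ≤ E * X ^ m₂ + X ^ m₂ := by linarith
      _ = _ := by ring
  obtain ⟨L₂, hL₂, hL₂'⟩ := hlog₂ X hX W₂ hW₂X
  set Z₂ : ℕ := (Z₀ + L₂ + 1) ^ 2 + Zc with hZ₂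
  have hZ₂P : (Z₂ : ℝ) ≤ c₂ * P := by
    rw [hZ₂, hc₂]
    push_cast
    have h1 : (Z₀ : ℝ) + L₂ + 1 ≤ (c₀ + l₂ + 1) * X ^ η := by linarith
    have h2 : ((Z₀ : ℝ) + L₂ + 1) ^ 2 ≤ ((c₀ + l₂ + 1) * X ^ η) ^ 2 := by gcongr
    rw [mul_pow] at h2
    linarith
  have hpr₂ := hZc Z₀ W₂ L₂ Z₂ (Nat.le_add_left _ _) hL₂ (Nat.le_add_right _ _)
  -- the count
  have hcount := hpl K hK Y hY1 Z₀ Z₁ W₁ Z₂ W₂ (hsz s₁ T₁ (by omega)) (hsz s₂ T₂ (by omega))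
    hpr₁ hpr₂ hW₁Y hW₂R S (by
      intro c hc
      obtain ⟨⟨v, h1⟩, z, h2, h3⟩ := hS c hc
      obtain ⟨a, u, h4⟩ := exists_pt hd h1 h2
      exact ⟨z, v, a, u, h4, h3⟩)
  have hcr : (S.card : ℝ) ≤ (B + (A + 1) * (M₃ * ((Z₂ + 1) * (Z₂ : ℝ) ^ (2 * D)))) *
      ((Z₁ + 1) * (Z₁ : ℝ) ^ (2 * D)) := by exact_mod_cast hcount
  refine hcr.trans ?_
  have f1 : ((Z₁ : ℝ) + 1) * (Z₁ : ℝ) ^ (2 * D) ≤ (c₁ + 1) * c₁ ^ (2 * D) * P ^ (2 * D + 1) := by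
    calc ((Z₁ : ℝ) + 1) * (Z₁ : ℝ) ^ (2 * D) ≤ ((c₁ + 1) * P) * (c₁ * P) ^ (2 * D) := by
          have : (Z₁ : ℝ) + 1 ≤ (c₁ + 1) * P := by linarith
          gcongr
      _ = _ := by rw [mul_pow, pow_succ]; ring
  have f2 : ((Z₂ : ℝ) + 1) * (Z₂ : ℝ) ^ (2 * D) ≤ (c₂ + 1) * c₂ ^ (2 * D) * P ^ (2 * D + 1) := by
    calc ((Z₂ : ℝ) + 1) * (Z₂ : ℝ) ^ (2 * D) ≤ ((c₂ + 1) * P) * (c₂ * P) ^ (2 * D) := by
          have : (Z₂ : ℝ) + 1 ≤ (c₂ + 1) * P := by linarith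
          gcongr
      _ = _ := by rw [mul_pow, pow_succ]; ring
  set Q : ℝ := P ^ (2 * D + 1) with hQ
  have hQ1 : 1 ≤ Q := one_le_pow₀ hP1
  have f3 : (B + (A + 1) * (M₃ * (((Z₂ : ℝ) + 1) * (Z₂ : ℝ) ^ (2 * D)))) ≤
      (B + (A + 1) * (M₃ * ((c₂ + 1) * c₂ ^ (2 * D)))) * Q := by
    have h1 : (B : ℝ) ≤ B * Q := le_mul_of_one_le_right (Nat.cast_nonneg _) hQ1
    calc (B + (A + 1) * (M₃ * (((Z₂ : ℝ) + 1) * (Z₂ : ℝ) ^ (2 * D)))) ≤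
        B * Q + (A + 1) * (M₃ * ((c₂ + 1) * c₂ ^ (2 * D) * Q)) := by gcongr
      _ = _ := by ring
  have hQX : Q * Q ≤ X ^ ε := by
    have h1 : Q * Q = X ^ (η * (4 * (2 * D + 1))) := by
      rw [hQ, hP, ← pow_mul, ← pow_add, ← Real.rpow_natCast, ← Real.rpow_mul hX0.le]
      congr 2
      push_cast
      ring
    rw [h1]
    exact Real.rpow_le_rpow_of_exponent_le hX hηε
  calc (B + (A + 1) * (M₃ * (((Z₂ : ℝ) + 1) * (Z₂ : ℝ) ^ (2 * D)))) *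
      (((Z₁ : ℝ) + 1) * (Z₁ : ℝ) ^ (2 * D)) ≤
      ((B + (A + 1) * (M₃ * ((c₂ + 1) * c₂ ^ (2 * D)))) * Q) *
        ((c₁ + 1) * c₁ ^ (2 * D) * Q) := by gcongr
    _ = ((B + (A + 1) * (M₃ * ((c₂ + 1) * c₂ ^ (2 * D)))) * ((c₁ + 1) * c₁ ^ (2 * D))) *
        (Q * Q) := by ring
    _ ≤ _ := by gcongr

end Pool.Agent.Y673.PP
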