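import Pool.Agent.Y673.PP.Num

/-!
Auxiliary polynomials which vanish at all points of a residue class (helper673).
-/

set_option autoImplicit false

namespace Pool.Agent.Y673.PP

open Polynomial NumberField Module

section
variable {K : Type} [Field K] [NumberField K] {d : ℕ}

/-- a point with an integral orbit of bounded size -/
structure Pt (d : ℕ) (Y : ℝ) (c z : K) (v : ℕ) (a : 𝓞 K) (u : ℕ → 𝓞 K) : Prop where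
  v0 : v ≠ 0
  vY : (v : ℝ) ≤ Y
  ha : (a : K) = (v : K) ^ d * c
  hu : ∀ i, (u i : K) = v * orb d c z i
  aY : ∀ σ : K →+* ℂ, ‖σ (a : K)‖ ≤ Y
  uY : ∀ (i : ℕ) (σ : K →+* ℂ), ‖σ (u i : K)‖ ≤ Y

theorem Pt.rel (hd : 1 ≤ d) {Y : ℝ} {c z : K} {v : ℕ} {a : 𝓞 K} {u : ℕ → 𝓞 K}
    (h : Pt d Y c z v a u) (i : ℕ) : (v : 𝓞 K) ^ (d - 1) * u (i + 1) = u i ^ d + a := by
  apply FaithfulSMul.algebraMap_injective (𝓞 K) K
  have e1 : algebraMap (𝓞 K) K (u (i + 1)) = v * orb d c z (i + 1) := h.hu (i + 1)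
  have e2 : algebraMap (𝓞 K) K (u i) = v * orb d c z i := h.hu i
  have e3 : algebraMap (𝓞 K) K a = (v : K) ^ d * c := h.ha
  rw [map_mul, map_pow, map_add, map_pow, map_natCast, e1, e2, e3, orb_succ]
  have h2 : (v : K) ^ d = (v : K) ^ (d - 1) * v := by
    rw [← pow_succ]; congr 1; omega
  rw [mul_pow, h2]
  ring

theorem gt_norm {Y : ℝ} (hY : 1 ≤ Y) (hd : 1 ≤ d) {a v : ℂ} {u : ℕ → ℂ} (ha : ‖a‖ ≤ Y)
    (hv : ‖v‖ ≤ Y) (hu : ∀ i, ‖u i‖ ≤ Y) (α : ℕ) (β : ℕ → ℕ) {L T : ℕ}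
    (hT : d * α + ∑ i ∈ Finset.range L, β i ≤ T) : ‖gt d a v u α β L T‖ ≤ Y ^ T := by
  unfold gt
  rw [norm_mul, norm_mul, norm_pow, norm_pow, norm_prod]
  have h1 : ∏ i ∈ Finset.range L, ‖u i ^ β i‖ ≤ Y ^ (∑ i ∈ Finset.range L, β i) := by
    rw [← Finset.prod_pow_eq_pow_sum]
    apply Finset.prod_le_prod (fun _ _ => norm_nonneg _)
    intro i _
    rw [norm_pow]
    exact pow_le_pow_left₀ (norm_nonneg _) (hu i) _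
  have hY0 : 0 ≤ Y := by linarith
  calc ‖a‖ ^ α * (∏ i ∈ Finset.range L, ‖u i ^ β i‖) *
        ‖v‖ ^ (T - (d * α + ∑ i ∈ Finset.range L, β i)) ≤
      Y ^ α * Y ^ (∑ i ∈ Finset.range L, β i) * Y ^ (T - (d * α + ∑ i ∈ Finset.range L, β i)) := by
        gcongr
    _ = Y ^ (α + (∑ i ∈ Finset.range L, β i) + (T - (d * α + ∑ i ∈ Finset.range L, β i))) := by
        rw [pow_add, pow_add]
    _ ≤ Y ^ T := by
        apply pow_le_pow_right₀ hY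
        have : α ≤ d * α := Nat.le_mul_of_pos_left _ hd
        omega

theorem aux_zero (hd : 1 ≤ d) {ι : Type} [Fintype ι] (α : ι → ℕ) (β : ι → ℕ → ℕ) {L T : ℕ}
    (hT : ∀ x, d * α x + ∑ i ∈ Finset.range L, β x i ≤ T) {H : ℕ} (e : ι → ℤ) (he : ∀ x, |e x| ≤ H)
    {𝔮 : Ideal (𝓞 K)} (h𝔮 : 𝔮.IsMaximal) {Y : ℝ} (hY : 1 ≤ Y) {c z : K} {v : ℕ} {a : 𝓞 K}
    {u : ℕ → 𝓞 K} (hp : Pt d Y c z v a u) {m : ℕ} {c' z' : 𝓞 K}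
    (hc' : a - (v : 𝓞 K) ^ d * c' ∈ 𝔮 ^ m) (hz' : ∀ i, u i - (v : 𝓞 K) * orb d c' z' i ∈ 𝔮 ^ m)
    (hmem : ∑ x, (e x : 𝓞 K) * E2 c' z' (gm d (α x) (β x) L) ∈ 𝔮 ^ m)
    (hlt : ((Fintype.card ι : ℝ) * H * Y ^ T) ^ (finrank ℚ K) < ((Ideal.absNorm 𝔮 : ℕ) : ℝ) ^ m) :
    ∑ x, (e x : K) * E2 c z (gm d (α x) (β x) L) = 0 := by
  set E : 𝓞 K := ∑ x, (e x : 𝓞 K) * gt d a (v : 𝓞 K) u (α x) (β x) L T with hE
  have hEm : E ∈ 𝔮 ^ m := by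
    set π := Ideal.Quotient.mk (𝔮 ^ m) with hπ
    have h1 : ∀ x, π (gt d a (v : 𝓞 K) u (α x) (β x) L T) =
        π ((v : 𝓞 K) ^ T * E2 c' z' (gm d (α x) (β x) L)) := by
      intro x
      rw [gt_map, map_mul, map_pow, E2_map]
      apply gt_eq (z := π z') _ _ _ _ (hT x)
      · rw [← map_pow, ← map_mul, hπ, Ideal.Quotient.eq]; exact hc'
      · intro i
        rw [← orb_map, ← map_mul, hπ, Ideal.Quotient.eq]
        exact hz' i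
    have h2 : E - (v : 𝓞 K) ^ T * ∑ x, (e x : 𝓞 K) * E2 c' z' (gm d (α x) (β x) L) ∈ 𝔮 ^ m := by
      rw [hE, Finset.mul_sum, ← Finset.sum_sub_distrib]
      apply Ideal.sum_mem
      intro x _
      have h3 := h1 x
      rw [hπ, Ideal.Quotient.eq] at h3
      have h4 : (e x : 𝓞 K) * gt d a (v : 𝓞 K) u (α x) (β x) L T -
          (v : 𝓞 K) ^ T * ((e x : 𝓞 K) * E2 c' z' (gm d (α x) (β x) L)) =
          (e x : 𝓞 K) * (gt d a (v : 𝓞 K) u (α x) (β x) L T -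
            (v : 𝓞 K) ^ T * E2 c' z' (gm d (α x) (β x) L)) := by ring
      rw [h4]
      exact (𝔮 ^ m).mul_mem_left _ h3
    have := (𝔮 ^ m).add_mem h2 ((𝔮 ^ m).mul_mem_left ((v : 𝓞 K) ^ T) hmem)
    rwa [sub_add_cancel] at this
  have hE0 : E = 0 := by
    apply eq_zero_of_mem hEm _ hlt
    intro σ
    set φ : 𝓞 K →+* ℂ := σ.comp (algebraMap (𝓞 K) K) with hφ
    show ‖φ E‖ ≤ _
    rw [hE, map_sum]
    refine (norm_sum_le _ _).trans ?_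
    have h1 : ∀ x ∈ (Finset.univ : Finset ι), ‖φ ((e x : 𝓞 K) * gt d a (v : 𝓞 K) u (α x) (β x) L T)‖ ≤
        H * Y ^ T := by
      intro x _
      rw [map_mul, norm_mul, map_intCast, Complex.norm_intCast, gt_map, map_natCast]
      have h2 : |((e x : ℤ) : ℝ)| ≤ H := by exact_mod_cast he x
      have h3 := gt_norm hY hd (a := φ a) (v := (v : ℂ)) (u := fun i => φ (u i)) (hp.aY σ)
        (by rw [Complex.norm_natCast]; exact hp.vY) (fun i => hp.uY i σ) (α x) (β x) (hT x)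
      exact mul_le_mul h2 h3 (norm_nonneg _) (Nat.cast_nonneg _)
    refine (Finset.sum_le_card_nsmul _ _ _ h1).trans (le_of_eq ?_)
    rw [Finset.card_univ, nsmul_eq_mul]
    ring
  have h1 : ((E : 𝓞 K) : K) = (v : K) ^ T * ∑ x, (e x : K) * E2 c z (gm d (α x) (β x) L) := by
    show algebraMap (𝓞 K) K E = _
    rw [hE, map_sum, Finset.mul_sum]
    apply Finset.sum_congr rfl
    intro x _
    rw [map_mul, map_intCast, gt_map, map_natCast,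
      gt_eq (c := c) (z := z) (T := T) hp.ha (fun i => hp.hu i) _ _ (hT x)]
    ring
  have h2 : ((E : 𝓞 K) : K) = 0 := by rw [hE0]; rfl
  rw [h1] at h2
  rcases mul_eq_zero.1 h2 with h3 | h3
  · exact absurd h3 (pow_ne_zero _ (Nat.cast_ne_zero.2 hp.v0))
  · exact h3

theorem size_lt {D s h Q T : ℕ} (hD : 1 ≤ D) (hs : 1 ≤ s) {Y : ℝ} (hY : 1 ≤ Y) (hQ : 1 ≤ Q)
    (hsz : 2 * (s : ℝ) * Y ^ T < (Q : ℝ) ^ h) :
    ((s : ℝ) * ((Q ^ h + 1 : ℕ) : ℝ) * Y ^ T) ^ D < (Q : ℝ) ^ (2 * D * h) := by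
  have hQ1 : (1 : ℝ) ≤ Q := by exact_mod_cast hQ
  have hQh : (1 : ℝ) ≤ (Q : ℝ) ^ h := one_le_pow₀ hQ1
  have hYT : 0 < Y ^ T := by positivity
  have hs1 : (1 : ℝ) ≤ s := by exact_mod_cast hs
  have h1 : (s : ℝ) * ((Q ^ h + 1 : ℕ) : ℝ) * Y ^ T < (Q : ℝ) ^ h * (Q : ℝ) ^ h := by
    push_cast
    have h2 : (s : ℝ) * ((Q : ℝ) ^ h + 1) * Y ^ T ≤ (2 * s * Y ^ T) * (Q : ℝ) ^ h := by
      have : (Q : ℝ) ^ h + 1 ≤ 2 * (Q : ℝ) ^ h := by linarith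
      have h3 : 0 ≤ (s : ℝ) * Y ^ T := by positivity
      nlinarith
    have h3 : 0 < (Q : ℝ) ^ h := by linarith
    nlinarith
  calc ((s : ℝ) * ((Q ^ h + 1 : ℕ) : ℝ) * Y ^ T) ^ D < ((Q : ℝ) ^ h * (Q : ℝ) ^ h) ^ D := by
        apply pow_lt_pow_left₀ h1 (by positivity) (by omega)
    _ = (Q : ℝ) ^ (2 * D * h) := by
        rw [← pow_add, ← pow_mul]
        congr 1
        ring

theorem pig_lt {s h Q m n : ℕ} (hs : 1 ≤ s) (hQ : 1 ≤ Q) (hn : m ^ n ≤ s * h) :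
    Q ^ (m ^ n) < (Q ^ h + 1) ^ s := by
  calc Q ^ (m ^ n) ≤ Q ^ (s * h) := Nat.pow_le_pow_right hQ hn
    _ = (Q ^ h) ^ s := by rw [mul_comm, pow_mul]
    _ < (Q ^ h + 1) ^ s := Nat.pow_lt_pow_left (Nat.lt_succ_self _) (by omega)

theorem aux_plane (hd : 1 ≤ d) {ι : Type} [Fintype ι] (hι : 1 ≤ Fintype.card ι) (α : ι → ℕ)
    (β : ι → ℕ → ℕ) {L T : ℕ} (hT : ∀ x, d * α x + ∑ i ∈ Finset.range L, β x i ≤ T) {h : ℕ}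
    (hs : (2 * finrank ℚ K * h) ^ 3 ≤ Fintype.card ι * h) {𝔮 : Ideal (𝓞 K)} (h𝔮 : 𝔮.IsMaximal)
    (h𝔮0 : 𝔮 ≠ ⊥) {Y : ℝ} (hY : 1 ≤ Y)
    (hsz : 2 * (Fintype.card ι : ℝ) * Y ^ T < ((Ideal.absNorm 𝔮 : ℕ) : ℝ) ^ h) (c₀ z₀ : 𝓞 K) :
    ∃ e : ι → ℤ, e ≠ 0 ∧ (∀ x, |e x| ≤ ((Ideal.absNorm 𝔮 ^ h + 1 : ℕ) : ℤ)) ∧
      ∀ (c z : K) (v : ℕ) (a : 𝓞 K) (u : ℕ → 𝓞 K), Pt d Y c z v a u → ∀ c' z' : 𝓞 K,
        a - (v : 𝓞 K) ^ d * c' ∈ 𝔮 ^ (2 * finrank ℚ K * h) →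
        (∀ i, u i - (v : 𝓞 K) * orb d c' z' i ∈ 𝔮 ^ (2 * finrank ℚ K * h)) →
        c' - c₀ ∈ 𝔮 → z' - z₀ ∈ 𝔮 → ∑ x, (e x : K) * E2 c z (gm d (α x) (β x) L) = 0 := by
  have hQ1 : 1 ≤ Ideal.absNorm 𝔮 := Nat.one_le_iff_ne_zero.2
    (fun h0 => h𝔮0 (Ideal.absNorm_eq_zero_iff.1 h0))
  obtain ⟨e, he0, heH, he⟩ := two_var hQ1 (finite_quot h𝔮0) card_quot
    (fun x => (gm d (α x) (β x) L).map (mapRingHom (Int.castRingHom (𝓞 K)))) c₀ z₀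
    (pig_lt (n := 3) hι hQ1 hs)
  refine ⟨e, he0, heH, fun c z v a u hp c' z' hc' hz' hc₀ hz₀ => ?_⟩
  have h1 := he c' z' hc₀ hz₀
  simp only [ev_map_int] at h1
  exact aux_zero hd α β hT e heH h𝔮 hY hp hc' hz' h1
    (size_lt finrank_pos hι hY hQ1 hsz)

theorem curve_mem (hd : 1 ≤ d) {𝔮 : Ideal (𝓞 K)} (h𝔮 : 𝔮.IsMaximal) {Y : ℝ}
    {c z : K} {v : ℕ} {a : 𝓞 K} {u : ℕ → 𝓞 K} (hp : Pt d Y c z v a u) (hv : (v : 𝓞 K) ∉ 𝔮)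
    {m : ℕ} {c' z' : 𝓞 K} (hc' : a - (v : 𝓞 K) ^ d * c' ∈ 𝔮 ^ m)
    (hz' : u 0 - (v : 𝓞 K) * z' ∈ 𝔮 ^ m) {F : ℤ[X][X]} {A B : ℕ} (hA : F.natDegree ≤ A)
    (hB : ∀ l, (F.coeff l).natDegree ≤ B) :
    hm d a (v : 𝓞 K) (u 0) F A B - (v : 𝓞 K) ^ (d * B + A) * E2 c' z' F ∈ 𝔮 ^ m ∧
      ((hm d a (v : 𝓞 K) (u 0) F A B : 𝓞 K) : K) = (v : K) ^ (d * B + A) * E2 c z F := by
  constructor
  · set π := Ideal.Quotient.mk (𝔮 ^ m) with hπ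
    rw [← Ideal.Quotient.eq, ← hπ, hm_map, map_mul, map_pow, E2_map]
    apply hm_eq _ _ hA hB
    · rw [← map_pow, ← map_mul, hπ, Ideal.Quotient.eq]; exact hc'
    · rw [← map_mul, hπ, Ideal.Quotient.eq]; exact hz'
  · show algebraMap (𝓞 K) K _ = _
    rw [hm_map, map_natCast]
    apply hm_eq _ _ hA hB
    · exact hp.ha
    · have := hp.hu 0
      rwa [orb_zero] at this

theorem aux_curve (hd : 1 ≤ d) {ι : Type} [Fintype ι] (hι : 1 ≤ Fintype.card ι) (α : ι → ℕ)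
    (β : ι → ℕ → ℕ) {L T : ℕ} (hT : ∀ x, d * α x + ∑ i ∈ Finset.range L, β x i ≤ T) {h : ℕ}
    (hs : (2 * finrank ℚ K * h) ^ 2 ≤ Fintype.card ι * h) {𝔮 : Ideal (𝓞 K)} (h𝔮 : 𝔮.IsMaximal)
    (h𝔮0 : 𝔮 ≠ ⊥) {Y : ℝ} (hY : 1 ≤ Y)
    (hsz : 2 * (Fintype.card ι : ℝ) * Y ^ T < ((Ideal.absNorm 𝔮 : ℕ) : ℝ) ^ h) {F : ℤ[X][X]}
    (c₀ z₀ : 𝓞 K) (h0 : E2 c₀ z₀ F ∈ 𝔮) (h1 : E2 c₀ z₀ F.derivative ∉ 𝔮) :
    ∃ e : ι → ℤ, e ≠ 0 ∧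
      ∀ (c z : K) (v : ℕ) (a : 𝓞 K) (u : ℕ → 𝓞 K), Pt d Y c z v a u → (v : 𝓞 K) ∉ 𝔮 →
        E2 c z F = 0 → ∀ c' z' : 𝓞 K,
        a - (v : 𝓞 K) ^ d * c' ∈ 𝔮 ^ (2 * finrank ℚ K * h) →
        (∀ i, u i - (v : 𝓞 K) * orb d c' z' i ∈ 𝔮 ^ (2 * finrank ℚ K * h)) →
        c' - c₀ ∈ 𝔮 → z' - z₀ ∈ 𝔮 → ∑ x, (e x : K) * E2 c z (gm d (α x) (β x) L) = 0 := by
  have hQ1 : 1 ≤ Ideal.absNorm 𝔮 := Nat.one_le_iff_ne_zero.2
    (fun h0 => h𝔮0 (Ideal.absNorm_eq_zero_iff.1 h0))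
  have h0' : ev (F.map (mapRingHom (Int.castRingHom (𝓞 K)))) c₀ z₀ ∈ 𝔮 := by
    rw [ev_map_int]; exact h0
  have h1' : ev (F.map (mapRingHom (Int.castRingHom (𝓞 K)))).derivative c₀ z₀ ∉ 𝔮 := by
    rw [derivative_map, ev_map_int]; exact h1
  obtain ⟨e, he0, heH, he⟩ := one_var h𝔮 hQ1 (finite_quot h𝔮0) card_quot
    (fun x => (gm d (α x) (β x) L).map (mapRingHom (Int.castRingHom (𝓞 K))))
    (F.map (mapRingHom (Int.castRingHom (𝓞 K)))) c₀ z₀ h0' h1'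
    (pig_lt (n := 2) hι hQ1 hs)
  refine ⟨e, he0, fun c z v a u hp hv hF c' z' hc' hz' hc₀ hz₀ => ?_⟩
  have hz0 : u 0 - (v : 𝓞 K) * z' ∈ 𝔮 ^ (2 * finrank ℚ K * h) := by
    have := hz' 0
    rwa [orb_zero] at this
  obtain ⟨k1, k2⟩ := curve_mem hd h𝔮 hp hv hc' hz0 (F := F) (le_refl _)
    (B := (Finset.range (F.natDegree + 1)).sup fun l => (F.coeff l).natDegree) (by
      intro l
      by_cases hl : l ≤ F.natDegree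
      · exact Finset.le_sup (f := fun l => (F.coeff l).natDegree) (Finset.mem_range.2 (by omega))
      · rw [coeff_eq_zero_of_natDegree_lt (not_le.1 hl), natDegree_zero]
        exact Nat.zero_le _)
  rw [hF, mul_zero] at k2
  have k3 : hm d a (v : 𝓞 K) (u 0) F F.natDegree
      ((Finset.range (F.natDegree + 1)).sup fun l => (F.coeff l).natDegree) = 0 := by
    apply FaithfulSMul.algebraMap_injective (𝓞 K) K
    rw [map_zero]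
    exact k2
  rw [k3, zero_sub, neg_mem_iff] at k1
  have k4 : E2 c' z' F ∈ 𝔮 ^ (2 * finrank ℚ K * h) := by
    apply mem_of_mul h𝔮 (t := (v : 𝓞 K) ^ (d * ((Finset.range (F.natDegree + 1)).sup fun l =>
      (F.coeff l).natDegree) + F.natDegree))
    · rw [mul_comm (E2 c' z' F)]; exact k1
    · intro h2
      exact hv (h𝔮.isPrime.mem_of_pow_mem _ h2)
  have h2 := he c' z' hc₀ hz₀ (by rw [ev_map_int]; exact k4)
  simp only [ev_map_int] at h2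
  exact aux_zero hd α β hT e heH h𝔮 hY hp hc' hz' h2
    (size_lt finrank_pos hι hY hQ1 hsz)

end

end Pool.Agent.Y673.PP
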