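import Pool.Agent.Y673.PP.FF

/-!
Common zeros of polynomials in two variables (helper673).
-/

set_option autoImplicit false

namespace Pool.Agent.Y673.PP

open Polynomial

theorem natDegree_det_le' {n : ℕ} (M : Matrix (Fin n) (Fin n) ℤ[X]) {B : ℕ}
    (h : ∀ i j, (M i j).natDegree ≤ B) : M.det.natDegree ≤ n * B := by
  rw [Matrix.det_apply]
  apply natDegree_sum_le_of_forall_le
  intro σ _
  refine (natDegree_smul_le _ _).trans ((natDegree_prod_le _ _).trans ?_)
  refine (Finset.sum_le_card_nsmul _ _ B fun i _ => h _ _).trans ?_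
  rw [Finset.card_univ, Fintype.card_fin, smul_eq_mul]

theorem res_natDegree {G Q : ℤ[X][X]} {B : ℕ} (hG : ∀ l, (G.coeff l).natDegree ≤ B)
    (hQ : ∀ l, (Q.coeff l).natDegree ≤ B) (m n : ℕ) :
    (resultant G Q m n).natDegree ≤ (m + n) * B := by
  unfold resultant
  apply natDegree_det_le'
  intro i j
  unfold sylvester
  rw [Matrix.of_apply]
  refine Fin.addCases (fun j₁ => ?_) (fun j₁ => ?_) j
  · rw [Fin.addCases_left]
    split_ifs
    · exact hQ _
    · rw [natDegree_zero]; exact Nat.zero_le _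
  · rw [Fin.addCases_right]
    split_ifs
    · exact hG _
    · rw [natDegree_zero]; exact Nat.zero_le _

theorem swap_coeff (P : ℤ[X][X]) (k l : ℕ) :
    ((Bivariate.swap P).coeff k).coeff l = (P.coeff l).coeff k := by
  induction P using Polynomial.induction_on' with
  | add p q hp hq => rw [map_add, coeff_add, coeff_add, hp, hq, coeff_add, coeff_add]
  | monomial n f =>
    induction f using Polynomial.induction_on' with
    | add p q hp hq =>
      rw [map_add (monomial n), map_add, coeff_add, coeff_add, hp, hq, coeff_add, coeff_add]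
    | monomial m r =>
      rw [Bivariate.swap_monomial_monomial, coeff_monomial, coeff_monomial]
      by_cases h1 : m = k
      · by_cases h2 : n = l
        · rw [if_pos h1, if_pos h2, coeff_monomial, if_pos h2, coeff_monomial, if_pos h1]
        · rw [if_pos h1, if_neg h2, coeff_monomial, if_neg h2, coeff_zero]
      · by_cases h2 : n = l
        · rw [if_neg h1, if_pos h2, coeff_monomial, if_neg h1, coeff_zero]
        · rw [if_neg h1, if_neg h2, coeff_zero, coeff_zero]

theorem coeff_natDegree_le (P : ℤ[X][X]) (l : ℕ) :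
    (P.coeff l).natDegree ≤ (Bivariate.swap P).natDegree := by
  rw [natDegree_le_iff_coeff_eq_zero]
  intro N hN
  rw [← swap_coeff, coeff_eq_zero_of_natDegree_lt hN, coeff_zero]

theorem swap_natDegree_le {P : ℤ[X][X]} {B : ℕ} (h : ∀ l, (P.coeff l).natDegree ≤ B) :
    (Bivariate.swap P).natDegree ≤ B := by
  rw [natDegree_le_iff_coeff_eq_zero]
  intro N hN
  ext l
  rw [swap_coeff, coeff_zero]
  exact coeff_eq_zero_of_natDegree_lt (lt_of_le_of_lt (h l) hN)

theorem swap_ne {P : ℤ[X][X]} (h : P ≠ 0) : Bivariate.swap P ≠ 0 := by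
  intro h0
  exact h ((map_eq_zero_iff _ (Bivariate.swap (R := ℤ)).injective).1 h0)

theorem roots_fin {K : Type} [Field K] [CharZero K] {R : ℤ[X]} (hR : R ≠ 0) :
    {c : K | R.eval₂ (Int.castRingHom K) c = 0}.Finite ∧
      {c : K | R.eval₂ (Int.castRingHom K) c = 0}.ncard ≤ R.natDegree := by
  classical
  have hR' : R.map (Int.castRingHom K) ≠ 0 := (Polynomial.map_ne_zero_iff Int.cast_injective).2 hR
  have h1 : {c : K | R.eval₂ (Int.castRingHom K) c = 0} =
      ((R.map (Int.castRingHom K)).roots.toFinset : Set K) := by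
    ext c
    rw [Set.mem_setOf_eq, Finset.mem_coe, Multiset.mem_toFinset, mem_roots hR', IsRoot.def, eval_map]
  rw [h1]
  refine ⟨Finset.finite_toSet _, ?_⟩
  rw [Set.ncard_coe_finset]
  exact (Multiset.toFinset_card_le _).trans ((card_roots' _).trans natDegree_map_le)

theorem zc {K : Type} [Field K] [CharZero K] {Q : ℤ[X][X]} {A A₂ B : ℕ} (hQA : Q.natDegree ≤ A₂)
    (hQB : ∀ l, (Q.coeff l).natDegree ≤ B) (Gd : K → K → Prop)
    (hgood : ∀ G : ℤ[X][X], Irreducible G → 1 ≤ G.natDegree → G.natDegree ≤ A → G ∣ Q →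
      ∀ c z : K, E2 c z G = 0 → Gd c z) (P : ℤ[X][X]) (hP : P ≠ 0) (hPA : P.natDegree ≤ A)
    (hPB : (Bivariate.swap P).natDegree ≤ B) :
    {c : K | ∃ z, E2 c z P = 0 ∧ E2 c z Q = 0 ∧ ¬ Gd c z}.Finite ∧
      {c : K | ∃ z, E2 c z P = 0 ∧ E2 c z Q = 0 ∧ ¬ Gd c z}.ncard ≤
        (P.natDegree + (Bivariate.swap P).natDegree) * ((A + A₂) * B + 1) := by
  induction P using WfDvdMonoid.induction_on_irreducible with
  | zero => exact absurd rfl hP
  | unit u hu =>
    have h1 : {c : K | ∃ z, E2 c z u = 0 ∧ E2 c z Q = 0 ∧ ¬ Gd c z} = ∅ := by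
      rw [Set.eq_empty_iff_forall_notMem]
      rintro c ⟨z, h, -⟩
      exact (hu.map (E2 c z)).ne_zero h
    rw [h1]
    exact ⟨Set.finite_empty, by rw [Set.ncard_empty]; exact Nat.zero_le _⟩
  | mul a i ha hi ih =>
    have hd : (i * a).natDegree = i.natDegree + a.natDegree := natDegree_mul hi.ne_zero ha
    have hd' : (Bivariate.swap (i * a)).natDegree =
        (Bivariate.swap i).natDegree + (Bivariate.swap a).natDegree := by
      rw [map_mul, natDegree_mul (swap_ne hi.ne_zero) (swap_ne ha)]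
    rw [hd] at hPA ⊢
    rw [hd'] at hPB ⊢
    obtain ⟨hf, hc⟩ := ih ha (by omega) (by omega)
    have hi1 : {c : K | ∃ z, E2 c z i = 0 ∧ E2 c z Q = 0 ∧ ¬ Gd c z}.Finite ∧
        {c : K | ∃ z, E2 c z i = 0 ∧ E2 c z Q = 0 ∧ ¬ Gd c z}.ncard ≤
          (i.natDegree + (Bivariate.swap i).natDegree) * ((A + A₂) * B + 1) := by
      by_cases h0 : i.natDegree = 0
      · obtain ⟨g, hg⟩ := natDegree_eq_zero.1 h0
        have hg0 : g ≠ 0 := by
          rintro rfl
          rw [C_0] at hg
          exact hi.ne_zero hg.symm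
        obtain ⟨h1, h2⟩ := roots_fin (K := K) hg0
        have hsub : {c : K | ∃ z, E2 c z i = 0 ∧ E2 c z Q = 0 ∧ ¬ Gd c z} ⊆
            {c : K | g.eval₂ (Int.castRingHom K) c = 0} := by
          rintro c ⟨z, h, -⟩
          rw [← hg, E2_C] at h
          exact h
        refine ⟨h1.subset hsub, (Set.ncard_le_ncard hsub h1).trans (h2.trans ?_)⟩
        have h3 : g.natDegree ≤ (Bivariate.swap i).natDegree := by
          have := coeff_natDegree_le i 0
          rwa [← hg, coeff_C_zero, hg] at this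
        have : (Bivariate.swap i).natDegree ≤
            (Bivariate.swap i).natDegree * ((A + A₂) * B + 1) :=
          Nat.le_mul_of_pos_right _ (by omega)
        rw [add_mul]
        omega
      · by_cases hdvd : i ∣ Q
        · have h1 : {c : K | ∃ z, E2 c z i = 0 ∧ E2 c z Q = 0 ∧ ¬ Gd c z} = ∅ := by
            rw [Set.eq_empty_iff_forall_notMem]
            rintro c ⟨z, h, -, h'⟩
            exact h' (hgood i hi (by omega) (by omega) hdvd c z h)
          rw [h1]
          exact ⟨Set.finite_empty, by rw [Set.ncard_empty]; exact Nat.zero_le _⟩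
        · have hR := res_ne hi (by omega) hdvd
          obtain ⟨h1, h2⟩ := roots_fin (K := K) hR
          have hsub : {c : K | ∃ z, E2 c z i = 0 ∧ E2 c z Q = 0 ∧ ¬ Gd c z} ⊆
              {c : K | (resultant i Q i.natDegree Q.natDegree).eval₂ (Int.castRingHom K) c = 0} := by
            rintro c ⟨z, h, h', -⟩
            exact res_zero (by omega) c z h h'
          refine ⟨h1.subset hsub, (Set.ncard_le_ncard hsub h1).trans (h2.trans ?_)⟩
          have h3 := res_natDegree (G := i) (Q := Q) (B := B)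
            (fun l => (coeff_natDegree_le i l).trans (by omega)) hQB i.natDegree Q.natDegree
          have h4 : (i.natDegree + Q.natDegree) * B ≤ (A + A₂) * B :=
            Nat.mul_le_mul_right _ (by omega)
          have h5 : (A + A₂) * B + 1 ≤ (i.natDegree + (Bivariate.swap i).natDegree) *
              ((A + A₂) * B + 1) := Nat.le_mul_of_pos_left _ (by omega)
          omega
    have hsub : {c : K | ∃ z, E2 c z (i * a) = 0 ∧ E2 c z Q = 0 ∧ ¬ Gd c z} ⊆
        {c : K | ∃ z, E2 c z i = 0 ∧ E2 c z Q = 0 ∧ ¬ Gd c z} ∪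
        {c : K | ∃ z, E2 c z a = 0 ∧ E2 c z Q = 0 ∧ ¬ Gd c z} := by
      rintro c ⟨z, h, h', h''⟩
      rw [map_mul] at h
      rcases mul_eq_zero.1 h with h | h
      · exact Or.inl ⟨z, h, h', h''⟩
      · exact Or.inr ⟨z, h, h', h''⟩
    refine ⟨(hi1.1.union hf).subset hsub, (Set.ncard_le_ncard hsub (hi1.1.union hf)).trans
      ((Set.ncard_union_le _ _).trans ?_)⟩
    have := hi1.2
    calc _ ≤ (i.natDegree + (Bivariate.swap i).natDegree) * ((A + A₂) * B + 1) +
        (a.natDegree + (Bivariate.swap a).natDegree) * ((A + A₂) * B + 1) := Nat.add_le_add this hc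
      _ = _ := by ring

end Pool.Agent.Y673.PP
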