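import Pool.Agent.Y673.PP.Axp
import Pool.Agent.Y673.PP.Zc
import Pool.Agent.Y673.SU.Sub

/-!
Residue classes and bounds for families of polynomials (helper673).
-/

set_option autoImplicit false

namespace Pool.Agent.Y673.PP

open Polynomial NumberField Module

section
variable (K : Type) [Field K] [NumberField K]

theorem exists_qi : ∃ f : ℕ → Ideal (𝓞 K), ∀ q : ℕ, q.Prime → (f q).IsMaximal ∧ f q ≠ ⊥ ∧
    q ≤ Ideal.absNorm (f q) ∧ Ideal.absNorm (f q) ≤ q ^ (finrank ℚ K) ∧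
    ∀ x ∈ f q, (q : ℤ) ∣ Algebra.norm ℤ x := by
  have h : ∀ q : ℕ, ∃ I : Ideal (𝓞 K), q.Prime → I.IsMaximal ∧ I ≠ ⊥ ∧
      q ≤ Ideal.absNorm I ∧ Ideal.absNorm I ≤ q ^ (finrank ℚ K) ∧
      ∀ x ∈ I, (q : ℤ) ∣ Algebra.norm ℤ x := by
    intro q
    by_cases hq : q.Prime
    · have habs : Ideal.absNorm (Ideal.span {(q : 𝓞 K)}) = q ^ (finrank ℚ K) := by
        rw [Ideal.absNorm_span_singleton]
        have h1 : Algebra.norm ℤ ((q : ℕ) : 𝓞 K) = (q : ℤ) ^ (finrank ℚ K) := by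
          have h2 : ((q : ℕ) : 𝓞 K) = algebraMap ℤ (𝓞 K) (q : ℤ) := by simp
          rw [h2, Algebra.norm_algebraMap, RingOfIntegers.rank]
        rw [h1, Int.natAbs_pow, Int.natAbs_natCast]
      have hne : Ideal.span {(q : 𝓞 K)} ≠ ⊤ := by
        intro h0
        rw [h0, Ideal.absNorm_top] at habs
        have : 1 < q ^ (finrank ℚ K) := Nat.one_lt_pow finrank_pos.ne' hq.one_lt
        omega
      obtain ⟨I, hI, hle⟩ := Ideal.exists_le_maximal _ hne
      have hqI : (q : 𝓞 K) ∈ I := hle (Ideal.mem_span_singleton_self _)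
      have hI0 : I ≠ ⊥ := by
        rintro rfl
        have : (q : 𝓞 K) = 0 := hqI
        exact hq.ne_zero (by exact_mod_cast this)
      have hdvd : Ideal.absNorm I ∣ q ^ (finrank ℚ K) := by
        rw [← habs]
        exact Ideal.absNorm_dvd_absNorm_of_le hle
      obtain ⟨k, hk, hk'⟩ := (Nat.dvd_prime_pow hq).1 hdvd
      have hk0 : k ≠ 0 := by
        rintro rfl
        rw [pow_zero] at hk'
        exact hI.ne_top (Ideal.absNorm_eq_one_iff.1 hk')
      refine ⟨I, fun _ => ⟨hI, hI0, ?_, ?_, ?_⟩⟩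
      · rw [hk']
        exact Nat.le_self_pow hk0 q
      · rw [hk']
        exact Nat.pow_le_pow_right hq.pos hk
      · intro x hx
        have h1 := Ideal.absNorm_dvd_norm_of_mem hx
        rw [hk'] at h1
        exact (Int.natCast_dvd_natCast.2 (dvd_pow_self q hk0)).trans h1
    · exact ⟨⊥, fun h => absurd h hq⟩
  choose f hf using h
  exact ⟨f, hf⟩

variable {K}

/-- the number of residue classes -/
theorem classes {f : ℕ → Ideal (𝓞 K)} (hf : ∀ q : ℕ, q.Prime → (f q).IsMaximal ∧ f q ≠ ⊥ ∧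
    q ≤ Ideal.absNorm (f q) ∧ Ideal.absNorm (f q) ≤ q ^ (finrank ℚ K) ∧
    ∀ x ∈ f q, (q : ℤ) ∣ Algebra.norm ℤ x) {Z M : ℕ} (S : Finset K) (q : K → ℕ) (c' z' : K → 𝓞 K)
    (hq : ∀ c ∈ S, (q c).Prime ∧ q c ≤ Z)
    (hM : ∀ c₁ ∈ S, ∀ T : Finset K, T ⊆ S → (∀ c ∈ T, q c = q c₁ ∧ c' c - c' c₁ ∈ f (q c₁) ∧
      z' c - z' c₁ ∈ f (q c₁)) → T.card ≤ M) :
    S.card ≤ M * ((Z + 1) * Z ^ (2 * finrank ℚ K)) := by
  classical
  have hg : ∀ q : ℕ, ∃ g : 𝓞 K → ℕ, q.Prime → (∀ x, g x < Ideal.absNorm (f q)) ∧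
      ∀ x y, g x = g y → x - y ∈ f q := by
    intro q
    by_cases hq : q.Prime
    · obtain ⟨h1, h2, -⟩ := hf q hq
      haveI : Finite (𝓞 K ⧸ f q) := Ideal.finiteQuotientOfFreeOfNeBot _ h2
      have hc : Nat.card (𝓞 K ⧸ f q) = Ideal.absNorm (f q) := by
        rw [Ideal.absNorm_apply, Submodule.cardQuot_apply]
      refine ⟨fun x => (Finite.equivFin (𝓞 K ⧸ f q) (Ideal.Quotient.mk (f q) x) : ℕ), fun _ =>
        ⟨fun x => ?_, fun x y hxy => ?_⟩⟩
      · rw [← hc]
        exact (Finite.equivFin (𝓞 K ⧸ f q) _).2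
      · have h3 := (Finite.equivFin (𝓞 K ⧸ f q)).injective (Fin.ext hxy)
        exact Ideal.Quotient.eq.1 h3
    · exact ⟨fun _ => 0, fun h => absurd h hq⟩
  choose g hg using hg
  set κ : K → ℕ × ℕ × ℕ := fun c => (q c, g (q c) (c' c), g (q c) (z' c)) with hκ
  have himg : (S.image κ).card ≤ (Z + 1) * Z ^ (2 * finrank ℚ K) := by
    have h1 : S.image κ ⊆ Finset.range (Z + 1) ×ˢ (Finset.range (Z ^ (finrank ℚ K)) ×ˢ
        Finset.range (Z ^ (finrank ℚ K))) := by
      intro x hx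
      obtain ⟨c, hc, rfl⟩ := Finset.mem_image.1 hx
      obtain ⟨h2, h3⟩ := hq c hc
      obtain ⟨-, -, -, h4, -⟩ := hf (q c) h2
      have h5 : q c ^ (finrank ℚ K) ≤ Z ^ (finrank ℚ K) := Nat.pow_le_pow_left h3 _
      have h6 := (hg (q c) h2).1 (c' c)
      have h7 := (hg (q c) h2).1 (z' c)
      simp only [hκ, Finset.mem_product, Finset.mem_range]
      refine ⟨by omega, by omega, by omega⟩
    refine (Finset.card_le_card h1).trans ?_
    rw [Finset.card_product, Finset.card_product, Finset.card_range, Finset.card_range, two_mul,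
      pow_add]
  refine (Finset.card_le_mul_card_image S M ?_).trans (Nat.mul_le_mul_left _ himg)
  intro x hx
  obtain ⟨c₁, hc₁, rfl⟩ := Finset.mem_image.1 hx
  apply hM c₁ hc₁ _ (Finset.filter_subset _ _)
  intro c hc
  rw [Finset.mem_filter] at hc
  obtain ⟨hcS, hcκ⟩ := hc
  simp only [hκ, Prod.mk.injEq] at hcκ
  obtain ⟨h1, h2, h3⟩ := hcκ
  rw [h1] at h2 h3
  exact ⟨h1, (hg (q c₁) (hq c₁ hc₁).1).2 _ _ h2, (hg (q c₁) (hq c₁ hc₁).1).2 _ _ h3⟩

end

/-- bounds for the combinations of a finite family of polynomials -/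
theorem fam_bd {ι : Type} [Fintype ι] (M : ι → ℤ[X][X]) : ∃ A B C : ℕ, ∀ (e : ι → ℤ) (H : ℕ),
    (∀ x, |e x| ≤ H) → (∑ x, (e x : ℤ[X][X]) * M x).natDegree ≤ A ∧
      (∀ l, ((∑ x, (e x : ℤ[X][X]) * M x).coeff l).natDegree ≤ B) ∧
      ∀ l k, |((∑ x, (e x : ℤ[X][X]) * M x).coeff l).coeff k| ≤ C * H := by
  classical
  set A : ℕ := ∑ x, (M x).natDegree with hA
  set B : ℕ := ∑ x, (Bivariate.swap (M x)).natDegree with hB
  set C₀ : ℕ := ∑ x, ∑ l ∈ Finset.range (A + 1), ∑ k ∈ Finset.range (B + 1),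
    (((M x).coeff l).coeff k).natAbs with hC₀
  have hAx : ∀ x, (M x).natDegree ≤ A := fun x =>
    Finset.single_le_sum (f := fun x => (M x).natDegree) (fun _ _ => Nat.zero_le _) (Finset.mem_univ x)
  have hBx : ∀ x, (Bivariate.swap (M x)).natDegree ≤ B := fun x =>
    Finset.single_le_sum (f := fun x => (Bivariate.swap (M x)).natDegree) (fun _ _ => Nat.zero_le _)
      (Finset.mem_univ x)
  have hcoef : ∀ (e : ι → ℤ) (l k : ℕ), ((∑ x, (e x : ℤ[X][X]) * M x).coeff l).coeff k =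
      ∑ x, e x * ((M x).coeff l).coeff k := by
    intro e l k
    rw [finsetSum_coeff, finsetSum_coeff]
    apply Finset.sum_congr rfl
    intro x _
    have := int_mul_coeff (e x) (M x) l k
    simpa using this
  refine ⟨A, B, C₀, fun e H he => ⟨?_, ?_, ?_⟩⟩
  · apply natDegree_sum_le_of_forall_le
    intro x _
    have h1 : ((e x : ℤ[X][X]) * M x) = C (C (e x)) * M x := by rw [int_CC]
    rw [h1]
    exact (natDegree_C_mul_le _ _).trans (hAx x)
  · intro l
    rw [natDegree_le_iff_coeff_eq_zero]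
    intro N hN
    rw [hcoef]
    apply Finset.sum_eq_zero
    intro x _
    rw [coeff_eq_zero_of_natDegree_lt
      (lt_of_le_of_lt ((coeff_natDegree_le (M x) l).trans (hBx x)) hN), mul_zero]
  · intro l k
    rw [hcoef]
    refine (Finset.abs_sum_le_sum_abs _ _).trans ?_
    have h1 : ∀ x, |e x * ((M x).coeff l).coeff k| ≤
        (∑ l ∈ Finset.range (A + 1), ∑ k ∈ Finset.range (B + 1),
          ((((M x).coeff l).coeff k).natAbs : ℤ)) * H := by
      intro x
      rw [abs_mul, mul_comm]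
      apply mul_le_mul _ (he x) (abs_nonneg _) (by positivity)
      by_cases hl : l ≤ A
      · by_cases hk : k ≤ B
        · rw [← Int.natCast_natAbs]
          refine le_trans ?_ (Finset.single_le_sum (f := fun l => ∑ k ∈ Finset.range (B + 1),
            ((((M x).coeff l).coeff k).natAbs : ℤ)) (fun _ _ => by positivity)
            (Finset.mem_range.2 (Nat.lt_succ_of_le hl)))
          exact Finset.single_le_sum (f := fun k => ((((M x).coeff l).coeff k).natAbs : ℤ))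
            (fun _ _ => by positivity) (Finset.mem_range.2 (Nat.lt_succ_of_le hk))
        · rw [coeff_eq_zero_of_natDegree_lt
            (lt_of_le_of_lt ((coeff_natDegree_le (M x) l).trans (hBx x)) (not_le.1 hk)), abs_zero]
          positivity
      · rw [coeff_eq_zero_of_natDegree_lt (lt_of_le_of_lt (hAx x) (not_le.1 hl)), coeff_zero,
          abs_zero]
        positivity
    refine (Finset.sum_le_sum fun x _ => h1 x).trans (le_of_eq ?_)
    rw [← Finset.sum_mul, hC₀]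
    push_cast
    rfl

/-- bounds for the derivatives -/
theorem deriv_bd {F : ℤ[X][X]} {A B : ℕ} {C : ℕ} (hA : F.natDegree ≤ A)
    (hB : ∀ l, (F.coeff l).natDegree ≤ B) (hC : ∀ l k, |(F.coeff l).coeff k| ≤ C) :
    F.derivative.natDegree ≤ A ∧ (∀ l, (F.derivative.coeff l).natDegree ≤ B) ∧
      ∀ l k, |(F.derivative.coeff l).coeff k| ≤ ((A * C : ℕ) : ℤ) := by
  have hc : ∀ l k, (F.derivative.coeff l).coeff k = (F.coeff (l + 1)).coeff k * ((l : ℤ) + 1) := by
    intro l k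
    rw [coeff_derivative]
    have : ((l : ℤ[X]) + 1) = Polynomial.C ((l : ℤ) + 1) := by simp
    rw [this, coeff_mul_C]
  refine ⟨?_, ?_, ?_⟩
  · exact (natDegree_derivative_le F).trans (by omega)
  · intro l
    rw [natDegree_le_iff_coeff_eq_zero]
    intro N hN
    rw [hc, coeff_eq_zero_of_natDegree_lt (lt_of_le_of_lt (hB _) hN), zero_mul]
  · intro l k
    rw [hc, abs_mul]
    by_cases hl : l + 1 ≤ A
    · have h1 : |(l : ℤ) + 1| ≤ A := by
        rw [abs_of_nonneg (by positivity)]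
        exact_mod_cast hl
      push_cast
      rw [mul_comm (A : ℤ)]
      exact mul_le_mul (hC _ _) h1 (abs_nonneg _) (by positivity)
    · rw [coeff_eq_zero_of_natDegree_lt (lt_of_le_of_lt hA (by omega)), coeff_zero, abs_zero,
        zero_mul]
      positivity

theorem iter_deriv_bd {F : ℤ[X][X]} {A B : ℕ} {C : ℕ} (hA : F.natDegree ≤ A)
    (hB : ∀ l, (F.coeff l).natDegree ≤ B) (hC : ∀ l k, |(F.coeff l).coeff k| ≤ C) (μ : ℕ) :
    (derivative^[μ] F).natDegree ≤ A ∧ (∀ l, ((derivative^[μ] F).coeff l).natDegree ≤ B) ∧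
      ∀ l k, |((derivative^[μ] F).coeff l).coeff k| ≤ ((A ^ μ * C : ℕ) : ℤ) := by
  induction μ with
  | zero => exact ⟨hA, hB, by simpa using hC⟩
  | succ μ ih =>
    rw [Function.iterate_succ_apply']
    obtain ⟨h1, h2, h3⟩ := ih
    obtain ⟨h4, h5, h6⟩ := deriv_bd h1 h2 h3
    refine ⟨h4, h5, fun l k => (h6 l k).trans (le_of_eq ?_)⟩
    push_cast
    rw [pow_succ']
    ring

end Pool.Agent.Y673.PP
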