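import Pool.Agent.Y673.PP.Cls

/-!
The number of exceptional parameters on a curve (helper673).
-/

set_option autoImplicit false

namespace Pool.Agent.Y673.PP

open Polynomial NumberField Module

theorem FF' {d : ℕ} (hd : 2 ≤ d) {g d₀ K : ℕ} (hK : (d * d) ^ g + 3 + d₀ ≤ K)
    (hK' : g * d₀ < d ^ K) {G : ℤ[X][X]} (hG : Irreducible G) (hg1 : 1 ≤ G.natDegree)
    (hg : G.natDegree ≤ g) (r : ℕ → ℤ[X]) (hr : ∀ b, (r b).natDegree < d₀) {δ : ℕ}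
    (hne : ∃ b ≤ δ, r b ≠ 0) (h : G ∣ ∑ b ∈ Finset.range (δ + 1), C (r b) * (it d K) ^ b) :
    ∃ i j, i < j ∧ j ≤ (d * d) ^ g ∧ G ∣ it d i - it d j := by
  classical
  obtain ⟨b₁, hb₁, hb₁'⟩ := hne
  set δ' := Nat.findGreatest (fun b => r b ≠ 0) δ with hδ'
  have h1 : r δ' ≠ 0 := Nat.findGreatest_spec (P := fun b => r b ≠ 0) hb₁ hb₁'
  have h2 : δ' ≤ δ := Nat.findGreatest_le _
  have h3 : ∑ b ∈ Finset.range (δ' + 1), C (r b) * (it d K) ^ b =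
      ∑ b ∈ Finset.range (δ + 1), C (r b) * (it d K) ^ b := by
    apply Finset.sum_subset
    · intro x hx
      rw [Finset.mem_range] at hx ⊢
      omega
    · intro x hx hx'
      rw [Finset.mem_range] at hx hx'
      have h4 := Nat.findGreatest_is_greatest (P := fun b => r b ≠ 0) (k := x) (n := δ)
        (by omega) (by omega)
      rw [not_not.1 h4, C_0, zero_mul]
  rw [← h3] at h
  exact FF hd hK hK' hG hg1 hg r hr h1 h

/-- the exponents of the monomials on a curve -/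
def bt (K₂ b i : ℕ) : ℕ := if i = K₂ then b else 0

theorem gm_bt (d K₂ j b : ℕ) : gm d j (bt K₂ b) (K₂ + 1) = C (X ^ j) * (it d K₂) ^ b := by
  unfold gm
  rw [Finset.prod_range_succ, Finset.prod_eq_one, one_mul]
  · congr 2
    unfold bt
    rw [if_pos rfl]
  · intro i hi
    unfold bt
    rw [if_neg (by have := Finset.mem_range.1 hi; omega), pow_zero]

theorem sum_bt (K₂ b : ℕ) : ∑ i ∈ Finset.range (K₂ + 1), bt K₂ b i = b := by
  rw [Finset.sum_range_succ, Finset.sum_eq_zero, zero_add]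
  · unfold bt; rw [if_pos rfl]
  · intro i hi
    unfold bt
    rw [if_neg (by have := Finset.mem_range.1 hi; omega)]

/-- the point is preperiodic of bounded type -/
def Gd {S : Type} [CommRing S] (d N₀ : ℕ) (c z : S) : Prop :=
  ∃ i j, i < j ∧ j ≤ N₀ ∧ orb d c z i = orb d c z j

/-- the coefficients of the auxiliary polynomial on a curve -/
noncomputable def rr {d₀ : ℕ} (e : Fin d₀ × Fin d₀ → ℤ) (b : ℕ) : ℤ[X] :=
  if h : b < d₀ then ∑ j : Fin d₀, C (e (j, ⟨b, h⟩)) * X ^ (j : ℕ) else 0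

theorem rr_natDegree {d₀ : ℕ} (hd₀ : 1 ≤ d₀) (e : Fin d₀ × Fin d₀ → ℤ) (b : ℕ) :
    (rr e b).natDegree < d₀ := by
  unfold rr
  split_ifs with h
  · have h1 : (∑ j : Fin d₀, C (e (j, ⟨b, h⟩)) * X ^ (j : ℕ)).natDegree ≤ d₀ - 1 := by
      apply natDegree_sum_le_of_forall_le
      intro j _
      refine (natDegree_C_mul_X_pow_le _ _).trans ?_
      have := j.2
      omega
    omega
  · rw [natDegree_zero]; omega

theorem rr_sum {d K₂ d₀ : ℕ} (hd₀ : 1 ≤ d₀) (e : Fin d₀ × Fin d₀ → ℤ) :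
    ∑ x, (e x : ℤ[X][X]) * gm d (x.1 : ℕ) (bt K₂ (x.2 : ℕ)) (K₂ + 1) =
      ∑ b ∈ Finset.range (d₀ - 1 + 1), C (rr e b) * (it d K₂) ^ b := by
  have h1 : d₀ - 1 + 1 = d₀ := by omega
  rw [h1, Fintype.sum_prod_type_right, Finset.sum_range]
  apply Finset.sum_congr rfl
  intro b _
  unfold rr
  rw [dif_pos b.2, map_sum, Finset.sum_mul]
  apply Finset.sum_congr rfl
  intro j _
  rw [gm_bt, int_CC]
  simp only [C_mul, C_pow, Fin.eta]
  ring

theorem rr_ne {d₀ : ℕ} {e : Fin d₀ × Fin d₀ → ℤ} (he : e ≠ 0) : ∃ b ≤ d₀ - 1, rr e b ≠ 0 := by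
  by_contra hcon
  push Not at hcon
  apply he
  funext x
  obtain ⟨j, b⟩ := x
  have h1 := hcon b (by have := b.2; omega)
  unfold rr at h1
  rw [dif_pos b.2] at h1
  have h3 := congrArg (fun p => p.coeff (j : ℕ)) h1
  simp only [finsetSum_coeff, coeff_C_mul, coeff_X_pow, coeff_zero] at h3
  rw [Finset.sum_eq_single j] at h3
  · simpa using h3
  · intro b _ hb
    rw [if_neg, mul_zero]
    intro h4
    exact hb (Fin.ext h4.symm)
  · intro h4; exact absurd (Finset.mem_univ j) h4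

theorem curve_zero {K : Type} [Field K] [NumberField K] {d : ℕ} (hd : 1 ≤ d) {𝔮 : Ideal (𝓞 K)}
    (h𝔮 : 𝔮.IsMaximal) {Y : ℝ} {c z : K} {v : ℕ} {a : 𝓞 K} {u : ℕ → 𝓞 K} (hp : Pt d Y c z v a u)
    (hv : (v : 𝓞 K) ∉ 𝔮) {m : ℕ} {c' z' : 𝓞 K} (hc' : a - (v : 𝓞 K) ^ d * c' ∈ 𝔮 ^ m)
    (hz' : ∀ i, u i - (v : 𝓞 K) * orb d c' z' i ∈ 𝔮 ^ m) {F : ℤ[X][X]} {A B : ℕ}
    (hA : F.natDegree ≤ A) (hB : ∀ l, (F.coeff l).natDegree ≤ B) (hF : E2 c z F = 0) :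
    E2 c' z' F ∈ 𝔮 ^ m := by
  have hz0 : u 0 - (v : 𝓞 K) * z' ∈ 𝔮 ^ m := by
    have := hz' 0
    rwa [orb_zero] at this
  obtain ⟨k1, k2⟩ := curve_mem hd h𝔮 hp hv hc' hz0 (F := F) hA hB
  rw [hF, mul_zero] at k2
  have k3 : hm d a (v : 𝓞 K) (u 0) F A B = 0 := by
    apply FaithfulSMul.algebraMap_injective (𝓞 K) K
    rw [map_zero]
    exact k2
  rw [k3, zero_sub, neg_mem_iff] at k1
  apply mem_of_mul h𝔮 (t := (v : 𝓞 K) ^ (d * B + A))
  · rw [mul_comm (E2 c' z' F)]; exact k1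
  · intro h2
    exact hv (h𝔮.isPrime.mem_of_pow_mem _ h2)

theorem hm_norm {Y : ℝ} (hY : 1 ≤ Y) {d : ℕ} (hd : 1 ≤ d) {a v x : ℂ} (ha : ‖a‖ ≤ Y) (hv : ‖v‖ ≤ Y)
    (hx : ‖x‖ ≤ Y) {F : ℤ[X][X]} {A B C : ℕ} (hC : ∀ l k, |(F.coeff l).coeff k| ≤ C) :
    ‖hm d a v x F A B‖ ≤ (A + 1) * (B + 1) * C * Y ^ (d * B + A) := by
  unfold hm
  have hY0 : 0 ≤ Y := by linarith
  have h1 : ∀ l ∈ Finset.range (A + 1), ‖∑ k ∈ Finset.range (B + 1),
      (((F.coeff l).coeff k : ℤ) : ℂ) * a ^ k * x ^ l * v ^ (d * B + A - (d * k + l))‖ ≤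
        (B + 1) * (C * Y ^ (d * B + A)) := by
    intro l hl
    refine (norm_sum_le _ _).trans ?_
    have h2 : ∀ k ∈ Finset.range (B + 1), ‖(((F.coeff l).coeff k : ℤ) : ℂ) * a ^ k * x ^ l *
        v ^ (d * B + A - (d * k + l))‖ ≤ C * Y ^ (d * B + A) := by
      intro k hk
      have hl' := Finset.mem_range.1 hl
      have hk' := Finset.mem_range.1 hk
      rw [norm_mul, norm_mul, norm_mul, norm_pow, norm_pow, norm_pow, Complex.norm_intCast]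
      have h3 : |(((F.coeff l).coeff k : ℤ) : ℝ)| ≤ C := by exact_mod_cast hC l k
      calc |(((F.coeff l).coeff k : ℤ) : ℝ)| * ‖a‖ ^ k * ‖x‖ ^ l *
            ‖v‖ ^ (d * B + A - (d * k + l)) ≤
          C * Y ^ k * Y ^ l * Y ^ (d * B + A - (d * k + l)) := by gcongr
        _ = C * Y ^ (k + l + (d * B + A - (d * k + l))) := by rw [pow_add, pow_add]; ring
        _ ≤ C * Y ^ (d * B + A) := by
            apply mul_le_mul_of_nonneg_left _ (Nat.cast_nonneg _)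
            apply pow_le_pow_right₀ hY
            have e1 : k ≤ d * k := Nat.le_mul_of_pos_left _ hd
            have e2 : d * k ≤ d * B := Nat.mul_le_mul_left _ (by omega)
            omega
    refine (Finset.sum_le_card_nsmul _ _ _ h2).trans (le_of_eq ?_)
    rw [Finset.card_range, nsmul_eq_mul]
    push_cast
    ring
  refine (norm_sum_le _ _).trans ((Finset.sum_le_card_nsmul _ _ _ h1).trans (le_of_eq ?_))
  rw [Finset.card_range, nsmul_eq_mul]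
  push_cast
  ring

/-- the norm of an integer with bounded conjugates -/
theorem norm_le_of {K : Type} [Field K] [NumberField K] {x : 𝓞 K} {B : ℝ}
    (hB : ∀ σ : K →+* ℂ, ‖σ (x : K)‖ ≤ B) :
    |((Algebra.norm ℤ x : ℤ) : ℝ)| ≤ B ^ (finrank ℚ K) := by
  have h5 := Algebra.norm_eq_prod_embeddings ℚ ℂ (x : K)
  have h6 : (Algebra.norm ℚ (x : K)) = ((Algebra.norm ℤ x : ℤ) : ℚ) := by
    rw [Algebra.coe_norm_int]
  have h7 : ((algebraMap ℚ ℂ) (Algebra.norm ℚ (x : K))) = ((Algebra.norm ℤ x : ℤ) : ℂ) := by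
    rw [h6]; simp
  rw [h7] at h5
  rw [← Complex.norm_intCast, h5, norm_prod]
  refine (Finset.prod_le_prod (fun _ _ => norm_nonneg _) (g := fun _ => B) ?_).trans ?_
  · intro σ _
    exact hB σ.toRingHom
  · rw [Finset.prod_const, Finset.card_univ, AlgHom.card]

set_option maxHeartbeats 1000000 in
theorem curve_count {d : ℕ} (hd : 2 ≤ d) (A B d₀ K₂ : ℕ) (hd₀ : 1 ≤ d₀)
    (hK₂ : (d * d) ^ A + 3 + d₀ ≤ K₂) (hK₂' : A * d₀ < d ^ K₂) :
    ∃ M₃ : ℕ, ∀ (K : Type) [Field K] [NumberField K] (h T : ℕ), 1 ≤ h → d * d₀ + d₀ ≤ T →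
      (2 * finrank ℚ K * h) ^ 2 ≤ d₀ * d₀ * h → ∀ Y : ℝ, 1 ≤ Y → ∀ Z₀ Z W : ℕ,
      2 * ((d₀ * d₀ : ℕ) : ℝ) * Y ^ T < (Z₀ : ℝ) ^ h →
      (∀ w : ℤ, w ≠ 0 → |w| ≤ W → ∃ q : ℕ, q.Prime ∧ Z₀ ≤ q ∧ q ≤ Z ∧ ¬ (q : ℤ) ∣ w) →
      ∀ (F : ℤ[X][X]) (C : ℕ), F ≠ 0 → F.natDegree ≤ A → (∀ l, (F.coeff l).natDegree ≤ B) →
      (∀ l k, |(F.derivative.coeff l).coeff k| ≤ C) →
      (Y * ((A + 1) * (B + 1) * C * Y ^ (d * B + A))) ^ (finrank ℚ K) ≤ W →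
      ∀ S : Finset K, (∀ c ∈ S, ∃ (z : K) (v : ℕ) (a : 𝓞 K) (u : ℕ → 𝓞 K), Pt d Y c z v a u ∧
        E2 c z F = 0 ∧ E2 c z F.derivative ≠ 0 ∧ ¬ Gd d ((d * d) ^ A) c z) →
      S.card ≤ M₃ * ((Z + 1) * Z ^ (2 * finrank ℚ K)) := by
  classical
  obtain ⟨A₂, B₂, C₂, hfam⟩ := fam_bd (fun x : Fin d₀ × Fin d₀ =>
    gm d (x.1 : ℕ) (bt K₂ (x.2 : ℕ)) (K₂ + 1))
  refine ⟨(A + B) * ((A + A₂) * (max B B₂) + 1), ?_⟩
  intro K _ _ h T hh hT hs Y hY Z₀ Z W hsz hpr F C hF0 hFA hFB hFC hW S hS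
  obtain ⟨f, hf⟩ := exists_qi K
  have hd1 : 1 ≤ d := by omega
  choose! z v a u hp hE hE' hGd using hS
  -- test elements
  set w : K → 𝓞 K := fun c => ((v c : ℕ) : 𝓞 K) *
    hm d (a c) ((v c : ℕ) : 𝓞 K) (u c 0) F.derivative A B with hw
  have hFA' : F.derivative.natDegree ≤ A := (natDegree_derivative_le F).trans (by omega)
  have hFB' : ∀ l, (F.derivative.coeff l).natDegree ≤ B := by
    intro l
    rw [coeff_derivative]
    have : ((l : ℤ[X]) + 1) = Polynomial.C ((l : ℤ) + 1) := by simp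
    rw [this]
    exact (natDegree_mul_C_le _ _).trans (hFB _)
  have hw0 : ∀ c ∈ S, w c ≠ 0 := by
    intro c hc h0
    have h1 : ((w c : 𝓞 K) : K) = 0 := by rw [h0]; rfl
    have h2 : ((w c : 𝓞 K) : K) = (v c : K) * ((v c : K) ^ (d * B + A) * E2 c (z c) F.derivative) := by
      show algebraMap (𝓞 K) K (w c) = _
      rw [hw]
      simp only
      rw [map_mul, map_natCast, hm_map, map_natCast]
      congr 1
      apply hm_eq _ _ hFA' hFB'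
      · exact (hp c hc).ha
      · have := (hp c hc).hu 0
        rwa [orb_zero] at this
    rw [h1] at h2
    have hv0 : (v c : K) ≠ 0 := Nat.cast_ne_zero.2 (hp c hc).v0
    exact (mul_ne_zero hv0 (mul_ne_zero (pow_ne_zero _ hv0) (hE' c hc))) h2.symm
  have hwW : ∀ c ∈ S, |Algebra.norm ℤ (w c)| ≤ (W : ℤ) := by
    intro c hc
    have h1 : |((Algebra.norm ℤ (w c) : ℤ) : ℝ)| ≤
        (Y * ((A + 1) * (B + 1) * C * Y ^ (d * B + A))) ^ (finrank ℚ K) := by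
      apply norm_le_of
      intro σ
      set φ : 𝓞 K →+* ℂ := σ.comp (algebraMap (𝓞 K) K) with hφ
      show ‖φ (w c)‖ ≤ _
      rw [hw]
      simp only
      rw [map_mul, norm_mul, map_natCast, hm_map, map_natCast]
      apply mul_le_mul
      · rw [Complex.norm_natCast]; exact (hp c hc).vY
      · exact hm_norm hY hd1 ((hp c hc).aY σ) (by rw [Complex.norm_natCast]; exact (hp c hc).vY)
          ((hp c hc).uY 0 σ) hFC
      · exact norm_nonneg _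
      · linarith
    have h2 := h1.trans hW
    exact_mod_cast h2
  have hq : ∀ c ∈ S, ∃ q : ℕ, q.Prime ∧ Z₀ ≤ q ∧ q ≤ Z ∧ ¬ (q : ℤ) ∣ Algebra.norm ℤ (w c) :=
    fun c hc => hpr _ (Algebra.norm_ne_zero_iff.2 (hw0 c hc)) (hwW c hc)
  choose! q hq1 hq2 hq3 hq4 using hq
  have hwq : ∀ c ∈ S, w c ∉ f (q c) := fun c hc h0 => hq4 c hc ((hf (q c) (hq1 c hc)).2.2.2.2 _ h0)
  have hvq : ∀ c ∈ S, ((v c : ℕ) : 𝓞 K) ∉ f (q c) := fun c hc h0 =>
    hwq c hc (Ideal.mul_mem_right _ _ h0)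
  have hmq : ∀ c ∈ S, hm d (a c) ((v c : ℕ) : 𝓞 K) (u c 0) F.derivative A B ∉ f (q c) :=
    fun c hc h0 => hwq c hc (Ideal.mul_mem_left _ _ h0)
  set m := 2 * finrank ℚ K * h with hm'
  have hm1 : 1 ≤ m := by
    have : 0 < finrank ℚ K := finrank_pos
    rw [hm']
    exact Nat.succ_le_of_lt (by positivity)
  have hred : ∀ c ∈ S, ∃ c' z' : 𝓞 K, a c - ((v c : ℕ) : 𝓞 K) ^ d * c' ∈ f (q c) ^ m ∧
      ∀ i, u c i - ((v c : ℕ) : 𝓞 K) * orb d c' z' i ∈ f (q c) ^ m :=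
    fun c hc => reduce hd1 (hf (q c) (hq1 c hc)).1 (hvq c hc) m ((hp c hc).rel hd1)
  choose! c' z' hc' hz' using hred
  apply classes hf S q c' z' (fun c hc => ⟨hq1 c hc, hq3 c hc⟩)
  intro c₁ hc₁ T' hT' hcl
  obtain ⟨hmax, hbot, hnq, -, -⟩ := hf (q c₁) (hq1 c₁ hc₁)
  -- the base point
  have h0 : E2 (c' c₁) (z' c₁) F ∈ f (q c₁) := by
    have := curve_zero hd1 hmax (hp c₁ hc₁) (hvq c₁ hc₁) (hc' c₁ hc₁) (hz' c₁ hc₁) hFA hFB (hE c₁ hc₁)
    exact Ideal.pow_le_self (by omega) this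
  have h1 : E2 (c' c₁) (z' c₁) F.derivative ∉ f (q c₁) := by
    intro h2
    have hz0 : u c₁ 0 - ((v c₁ : ℕ) : 𝓞 K) * z' c₁ ∈ f (q c₁) ^ m := by
      have := hz' c₁ hc₁ 0
      rwa [orb_zero] at this
    obtain ⟨k1, -⟩ := curve_mem hd1 hmax (hp c₁ hc₁) (hvq c₁ hc₁) (hc' c₁ hc₁) hz0 hFA' hFB'
    apply hmq c₁ hc₁
    have k2 := Ideal.pow_le_self (by omega : m ≠ 0) k1
    have k3 := (f (q c₁)).add_mem k2 ((f (q c₁)).mul_mem_left
      (((v c₁ : ℕ) : 𝓞 K) ^ (d * B + A)) h2)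
    rwa [sub_add_cancel] at k3
  have hcardι : Fintype.card (Fin d₀ × Fin d₀) = d₀ * d₀ := by
    rw [Fintype.card_prod, Fintype.card_fin]
  obtain ⟨e, he0, he⟩ := aux_curve (K := K) hd1 (ι := Fin d₀ × Fin d₀) (by
      rw [hcardι]; exact Nat.succ_le_of_lt (by positivity)) (fun x => (x.1 : ℕ))
    (fun x => bt K₂ (x.2 : ℕ)) (L := K₂ + 1) (T := T) (by
      intro x
      rw [sum_bt]
      have h2 := x.1.2
      have h3 := x.2.2
      have h4 : d * (x.1 : ℕ) ≤ d * d₀ := Nat.mul_le_mul_left _ (by omega)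
      omega) (h := h) (by rw [hcardι]; exact hs) hmax hbot hY (by
      rw [hcardι]
      refine lt_of_lt_of_le hsz ?_
      apply pow_le_pow_left₀ (Nat.cast_nonneg _)
      have : Z₀ ≤ Ideal.absNorm (f (q c₁)) := (hq2 c₁ hc₁).trans hnq
      exact_mod_cast this) (F := F) (c' c₁) (z' c₁) h0 h1
  set Q₂ : ℤ[X][X] := ∑ x, (e x : ℤ[X][X]) * gm d (x.1 : ℕ) (bt K₂ (x.2 : ℕ)) (K₂ + 1) with hQ₂
  obtain ⟨H, hH⟩ : ∃ H : ℕ, ∀ x, |e x| ≤ H := by
    refine ⟨∑ x, (e x).natAbs, fun x => ?_⟩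
    rw [← Int.natCast_natAbs]
    exact_mod_cast Finset.single_le_sum (f := fun x => (e x).natAbs) (fun _ _ => Nat.zero_le _)
      (Finset.mem_univ x)
  obtain ⟨g1, g2, -⟩ := hfam e H hH
  have hzc := zc (K := K) (Q := Q₂) (A := A) (A₂ := A₂) (B := max B B₂) g1
    (fun l => (g2 l).trans (le_max_right _ _)) (Gd d ((d * d) ^ A)) (by
      intro G hG hG1 hGA hGQ c z hz
      rw [hQ₂, rr_sum hd₀] at hGQ
      obtain ⟨i, j, hij, hj, hdvd⟩ := FF' hd hK₂ hK₂' hG hG1 hGA (rr e) (rr_natDegree hd₀ e)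
        (rr_ne he0) hGQ
      refine ⟨i, j, hij, hj, ?_⟩
      obtain ⟨H', hH'⟩ := hdvd
      have h2 := congrArg (E2 c z) hH'
      rw [map_mul, hz, zero_mul, map_sub, E2_it, E2_it] at h2
      exact sub_eq_zero.1 h2) F hF0 hFA
    ((swap_natDegree_le hFB).trans (le_max_left _ _))
  have hsub : (T' : Set K) ⊆ {c : K | ∃ z, E2 c z F = 0 ∧ E2 c z Q₂ = 0 ∧ ¬ Gd d ((d * d) ^ A) c z} := by
    intro c hc
    have hcS := hT' hc
    obtain ⟨k1, k2, k3⟩ := hcl c hc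
    refine ⟨z c, hE c hcS, ?_, hGd c hcS⟩
    have k4 := hc' c hcS
    have k5 := hz' c hcS
    have k6 := hvq c hcS
    rw [k1] at k4 k5 k6
    have k7 := he c (z c) (v c) (a c) (u c) (hp c hcS) k6 (hE c hcS) (c' c) (z' c) k4 k5 k2 k3
    rw [hQ₂, map_sum]
    rw [← k7]
    apply Finset.sum_congr rfl
    intro x _
    rw [map_mul, map_intCast]
  have h2 := Set.ncard_le_ncard hsub hzc.1
  rw [Set.ncard_coe_finset] at h2
  refine h2.trans (hzc.2.trans (Nat.mul_le_mul_right _ ?_))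
  exact Nat.add_le_add hFA (swap_natDegree_le hFB)

end Pool.Agent.Y673.PP
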