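import Mathlib

/-!
Divisors of `R(c, F(z))`, `F` monic in `z` of large degree, have constant leading coefficient
(helper673).
-/

set_option autoImplicit false

namespace Pool.Agent.Y673.PP

open Polynomial

theorem exists_irred_factor : ∀ a : ℤ[X], a ≠ 0 → 1 ≤ a.natDegree →
    ∃ π : ℤ[X], Irreducible π ∧ π ∣ a ∧ 1 ≤ π.natDegree := by
  intro a
  induction a using WfDvdMonoid.induction_on_irreducible with
  | zero => intro h; exact absurd rfl h
  | unit u hu =>
    intro _ h1
    have := natDegree_eq_zero_of_isUnit hu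
    omega
  | mul a i ha hi ih =>
    intro _ h1
    rw [natDegree_mul hi.ne_zero ha] at h1
    by_cases h2 : 1 ≤ i.natDegree
    · exact ⟨i, hi, dvd_mul_right i a, h2⟩
    · obtain ⟨π, h3, h4, h5⟩ := ih ha (by omega)
      exact ⟨π, h3, h4.mul_left i, h5⟩

theorem lc_const {g : ℕ} {G : ℤ[X][X]} (hG : Irreducible G) (hg1 : 1 ≤ G.natDegree)
    (hg : G.natDegree ≤ g) {d₀ : ℕ} (r : ℕ → ℤ[X]) (hr : ∀ b, (r b).natDegree < d₀) {δ : ℕ}
    (hrδ : r δ ≠ 0) {F : ℤ[X][X]} (hF : F.Monic) (hFd : g * d₀ < F.natDegree)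
    (h : G ∣ ∑ b ∈ Finset.range (δ + 1), C (r b) * F ^ b) : G.leadingCoeff.natDegree = 0 := by
  classical
  by_contra hlc
  have hG0 : G ≠ 0 := hG.ne_zero
  have hlc0 : G.leadingCoeff ≠ 0 := leadingCoeff_ne_zero.2 hG0
  obtain ⟨π, hπ, hπlc, hπd⟩ := exists_irred_factor G.leadingCoeff hlc0 (by omega)
  have hπp : Prime π := hπ.prime
  -- a coefficient which is not divisible by `π`
  have hex : ∃ l, ¬ π ∣ G.coeff l := by
    by_contra hall
    push Not at hall
    have h1 : C π ∣ G := (C_dvd_iff_dvd_coeff π G).2 hall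
    have h2 := hG.isPrimitive (by omega) π h1
    exact hπ.not_isUnit h2
  obtain ⟨l₁, hl₁⟩ := hex
  have hl₁g : l₁ ≤ G.natDegree := by
    by_contra hlt
    apply hl₁
    rw [coeff_eq_zero_of_natDegree_lt (not_le.1 hlt)]
    exact dvd_zero π
  set l := Nat.findGreatest (fun l => ¬ π ∣ G.coeff l) G.natDegree with hl
  have hlπ : ¬ π ∣ G.coeff l := Nat.findGreatest_spec (P := fun l => ¬ π ∣ G.coeff l) hl₁g hl₁
  have hlmax : ∀ x, l < x → π ∣ G.coeff x := by
    intro x hx
    by_cases hxg : x ≤ G.natDegree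
    · have := Nat.findGreatest_is_greatest (P := fun l => ¬ π ∣ G.coeff l) hx hxg
      exact not_not.1 this
    · rw [coeff_eq_zero_of_natDegree_lt (not_le.1 hxg)]
      exact dvd_zero π
  -- the multiplicity of `π` in `r δ`
  obtain ⟨ρ, a, ha, hra⟩ := WfDvdMonoid.max_power_factor hrδ hπ
  have ha0 : a ≠ 0 := by rintro rfl; exact ha (dvd_zero π)
  have hρ : ρ < d₀ := by
    have h1 := hr δ
    rw [hra, natDegree_mul (pow_ne_zero _ hπ.ne_zero) ha0, natDegree_pow] at h1
    have : ρ ≤ ρ * π.natDegree := Nat.le_mul_of_pos_right _ hπd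
    omega
  -- the quotient
  set Q := ∑ b ∈ Finset.range (δ + 1), C (r b) * F ^ b with hQ
  set D := F.natDegree with hD
  have hlow : (∑ b ∈ Finset.range δ, C (r b) * F ^ b).natDegree ≤ (δ - 1) * D := by
    refine (natDegree_sum_le _ _).trans ?_
    rw [Finset.fold_max_le]
    refine ⟨Nat.zero_le _, fun b hb => ?_⟩
    have := Finset.mem_range.1 hb
    refine (natDegree_C_mul_le _ _).trans ?_
    rw [hF.natDegree_pow]
    exact Nat.mul_le_mul_right _ (by omega)
  have hQd : Q.natDegree ≤ δ * D := by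
    rw [hQ, Finset.sum_range_succ]
    refine (natDegree_add_le _ _).trans (max_le (hlow.trans (Nat.mul_le_mul_right _ (by omega))) ?_)
    refine (natDegree_C_mul_le _ _).trans ?_
    rw [hF.natDegree_pow]
  have hcoef : ∀ n, (δ = 0 ∨ (δ - 1) * D < n) → Q.coeff n = r δ * (F ^ δ).coeff n := by
    intro n hn
    rw [hQ, Finset.sum_range_succ, coeff_add, coeff_C_mul]
    have : (∑ b ∈ Finset.range δ, C (r b) * F ^ b).coeff n = 0 := by
      rcases hn with h0 | hn
      · rw [h0]; simp
      · exact coeff_eq_zero_of_natDegree_lt (lt_of_le_of_lt hlow hn)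
    rw [this, zero_add]
  have hDpos : 0 < D := by omega
  have htop : Q.coeff (δ * D) = r δ := by
    rw [hcoef]
    · have h1 : (F ^ δ).coeff (δ * D) = 1 := by
        have := (hF.pow δ).coeff_natDegree
        rwa [hF.natDegree_pow] at this
      rw [h1, mul_one]
    · rcases Nat.eq_zero_or_pos δ with h0 | h0
      · exact Or.inl h0
      · right
        exact Nat.mul_lt_mul_of_pos_right (by omega) hDpos
  have hQ0 : Q ≠ 0 := by
    intro h0
    rw [h0, coeff_zero] at htop
    exact hrδ htop.symm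
  have hQd' : Q.natDegree = δ * D := by
    apply le_antisymm hQd
    apply le_natDegree_of_ne_zero
    rw [htop]; exact hrδ
  obtain ⟨H, hH⟩ := h
  have hH0 : H ≠ 0 := by
    rintro rfl
    rw [mul_zero] at hH
    exact hQ0 hH
  have hdeg : G.natDegree + H.natDegree = δ * D := by
    rw [← hQd', hH, natDegree_mul hG0 hH0]
  have hδ : 1 ≤ δ := by
    by_contra h0
    have : δ = 0 := by omega
    rw [this, zero_mul] at hdeg
    omega
  set g₀ := G.natDegree with hg₀
  set h₀ := H.natDegree with hh₀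
  have hlg : l < g₀ := by
    have h1 : l ≤ g₀ := Nat.findGreatest_le _
    rcases Nat.lt_or_ge l g₀ with h2 | h2
    · exact h2
    · exfalso
      have h3 : l = g₀ := le_antisymm h1 h2
      apply hlπ
      rw [h3]
      exact hπlc
  have hgD : g₀ * d₀ < D := lt_of_le_of_lt (Nat.mul_le_mul_right _ hg) hFd
  have hδD : (δ - 1) * D + D = δ * D := by
    have : δ - 1 + 1 = δ := by omega
    calc (δ - 1) * D + D = (δ - 1 + 1) * D := by ring
      _ = _ := by rw [this]
  have key : ∀ t, t ≤ ρ → ∀ j, h₀ ≤ j + g₀ * (ρ - t) → π ^ t ∣ H.coeff j := by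
    intro t
    induction t with
    | zero => intro _ j _; rw [pow_zero]; exact one_dvd _
    | succ t ih =>
      intro htρ
      by_contra hcon
      push Not at hcon
      obtain ⟨j₁, hj₁, hj₁'⟩ := hcon
      have hj₁h : j₁ ≤ h₀ := by
        by_contra hlt
        apply hj₁'
        rw [coeff_eq_zero_of_natDegree_lt (not_le.1 hlt)]
        exact dvd_zero _
      set j := Nat.findGreatest (fun j => ¬ π ^ (t + 1) ∣ H.coeff j) h₀ with hj
      have hjπ : ¬ π ^ (t + 1) ∣ H.coeff j :=
        Nat.findGreatest_spec (P := fun j => ¬ π ^ (t + 1) ∣ H.coeff j) hj₁h hj₁'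
      have hj₁j : j₁ ≤ j :=
        Nat.le_findGreatest (P := fun j => ¬ π ^ (t + 1) ∣ H.coeff j) hj₁h hj₁'
      have hjmax : ∀ x, j < x → π ^ (t + 1) ∣ H.coeff x := by
        intro x hx
        by_cases hxg : x ≤ h₀
        · have := Nat.findGreatest_is_greatest (P := fun j => ¬ π ^ (t + 1) ∣ H.coeff j) hx hxg
          exact not_not.1 this
        · rw [coeff_eq_zero_of_natDegree_lt (not_le.1 hxg)]
          exact dvd_zero _
      have e1 : g₀ * (ρ - t) = g₀ * (ρ - (t + 1)) + g₀ := by
        have : ρ - t = (ρ - (t + 1)) + 1 := by omega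
        rw [this]; ring
      have e2 : g₀ * (ρ - t) ≤ g₀ * d₀ := Nat.mul_le_mul_left _ (by omega)
      have hn : (δ - 1) * D < l + j := by omega
      have h1 : π ^ (t + 1) ∣ Q.coeff (l + j) := by
        rw [hcoef _ (Or.inr hn), hra]
        exact ((pow_dvd_pow π htρ).mul_right a).mul_right _
      rw [hH, coeff_mul, ← Finset.add_sum_erase _ _ (a := (l, j))
        (Finset.HasAntidiagonal.mem_antidiagonal.2 rfl)] at h1
      have h2 : π ^ (t + 1) ∣ ∑ x ∈ (Finset.HasAntidiagonal.antidiagonal (l + j)).erase (l, j),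
          G.coeff x.1 * H.coeff x.2 := by
        apply Finset.dvd_sum
        rintro ⟨x, y⟩ hxy
        rw [Finset.mem_erase, Finset.HasAntidiagonal.mem_antidiagonal] at hxy
        obtain ⟨hne, hxy⟩ := hxy
        simp only at hxy ⊢
        rcases lt_trichotomy x l with hx | hx | hx
        · exact (hjmax y (by omega)).mul_left _
        · exfalso
          apply hne
          rw [Prod.mk.injEq]
          exact ⟨hx, by omega⟩
        · by_cases hxg : x ≤ g₀
          · rw [pow_succ']
            exact mul_dvd_mul (hlmax x hx) (ih (by omega) y (by omega))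
          · rw [coeff_eq_zero_of_natDegree_lt (not_le.1 hxg), zero_mul]
            exact dvd_zero _
      have h3 : π ^ (t + 1) ∣ G.coeff l * H.coeff j := (dvd_add_left h2).1 h1
      exact hjπ (hπp.pow_dvd_of_dvd_mul_left (t + 1) hlπ h3)
  have h1 := key ρ (le_refl _) h₀ (by omega)
  have h2 : π ^ (ρ + 1) ∣ r δ := by
    rw [← htop, ← hQd', hH, ← leadingCoeff, leadingCoeff_mul, pow_succ']
    exact mul_dvd_mul hπlc h1
  rw [hra, pow_succ] at h2
  exact ha ((mul_dvd_mul_iff_left (pow_ne_zero ρ hπ.ne_zero)).1 h2)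

end Pool.Agent.Y673.PP
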