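import Pool.Agent.Y673.PP.It
import Pool.Agent.Y673.PP.Lc

/-!
Escaping points and itineraries for large parameters (helper673).
-/

set_option autoImplicit false

namespace Pool.Agent.Y673.PP

open Polynomial

/-- growth of escaping points -/
theorem growth {d : ℕ} (hd : 2 ≤ d) {n : ℕ} (hn : 1 ≤ n) {w : ℂ} (hw : 3 * (n : ℝ) < ‖w‖ ^ d) (k : ℕ) :
    2 * (n : ℝ) ^ (2 ^ k) ≤ ‖orb d (n : ℂ) w (k + 1)‖ := by
  have hn1 : (1 : ℝ) ≤ n := by exact_mod_cast hn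
  induction k with
  | zero =>
    rw [orb_succ, orb_zero, pow_zero, pow_one]
    have h1 : ‖w ^ d‖ - ‖(n : ℂ)‖ ≤ ‖w ^ d + n‖ := by
      have := norm_sub_le (w ^ d + n) (n : ℂ)
      rw [add_sub_cancel_right] at this
      linarith
    rw [norm_pow, Complex.norm_natCast] at h1
    linarith
  | succ k ih =>
    rw [orb_succ]
    set u := orb d (n : ℂ) w (k + 1) with hu
    have h1 : ‖u ^ d‖ - ‖(n : ℂ)‖ ≤ ‖u ^ d + n‖ := by
      have := norm_sub_le (u ^ d + n) (n : ℂ)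
      rw [add_sub_cancel_right] at this
      linarith
    rw [norm_pow, Complex.norm_natCast] at h1
    have hp : (1 : ℝ) ≤ (n : ℝ) ^ (2 ^ k) := one_le_pow₀ hn1
    have hu1 : 1 ≤ ‖u‖ := by linarith
    have h2 : ‖u‖ ^ 2 ≤ ‖u‖ ^ d := pow_le_pow_right₀ hu1 hd
    have h3 : (2 * (n : ℝ) ^ (2 ^ k)) ^ 2 ≤ ‖u‖ ^ 2 := pow_le_pow_left₀ (by positivity) ih 2
    have h4 : (n : ℝ) ^ (2 ^ (k + 1)) = ((n : ℝ) ^ (2 ^ k)) ^ 2 := by rw [pow_succ 2 k, pow_mul]
    have h5 : (n : ℝ) ≤ (n : ℝ) ^ (2 ^ (k + 1)) := le_self_pow₀ hn1 (by positivity)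
    rw [h4] at h5 ⊢
    nlinarith

/-- roots of a polynomial with a small leading coefficient only -/
theorem top_bound {δ : ℕ} (hδ : 1 ≤ δ) (r : ℕ → ℂ) {Z : ℂ} (hZ : 1 ≤ ‖Z‖)
    (h : ∑ b ∈ Finset.range (δ + 1), r b * Z ^ b = 0) :
    ‖r δ‖ * ‖Z‖ ≤ ∑ b ∈ Finset.range δ, ‖r b‖ := by
  rw [Finset.sum_range_succ] at h
  have h1 : r δ * Z ^ δ = -∑ b ∈ Finset.range δ, r b * Z ^ b := by linear_combination h
  have h2 : ‖r δ‖ * ‖Z‖ ^ δ ≤ (∑ b ∈ Finset.range δ, ‖r b‖) * ‖Z‖ ^ (δ - 1) := by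
    rw [← norm_pow, ← norm_mul, h1, norm_neg, Finset.sum_mul]
    refine (norm_sum_le _ _).trans (Finset.sum_le_sum fun b hb => ?_)
    rw [norm_mul, norm_pow]
    apply mul_le_mul_of_nonneg_left _ (norm_nonneg _)
    exact pow_le_pow_right₀ hZ (by have := Finset.mem_range.1 hb; omega)
  have h3 : ‖Z‖ ^ δ = ‖Z‖ * ‖Z‖ ^ (δ - 1) := by
    rw [← pow_succ']
    congr 1
    omega
  rw [h3, ← mul_assoc] at h2
  exact le_of_mul_le_mul_right h2 (by positivity)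

/-- a root of `X ^ d + n` close to a point with a small image -/
theorem exists_label {d : ℕ} (hd : 1 ≤ d) (n w : ℂ) :
    ∃ ω : ℂ, ω ^ d = -n ∧ ‖w - ω‖ ^ d ≤ ‖w ^ d + n‖ := by
  classical
  by_contra hcon
  push Not at hcon
  set P : ℂ[X] := X ^ d - C (-n) with hP
  have hPm : P.Monic := monic_X_pow_sub_C _ (by omega)
  have hPd : P.natDegree = d := natDegree_X_pow_sub_C
  have h1 : P.eval w = (P.roots.map fun a => w - a).prod := by
    conv_lhs => rw [(IsAlgClosed.splits P).eq_prod_roots_of_monic hPm]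
    rw [eval_multiset_prod, Multiset.map_map]
    simp
  have h2 : P.eval w = w ^ d + n := by rw [hP]; simp
  have h3 : ∀ ω ∈ P.roots, ‖w ^ d + n‖ < ‖w - ω‖ ^ d := by
    intro ω hω
    apply hcon
    have := (mem_roots hPm.ne_zero).1 hω
    rw [IsRoot.def, hP] at this
    simp at this
    linear_combination this
  have hcard : P.roots.card = d := by
    rw [← hPd]; exact splits_iff_card_roots.1 (IsAlgClosed.splits P)
  set x : ℝ := ‖w ^ d + n‖ with hx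
  have hx0 : 0 ≤ x := norm_nonneg _
  have key : ∀ s : Multiset ℂ, (∀ ω ∈ s, x < ‖w - ω‖ ^ d) → s ≠ 0 →
      x ^ s.card < ‖(s.map fun a => w - a).prod‖ ^ d := by
    intro s
    induction s using Multiset.induction_on with
    | empty => intro _ h; exact absurd rfl h
    | cons a s ih =>
      intro hs _
      rw [Multiset.map_cons, Multiset.prod_cons, norm_mul, mul_pow, Multiset.card_cons, pow_succ']
      have ha := hs a (Multiset.mem_cons_self a s)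
      by_cases hs0 : s = 0
      · rw [hs0]; simpa using ha
      · have h4 := ih (fun ω hω => hs ω (Multiset.mem_cons_of_mem hω)) hs0
        have h5 : 0 ≤ x ^ s.card := pow_nonneg hx0 _
        have h6 : 0 < ‖w - a‖ ^ d := lt_of_le_of_lt hx0 ha
        nlinarith
  have h4 := key P.roots h3 (by
    intro h0
    rw [h0, Multiset.card_zero] at hcard
    omega)
  rw [hcard, ← h1, h2, ← hx] at h4
  exact lt_irrefl _ h4

/-- contraction for points with the same label -/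
theorem contr {d : ℕ} (hd : 2 ≤ d) : ∃ n₂ : ℕ, ∀ n : ℕ, n₂ ≤ n → ∀ w w' ω : ℂ, ω ^ d = -(n : ℂ) →
    ‖w - ω‖ ^ d ≤ ‖w ^ d + n‖ → ‖w' - ω‖ ^ d ≤ ‖w' ^ d + n‖ →
    ‖w ^ d + n‖ ^ d ≤ 3 * n → ‖w' ^ d + n‖ ^ d ≤ 3 * n →
    ‖w - w'‖ * ‖ω‖ ≤ ‖(w ^ d + n) - (w' ^ d + n)‖ := by
  -- the function of `(τ, τ')`
  set Ψ : ℂ × ℂ → ℂ := fun x => ∑ k ∈ Finset.range d, (1 + x.1) ^ k * (1 + x.2) ^ (d - 1 - k) with hΨ
  have hcont : Continuous Ψ := by
    rw [hΨ]
    fun_prop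
  have hΨ0 : Ψ (0, 0) = d := by rw [hΨ]; simp
  have hev : ∀ᶠ x in nhds ((0 : ℂ), (0 : ℂ)), 1 < ‖Ψ x‖ := by
    have h1 : Filter.Tendsto (fun x => ‖Ψ x‖) (nhds (0, 0)) (nhds ‖Ψ (0, 0)‖) :=
      (hcont.norm).continuousAt
    rw [hΨ0, Complex.norm_natCast] at h1
    exact h1.eventually (lt_mem_nhds (by
      have : 1 < d := hd
      exact_mod_cast this))
  obtain ⟨η, hη, hball⟩ := Metric.eventually_nhds_iff.1 hev
  set η' : ℝ := η / 2 with hη'
  have hη'0 : 0 < η' := by positivity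
  obtain ⟨n₂, hn₂⟩ := exists_nat_gt (3 / η' ^ (d * d))
  refine ⟨n₂ + 1, fun n hn w w' ω hω hw hw' hfw hfw' => ?_⟩
  have hn1 : (1 : ℝ) ≤ n := by
    have : 1 ≤ n := by omega
    exact_mod_cast this
  have hωn : ‖ω‖ ^ d = n := by
    rw [← norm_pow, hω, norm_neg, Complex.norm_natCast]
  have hω1 : 1 ≤ ‖ω‖ := by
    by_contra hlt
    have := pow_lt_one₀ (norm_nonneg ω) (not_le.1 hlt) (by omega : d ≠ 0)
    linarith
  have hω0 : ω ≠ 0 := by
    rintro rfl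
    rw [norm_zero] at hω1
    linarith
  have hωpos : 0 < ‖ω‖ := by linarith
  have hclose : ∀ y : ℂ, ‖y - ω‖ ^ d ≤ ‖y ^ d + n‖ → ‖y ^ d + n‖ ^ d ≤ 3 * n →
      ‖(y - ω) / ω‖ ≤ η' := by
    intro y h1 h2
    have h3 : ‖y - ω‖ ^ (d * d) ≤ (η' * ‖ω‖) ^ (d * d) := by
      rw [pow_mul]
      calc (‖y - ω‖ ^ d) ^ d ≤ ‖y ^ d + n‖ ^ d := pow_le_pow_left₀ (by positivity) h1 d
        _ ≤ 3 * n := h2
        _ ≤ η' ^ (d * d) * (n : ℝ) ^ d := by
            have h4 : 3 / η' ^ (d * d) ≤ n := by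
              have : (n₂ : ℝ) ≤ n := by exact_mod_cast (by omega : n₂ ≤ n)
              linarith
            rw [div_le_iff₀ (by positivity)] at h4
            have h5 : (n : ℝ) ^ 2 ≤ (n : ℝ) ^ d := pow_le_pow_right₀ hn1 hd
            have h6 : 0 < η' ^ (d * d) := by positivity
            nlinarith
        _ = (η' * ‖ω‖) ^ (d * d) := by rw [mul_pow, pow_mul ‖ω‖ d d, hωn]
    have h4 := le_of_pow_le_pow_left₀ (by positivity) (by positivity) h3
    rw [norm_div, div_le_iff₀ hωpos]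
    exact h4
  have h1 := hclose w hw hfw
  have h2 := hclose w' hw' hfw'
  have h3 : dist ((w - ω) / ω, (w' - ω) / ω) ((0 : ℂ), (0 : ℂ)) < η := by
    rw [Prod.dist_eq, dist_zero_right, dist_zero_right]
    have : η' < η := by rw [hη']; linarith
    exact max_lt (lt_of_le_of_lt h1 this) (lt_of_le_of_lt h2 this)
  have h4 := hball h3
  have e1 : w = ω * (1 + (w - ω) / ω) := by field_simp; ring
  have e2 : w' = ω * (1 + (w' - ω) / ω) := by field_simp; ring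
  have h5 : w ^ d - w' ^ d = (w - w') * (ω ^ (d - 1) * Ψ ((w - ω) / ω, (w' - ω) / ω)) := by
    rw [← (Commute.all w w').geom_sum₂_mul d, mul_comm]
    congr 1
    rw [hΨ, Finset.mul_sum]
    apply Finset.sum_congr rfl
    intro k hk
    have hk' := Finset.mem_range.1 hk
    have e3 : ω ^ (d - 1) = ω ^ k * ω ^ (d - 1 - k) := by rw [← pow_add]; congr 1; omega
    rw [e3]
    conv_lhs => rw [e1, e2]
    rw [mul_pow, mul_pow]
    ring
  have h6 : (w ^ d + n) - (w' ^ d + n) = w ^ d - w' ^ d := by ring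
  rw [h6, h5, norm_mul, norm_mul, norm_pow]
  apply mul_le_mul_of_nonneg_left _ (norm_nonneg _)
  have h7 : ‖ω‖ ≤ ‖ω‖ ^ (d - 1) := le_self_pow₀ hω1 (by omega)
  have h8 : 0 ≤ ‖ω‖ ^ (d - 1) := by positivity
  nlinarith

end Pool.Agent.Y673.PP
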