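import Pool.Agent.Y673.PP.Esc

/-!
A curve on which a late iterate satisfies an equation of small degree consists of preperiodic points
(helper673).
-/

set_option autoImplicit false

namespace Pool.Agent.Y673.PP

open Polynomial

theorem res_ne {G Q : ℤ[X][X]} (hG : Irreducible G) (hg : 1 ≤ G.natDegree) (h : ¬ G ∣ Q) :
    resultant G Q G.natDegree Q.natDegree ≠ 0 := by
  intro h0
  have hQ0 : Q ≠ 0 := by rintro rfl; exact h (dvd_zero G)
  haveI : Nonempty (GCDMonoid ℤ[X]) := ⟨UniqueFactorizationMonoid.toGCDMonoid ℤ[X]⟩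
  set K := FractionRing ℤ[X] with hK
  have hinj : Function.Injective (algebraMap ℤ[X] K) := IsFractionRing.injective ℤ[X] K
  have h1 := resultant_map_map G Q G.natDegree Q.natDegree (algebraMap ℤ[X] K)
  rw [h0, map_zero] at h1
  have e1 : (G.map (algebraMap ℤ[X] K)).natDegree = G.natDegree := natDegree_map_eq_of_injective hinj G
  have e2 : (Q.map (algebraMap ℤ[X] K)).natDegree = Q.natDegree := natDegree_map_eq_of_injective hinj Q
  have hGp : G.IsPrimitive := hG.isPrimitive (by omega)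
  have hirr : Irreducible (G.map (algebraMap ℤ[X] K)) :=
    (hGp.irreducible_iff_irreducible_map_fraction_map).1 hG
  have hcop : IsCoprime (G.map (algebraMap ℤ[X] K)) (Q.map (algebraMap ℤ[X] K)) := by
    rw [hirr.coprime_iff_not_dvd]
    intro hdvd
    apply h
    exact hGp.dvd_of_fraction_map_dvd_fraction_map hdvd
  have h2 := resultant_ne_zero _ _ hcop
  rw [e1, e2] at h2
  exact h2 h1

theorem res_zero {G Q : ℤ[X][X]} (hg : 1 ≤ G.natDegree) {S : Type} [CommRing S] (c z : S)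
    (h1 : E2 c z G = 0) (h2 : E2 c z Q = 0) :
    (resultant G Q G.natDegree Q.natDegree).eval₂ (Int.castRingHom S) c = 0 := by
  obtain ⟨p, r, -, -, hpr⟩ := exists_mul_add_mul_eq_C_resultant G Q le_rfl le_rfl
    (Or.inl (by omega))
  have h3 := congrArg (E2 c z) hpr
  rw [map_add, map_mul, map_mul, h1, h2, zero_mul, zero_mul, add_zero, E2_C] at h3
  exact h3.symm

theorem eval₂_nat (p : ℤ[X]) (n : ℕ) :
    p.eval₂ (Int.castRingHom ℂ) (n : ℂ) = ((p.eval (n : ℤ) : ℤ) : ℂ) := by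
  rw [eval₂_at_natCast, eq_intCast]

theorem prod_norm_le' {R : ℝ} (f : ℂ → ℂ) (s : Multiset ℂ) (h : ∀ z ∈ s, ‖f z‖ ≤ R) :
    ‖(s.map f).prod‖ ≤ R ^ s.card := by
  induction s using Multiset.induction with
  | empty => simp
  | cons a s ih =>
    rw [Multiset.map_cons, Multiset.prod_cons, norm_mul, Multiset.card_cons, pow_succ']
    have h1 := h a (Multiset.mem_cons_self a s)
    have h2 := ih fun z hz => h z (Multiset.mem_cons_of_mem hz)
    exact mul_le_mul h1 h2 (norm_nonneg _) ((norm_nonneg _).trans h1)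

theorem eventually_ne (p : ℤ[X]) (hp : p ≠ 0) : ∀ᶠ n : ℕ in Filter.atTop, p.eval (n : ℤ) ≠ 0 := by
  have hP0 : p.map (Int.castRingHom ℝ) ≠ 0 := (Polynomial.map_ne_zero_iff Int.cast_injective).2 hp
  refine ((Polynomial.eventually_no_roots _ hP0).natCast_atTop).mono fun n hn h => hn ?_
  rw [IsRoot.def, eval_map, eval₂_at_natCast, h, map_zero]

/-- two points of an orbit with the same two labels are close -/
theorem close_two {d : ℕ} (hd : 2 ≤ d) {n : ℕ} (hn1 : 1 ≤ n)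
    (hcontr : ∀ w w' ω : ℂ, ω ^ d = -(n : ℂ) →
      ‖w - ω‖ ^ d ≤ ‖w ^ d + n‖ → ‖w' - ω‖ ^ d ≤ ‖w' ^ d + n‖ →
      ‖w ^ d + n‖ ^ d ≤ 3 * n → ‖w' ^ d + n‖ ^ d ≤ 3 * n →
      ‖w - w'‖ * ‖ω‖ ≤ ‖(w ^ d + n) - (w' ^ d + n)‖)
    {T : ℝ} (hT1 : 1 ≤ T) (hT : (6 * T) ^ d ≤ n) {w w' ω ω' : ℂ} (hω : ω ^ d = -(n : ℂ))
    (hω' : ω' ^ d = -(n : ℂ)) (h1 : ‖w - ω‖ ^ d ≤ ‖w ^ d + n‖) (h1' : ‖w' - ω‖ ^ d ≤ ‖w' ^ d + n‖)
    (h2 : ‖(w ^ d + n) - ω'‖ ^ d ≤ ‖(w ^ d + n) ^ d + n‖)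
    (h2' : ‖(w' ^ d + n) - ω'‖ ^ d ≤ ‖(w' ^ d + n) ^ d + n‖)
    (h3 : ‖w ^ d + n‖ ^ d ≤ 3 * n) (h3' : ‖w' ^ d + n‖ ^ d ≤ 3 * n)
    (h4 : ‖(w ^ d + n) ^ d + n‖ ^ d ≤ 3 * n) (h4' : ‖(w' ^ d + n) ^ d + n‖ ^ d ≤ 3 * n) :
    ‖w - w'‖ ≤ 1 / T := by
  have hd0 : d ≠ 0 := by omega
  have hnorm : ∀ x : ℂ, x ^ d = -(n : ℂ) → ‖x‖ ^ d = n := by
    intro x hx
    rw [← norm_pow, hx, norm_neg, Complex.norm_natCast]
  have hωn := hnorm ω hω
  have hωn' := hnorm ω' hω'
  have heq : ‖ω‖ = ‖ω'‖ :=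
    (pow_left_inj₀ (norm_nonneg _) (norm_nonneg _) hd0).1 (hωn.trans hωn'.symm)
  have hω6 : 6 * T ≤ ‖ω‖ := by
    apply le_of_pow_le_pow_left₀ hd0 (norm_nonneg _)
    rw [hωn]; exact hT
  have hωpos : 0 < ‖ω‖ := by linarith
  have k1 := hcontr w w' ω hω h1 h1' h3 h3'
  have k2 := hcontr (w ^ d + n) (w' ^ d + n) ω' hω' h2 h2' h4 h4'
  rw [← heq] at k2
  have hn1' : (1 : ℝ) ≤ n := by exact_mod_cast hn1
  have k3 : ∀ x : ℂ, ‖x‖ ^ d ≤ 3 * n → ‖x‖ ≤ 3 * ‖ω‖ := by
    intro x hx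
    apply le_of_pow_le_pow_left₀ hd0 (by positivity)
    rw [mul_pow, hωn]
    refine hx.trans ?_
    have : (3 : ℝ) ≤ 3 ^ d := le_self_pow₀ (by norm_num) hd0
    nlinarith
  have k4 : ‖((w ^ d + n) ^ d + n) - ((w' ^ d + n) ^ d + n)‖ ≤ 6 * ‖ω‖ := by
    refine (norm_sub_le _ _).trans ?_
    have := k3 _ h4
    have := k3 _ h4'
    linarith
  have k5 : ‖(w ^ d + (n : ℂ)) - (w' ^ d + n)‖ ≤ 6 := by
    have := k2.trans k4
    exact le_of_mul_le_mul_right this hωpos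
  have k6 : ‖w - w'‖ * (6 * T) ≤ 6 := by
    have := k1.trans k5
    have h0 := norm_nonneg (w - w')
    nlinarith
  rw [le_div_iff₀ (by linarith)]
  linarith

set_option maxHeartbeats 1000000 in
theorem FF {d : ℕ} (hd : 2 ≤ d) {g d₀ K : ℕ} (hK : (d * d) ^ g + 3 + d₀ ≤ K) (hK' : g * d₀ < d ^ K)
    {G : ℤ[X][X]} (hG : Irreducible G) (hg1 : 1 ≤ G.natDegree) (hg : G.natDegree ≤ g)
    (r : ℕ → ℤ[X]) (hr : ∀ b, (r b).natDegree < d₀) {δ : ℕ} (hrδ : r δ ≠ 0)
    (h : G ∣ ∑ b ∈ Finset.range (δ + 1), C (r b) * (it d K) ^ b) :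
    ∃ i j, i < j ∧ j ≤ (d * d) ^ g ∧ G ∣ it d i - it d j := by
  classical
  set N₀ := (d * d) ^ g with hN₀
  have hd1 : 1 ≤ d := by omega
  obtain ⟨hFm, hFd⟩ := it_natDegree hd1 K
  have hlc := lc_const hG hg1 hg r hr hrδ hFm (by rw [hFd]; exact hK') h
  obtain ⟨γ, hγ⟩ := natDegree_eq_zero.1 hlc
  have hγ0 : γ ≠ 0 := by
    rintro rfl
    rw [C_0] at hγ
    exact (leadingCoeff_ne_zero.2 hG.ne_zero) hγ.symm
  have hδ : 1 ≤ δ := by
    by_contra h0
    have hδ0 : δ = 0 := by omega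
    subst hδ0
    rw [zero_add, Finset.sum_range_one, pow_zero, mul_one] at h
    have := natDegree_le_of_dvd h (C_ne_zero.2 hrδ)
    rw [natDegree_C] at this
    omega
  by_contra hcon
  push Not at hcon
  set R : ℕ → ℕ → ℤ[X] := fun i j =>
    resultant G (it d i - it d j) G.natDegree (it d i - it d j).natDegree with hR
  have hR0 : ∀ i j, i < j → j ≤ N₀ → R i j ≠ 0 := fun i j hij hj => res_ne hG hg1 (hcon i j hij hj)
  -- constants
  set M' : ℕ := ∑ i ∈ Finset.range (N₀ + 1), ∑ j ∈ Finset.range (N₀ + 1),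
    (it d i - it d j).natDegree with hM'
  set Γ : ℝ := (max 1 |(γ : ℝ)|) ^ M' with hΓ
  have hΓ1 : 1 ≤ Γ := one_le_pow₀ (le_max_left _ _)
  set C₁ : ℝ := ∑ b ∈ Finset.range δ, ∑ k ∈ Finset.range d₀, |(((r b).coeff k : ℤ) : ℝ)| with hC₁
  obtain ⟨n₂, hn₂⟩ := contr hd
  set Rall : ℤ[X] := ∏ i ∈ Finset.range (N₀ + 1), ∏ j ∈ Finset.range (N₀ + 1),
    (if i < j then R i j else 1) with hRall
  have hRall0 : Rall ≠ 0 := by
    rw [hRall, Finset.prod_ne_zero_iff]
    intro i _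
    rw [Finset.prod_ne_zero_iff]
    intro j hj
    split_ifs with hij
    · exact hR0 i j hij (by have := Finset.mem_range.1 hj; omega)
    · exact one_ne_zero
  obtain ⟨n, hn1, hnn₂, hnC, hnr, hnR, hnT⟩ : ∃ n : ℕ, 1 ≤ n ∧ n₂ ≤ n ∧ C₁ < n ∧
      (r δ).eval (n : ℤ) ≠ 0 ∧ Rall.eval (n : ℤ) ≠ 0 ∧ (6 * (Γ + 1)) ^ d ≤ (n : ℝ) := by
    have e3 : ∀ᶠ n : ℕ in Filter.atTop, C₁ < n := by
      obtain ⟨m, hm⟩ := exists_nat_gt C₁
      filter_upwards [Filter.eventually_ge_atTop m] with n hn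
      have : (m : ℝ) ≤ n := by exact_mod_cast hn
      linarith
    have e6 : ∀ᶠ n : ℕ in Filter.atTop, (6 * (Γ + 1)) ^ d ≤ (n : ℝ) := by
      obtain ⟨m, hm⟩ := exists_nat_gt ((6 * (Γ + 1)) ^ d)
      filter_upwards [Filter.eventually_ge_atTop m] with n hn
      have : (m : ℝ) ≤ n := by exact_mod_cast hn
      linarith
    exact ((Filter.eventually_ge_atTop 1).and ((Filter.eventually_ge_atTop n₂).and (e3.and
      ((eventually_ne _ hrδ).and ((eventually_ne _ hRall0).and e6))))).exists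
  have hn1' : (1 : ℝ) ≤ n := by exact_mod_cast hn1
  -- the specialisation
  set φ : ℤ[X] →+* ℂ := eval₂RingHom (Int.castRingHom ℂ) (n : ℂ) with hφ
  have hφe : ∀ p : ℤ[X], φ p = ((p.eval (n : ℤ) : ℤ) : ℂ) := fun p => eval₂_nat p n
  have hlcφ : φ G.leadingCoeff = (γ : ℂ) := by rw [← hγ, hφe, eval_C]
  have hlcφ0 : φ G.leadingCoeff ≠ 0 := by rw [hlcφ]; exact_mod_cast hγ0
  set Gn := G.map φ with hGn
  have hGnd : Gn.natDegree = G.natDegree := natDegree_map_of_leadingCoeff_ne_zero φ hlcφ0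
  have hGnlc : Gn.leadingCoeff = (γ : ℂ) := by
    rw [hGn, leadingCoeff_map_of_leadingCoeff_ne_zero φ hlcφ0, hlcφ]
  have hGn0 : Gn ≠ 0 := by
    intro h0
    rw [h0, leadingCoeff_zero] at hGnlc
    exact hγ0 (by exact_mod_cast hGnlc.symm)
  have hrootE : ∀ z ∈ Gn.roots, E2 (n : ℂ) z G = 0 := by
    intro z hz
    rw [E2_eq_eval]
    exact (mem_roots hGn0).1 hz
  by_cases hesc : ∃ z ∈ Gn.roots, ∃ i ≤ N₀ + 2, 3 * (n : ℝ) < ‖orb d (n : ℂ) z i‖ ^ d
  · -- an escaping root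
    obtain ⟨z, hz, i, hi, hzi⟩ := hesc
    have h1 := growth hd hn1 hzi (K - i - 1)
    rw [orb_orb] at h1
    have e1 : K - i - 1 + 1 + i = K := by omega
    rw [e1] at h1
    set Z := orb d (n : ℂ) z K with hZ
    have h2 : (n : ℝ) ^ (d₀ + 1) ≤ (n : ℝ) ^ (2 ^ (K - i - 1)) := by
      apply pow_le_pow_right₀ hn1'
      have : d₀ < 2 ^ d₀ := Nat.lt_two_pow_self
      have h3 : 2 ^ d₀ ≤ 2 ^ (K - i - 1) := Nat.pow_le_pow_right (by norm_num) (by omega)
      omega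
    have hpos : 0 < (n : ℝ) ^ (d₀ + 1) := by positivity
    have hZ1 : (n : ℝ) ^ (d₀ + 1) < ‖Z‖ := by linarith
    have hZ1' : 1 ≤ ‖Z‖ := (one_le_pow₀ hn1').trans hZ1.le
    have h3 : ∑ b ∈ Finset.range (δ + 1), φ (r b) * Z ^ b = 0 := by
      obtain ⟨H, hH⟩ := h
      have h4 := congrArg (E2 (n : ℂ) z) hH
      rw [map_mul, hrootE z hz, zero_mul, map_sum] at h4
      rw [← h4]
      apply Finset.sum_congr rfl
      intro b _
      rw [map_mul, map_pow, E2_it, E2_C]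
      rfl
    have h4 := top_bound hδ (fun b => φ (r b)) hZ1' h3
    have h5 : 1 ≤ ‖φ (r δ)‖ := by
      rw [hφe, Complex.norm_intCast]
      exact_mod_cast Int.one_le_abs hnr
    have h6 : ∑ b ∈ Finset.range δ, ‖φ (r b)‖ ≤ C₁ * (n : ℝ) ^ d₀ := by
      rw [hC₁, Finset.sum_mul]
      apply Finset.sum_le_sum
      intro b _
      rw [hφe, Complex.norm_intCast, eval_eq_sum_range' (hr b), Int.cast_sum, Finset.sum_mul]
      refine (Finset.abs_sum_le_sum_abs _ _).trans (Finset.sum_le_sum fun k hk => ?_)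
      rw [Int.cast_mul, abs_mul, Int.cast_pow, Int.cast_natCast, abs_pow, Nat.abs_cast]
      apply mul_le_mul_of_nonneg_left _ (abs_nonneg _)
      exact pow_le_pow_right₀ hn1' (Finset.mem_range.1 hk).le
    have h7 : C₁ * (n : ℝ) ^ d₀ < (n : ℝ) ^ (d₀ + 1) := by
      rw [pow_succ, mul_comm ((n : ℝ) ^ d₀)]
      have : 0 < (n : ℝ) ^ d₀ := by positivity
      nlinarith
    nlinarith [norm_nonneg Z]
  · -- all roots have bounded orbits
    push Not at hesc
    have hlab : ∀ w : ℂ, ∃ ω : ℂ, ω ^ d = -(n : ℂ) ∧ ‖w - ω‖ ^ d ≤ ‖w ^ d + n‖ :=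
      fun w => exists_label hd1 (n : ℂ) w
    choose lab hlab1 hlab2 using hlab
    set P : ℂ[X] := X ^ d - C (-(n : ℂ)) with hP
    have hPm : P.Monic := monic_X_pow_sub_C _ (by omega)
    set S : Finset ℂ := P.roots.toFinset with hS
    have hlabS : ∀ w, lab w ∈ S := by
      intro w
      rw [hS, Multiset.mem_toFinset, mem_roots hPm.ne_zero, IsRoot.def, hP, eval_sub, eval_pow,
        eval_X, eval_C, hlab1, sub_self]
    have hScard : S.card ≤ d := by
      refine (Multiset.toFinset_card_le _).trans ((card_roots' P).trans ?_)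
      rw [hP, natDegree_X_pow_sub_C]
    set Zs : Finset ℂ := Gn.roots.toFinset with hZs
    have hZcard : Zs.card ≤ g := by
      refine (Multiset.toFinset_card_le _).trans ((card_roots' Gn).trans ?_)
      rw [hGnd]; exact hg
    set Λ : Fin (N₀ + 1) → (Zs → S × S) := fun i z =>
      (⟨lab (orb d (n : ℂ) z i), hlabS _⟩, ⟨lab (orb d (n : ℂ) z (i + 1)), hlabS _⟩) with hΛ
    have hcardΛ : Fintype.card (Zs → S × S) < Fintype.card (Fin (N₀ + 1)) := by
      rw [Fintype.card_fun, Fintype.card_prod, Fintype.card_coe, Fintype.card_coe, Fintype.card_fin]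
      have h1 : (S.card * S.card) ^ Zs.card ≤ (d * d) ^ Zs.card :=
        Nat.pow_le_pow_left (Nat.mul_le_mul hScard hScard) _
      have h2 : (d * d) ^ Zs.card ≤ (d * d) ^ g :=
        Nat.pow_le_pow_right (by positivity) hZcard
      omega
    obtain ⟨i', j', hne, hij'⟩ := Fintype.exists_ne_map_eq_of_card_lt Λ hcardΛ
    have hsym : ∃ i j : Fin (N₀ + 1), i < j ∧ Λ i = Λ j := by
      rcases lt_or_gt_of_ne hne with h1 | h1
      · exact ⟨i', j', h1, hij'⟩
      · exact ⟨j', i', h1, hij'.symm⟩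
    obtain ⟨i, j, hij, hΛij⟩ := hsym
    have hjN : (j : ℕ) ≤ N₀ := by have := j.2; omega
    have hijN : (i : ℕ) < j := hij
    have hclose : ∀ z ∈ Gn.roots, ‖orb d (n : ℂ) z i - orb d (n : ℂ) z j‖ ≤ 1 / (Γ + 1) := by
      intro z hz
      have hzZ : z ∈ Zs := Multiset.mem_toFinset.2 hz
      have h1 := congrFun hΛij ⟨z, hzZ⟩
      simp only [hΛ, Prod.mk.injEq, Subtype.mk.injEq] at h1
      obtain ⟨h1a, h1b⟩ := h1
      have hs : ∀ k : ℕ, orb d (n : ℂ) z k ^ d + n = orb d (n : ℂ) z (k + 1) :=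
        fun k => (orb_succ _ _ _).symm
      apply close_two hd hn1 (fun w w' ω => hn₂ n hnn₂ w w' ω) (by linarith) hnT
        (hlab1 (orb d (n : ℂ) z i)) (hlab1 (orb d (n : ℂ) z (i + 1))) (hlab2 _) ?_ ?_ ?_ ?_ ?_ ?_ ?_
      · rw [h1a]; exact hlab2 _
      · rw [hs]; exact hlab2 _
      · rw [hs, h1b]; exact hlab2 _
      · rw [hs]; exact hesc z hz _ (by omega)
      · rw [hs]; exact hesc z hz _ (by omega)
      · rw [hs, hs]; exact hesc z hz _ (by omega)
      · rw [hs, hs]; exact hesc z hz _ (by omega)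
    -- the resultant is small
    have h1 := resultant_map_map G (it d i - it d j) G.natDegree (it d i - it d j).natDegree φ
    have h2 := resultant_eq_prod_eval Gn ((it d i - it d j).map φ) (it d i - it d j).natDegree
      natDegree_map_le (IsAlgClosed.splits _)
    rw [hGnd, hGnlc] at h2
    rw [← hGn, h2] at h1
    have h3 : φ (R i j) = (((R i j).eval (n : ℤ) : ℤ) : ℂ) := hφe _
    have h4 : (R i j).eval (n : ℤ) ≠ 0 := by
      intro h0
      apply hnR
      rw [hRall, eval_prod]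
      apply Finset.prod_eq_zero (Finset.mem_range.2 i.2)
      rw [eval_prod]
      apply Finset.prod_eq_zero (Finset.mem_range.2 j.2)
      rw [if_pos hijN]
      exact h0
    have h5 : (1 : ℝ) ≤ ‖φ (R i j)‖ := by
      rw [h3, Complex.norm_intCast]
      exact_mod_cast Int.one_le_abs h4
    have h6 : φ (R i j) = (γ : ℂ) ^ (it d i - it d j).natDegree *
        (Gn.roots.map fun z => ((it d i - it d j).map φ).eval z).prod := h1.symm
    have h7 : ‖(Gn.roots.map fun z => ((it d i - it d j).map φ).eval z).prod‖ ≤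
        (1 / (Γ + 1)) ^ Gn.roots.card := by
      apply prod_norm_le'
      intro z hz
      have : ((it d i - it d j).map φ).eval z = orb d (n : ℂ) z i - orb d (n : ℂ) z j := by
        rw [← E2_it, ← E2_it, ← map_sub, E2_eq_eval]
      rw [this]
      exact hclose z hz
    have h8 : (1 / (Γ + 1)) ^ Gn.roots.card ≤ 1 / (Γ + 1) := by
      have e1 : Gn.roots.card = G.natDegree := by
        rw [← hGnd]; exact splits_iff_card_roots.1 (IsAlgClosed.splits _)
      rw [e1]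
      apply pow_le_of_le_one (by positivity) _ (by omega)
      rw [div_le_one (by linarith)]
      linarith
    have h9 : ‖(γ : ℂ) ^ (it d i - it d j).natDegree‖ ≤ Γ := by
      rw [norm_pow, Complex.norm_intCast, hΓ]
      calc |(γ : ℝ)| ^ (it d i - it d j).natDegree ≤
          (max 1 |(γ : ℝ)|) ^ (it d i - it d j).natDegree :=
            pow_le_pow_left₀ (abs_nonneg _) (le_max_right _ _) _
        _ ≤ _ := by
            apply pow_le_pow_right₀ (le_max_left _ _)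
            rw [hM']
            refine le_trans ?_ (Finset.single_le_sum (f := fun i => ∑ j ∈ Finset.range (N₀ + 1),
              (it d i - it d j).natDegree) (fun _ _ => Nat.zero_le _) (Finset.mem_range.2 i.2))
            exact Finset.single_le_sum (f := fun j => (it d i - it d j).natDegree)
              (fun _ _ => Nat.zero_le _) (Finset.mem_range.2 j.2)
    have h10 : ‖φ (R i j)‖ ≤ Γ * (1 / (Γ + 1)) := by
      rw [h6, norm_mul]
      exact mul_le_mul h9 (h7.trans h8) (norm_nonneg _) (by linarith)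
    have h11 : Γ * (1 / (Γ + 1)) < 1 := by
      rw [mul_one_div, div_lt_one (by linarith)]
      linarith
    linarith

end Pool.Agent.Y673.PP
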