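import Mathlib

/-!
The iterates of `w ↦ w ^ d + c` as polynomials in two variables (helper673).
-/

set_option autoImplicit false

namespace Pool.Agent.Y673.PP

open Polynomial

/-- the iterates of `w ↦ w ^ d + c` at `z`, as polynomials in `z` over `ℤ[c]` -/
noncomputable def it (d : ℕ) : ℕ → ℤ[X][X]
  | 0 => X
  | k + 1 => (it d k) ^ d + C X

/-- the value of a polynomial in `c` and `z` -/
noncomputable def E2 {S : Type} [CommRing S] (c z : S) : ℤ[X][X] →+* S :=
  eval₂RingHom (eval₂RingHom (Int.castRingHom S) c) z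

/-- the orbit of `z` -/
def orb {S : Type} [CommRing S] (d : ℕ) (c z : S) (k : ℕ) : S := (fun w => w ^ d + c)^[k] z

section
variable {S : Type} [CommRing S] {d : ℕ}

theorem orb_zero (c z : S) : orb d c z 0 = z := rfl

theorem orb_succ (c z : S) (k : ℕ) : orb d c z (k + 1) = orb d c z k ^ d + c := by
  unfold orb
  rw [Function.iterate_succ_apply']

theorem orb_orb (c z : S) (i k : ℕ) : orb d c (orb d c z i) k = orb d c z (k + i) := by
  unfold orb
  rw [← Function.iterate_add_apply]

theorem E2_X (c z : S) : E2 c z X = z := by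
  unfold E2; rw [coe_eval₂RingHom, eval₂_X]

theorem E2_C (c z : S) (p : ℤ[X]) : E2 c z (C p) = p.eval₂ (Int.castRingHom S) c := by
  unfold E2; rw [coe_eval₂RingHom, eval₂_C, coe_eval₂RingHom]

theorem E2_CX (c z : S) : E2 c z (C X) = c := by rw [E2_C, eval₂_X]

theorem E2_it (c z : S) (k : ℕ) : E2 c z (it d k) = orb d c z k := by
  induction k with
  | zero => rw [orb_zero]; exact E2_X c z
  | succ k ih =>
    rw [orb_succ, ← ih]
    show E2 c z (it d k ^ d + C X) = _
    rw [map_add, map_pow, E2_CX]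

theorem E2_map {S' : Type} [CommRing S'] (φ : S →+* S') (c z : S) (F : ℤ[X][X]) :
    φ (E2 c z F) = E2 (φ c) (φ z) F := by
  have h : φ.comp (E2 c z) = E2 (φ c) (φ z) := by
    refine Polynomial.ringHom_ext' ?_ ?_
    · refine Polynomial.ringHom_ext' (Subsingleton.elim _ _) ?_
      rw [RingHom.comp_apply, RingHom.comp_apply, RingHom.comp_apply, E2_CX, E2_CX]
    · rw [RingHom.comp_apply, E2_X, E2_X]
  rw [← h]; rfl

theorem orb_map {S' : Type} [CommRing S'] (φ : S →+* S') (c z : S) (k : ℕ) :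
    φ (orb d c z k) = orb d (φ c) (φ z) k := by
  rw [← E2_it, E2_map, E2_it]

theorem E2_eq_eval (c z : S) (F : ℤ[X][X]) :
    E2 c z F = (F.map (eval₂RingHom (Int.castRingHom S) c)).eval z := by
  unfold E2
  rw [coe_eval₂RingHom, eval_map]

/-- the value as a double sum -/
theorem E2_eq_sum (c z : S) (F : ℤ[X][X]) {A B : ℕ} (hA : F.natDegree ≤ A)
    (hB : ∀ l, (F.coeff l).natDegree ≤ B) :
    E2 c z F = ∑ l ∈ Finset.range (A + 1), ∑ k ∈ Finset.range (B + 1),
      (((F.coeff l).coeff k : ℤ) : S) * c ^ k * z ^ l := by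
  unfold E2
  rw [coe_eval₂RingHom, eval₂_eq_sum_range' _ (Nat.lt_succ_of_le hA)]
  apply Finset.sum_congr rfl
  intro l _
  rw [coe_eval₂RingHom, eval₂_eq_sum_range' _ (Nat.lt_succ_of_le (hB l)), Finset.sum_mul]
  apply Finset.sum_congr rfl
  intro k _
  rw [eq_intCast]

end

theorem it_natDegree {d : ℕ} (hd : 1 ≤ d) (k : ℕ) :
    (it d k).Monic ∧ (it d k).natDegree = d ^ k := by
  induction k with
  | zero => exact ⟨monic_X, by rw [pow_zero]; exact natDegree_X⟩
  | succ k ih =>
    obtain ⟨h1, h2⟩ := ih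
    have h3 : ((it d k) ^ d).Monic := h1.pow d
    have h4 : ((it d k) ^ d).natDegree = d ^ (k + 1) := by
      rw [h1.natDegree_pow, h2, pow_succ, mul_comm]
    have h5 : (C X : ℤ[X][X]).degree < ((it d k) ^ d).degree := by
      rw [degree_eq_natDegree h3.ne_zero, h4]
      refine lt_of_le_of_lt degree_C_le ?_
      have : 0 < d ^ (k + 1) := by positivity
      exact_mod_cast this
    refine ⟨h3.add_of_left h5, ?_⟩
    show ((it d k) ^ d + C X).natDegree = _
    rw [natDegree_add_eq_left_of_degree_lt h5, h4]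

/-- a polynomial which is monic of degree `n` in `z`, a product of few iterates -/
noncomputable def bas (d K n : ℕ) : ℤ[X][X] :=
  (it d K) ^ (n / d ^ K) * ∏ i ∈ Finset.range K, (it d i) ^ (n / d ^ i % d)

theorem bas_monic {d : ℕ} (hd : 1 ≤ d) (K n : ℕ) : (bas d K n).Monic := by
  unfold bas
  exact ((it_natDegree hd K).1.pow _).mul
    (monic_prod_of_monic _ _ fun i _ => (it_natDegree hd i).1.pow _)

theorem digits_sum (d : ℕ) (K n : ℕ) :
    n / d ^ K * d ^ K + ∑ i ∈ Finset.range K, (n / d ^ i % d) * d ^ i = n := by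
  induction K with
  | zero => simp
  | succ K ih =>
    rw [Finset.sum_range_succ]
    have h1 : n / d ^ (K + 1) = n / d ^ K / d := by rw [pow_succ, Nat.div_div_eq_div_mul]
    have h2 := Nat.div_add_mod (n / d ^ K) d
    rw [h1]
    calc n / d ^ K / d * d ^ (K + 1) + (∑ i ∈ Finset.range K, n / d ^ i % d * d ^ i +
          n / d ^ K % d * d ^ K) = (d * (n / d ^ K / d) + n / d ^ K % d) * d ^ K +
            ∑ i ∈ Finset.range K, n / d ^ i % d * d ^ i := by rw [pow_succ]; ring
      _ = n := by rw [h2]; exact ih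

theorem bas_natDegree {d : ℕ} (hd : 1 ≤ d) (K n : ℕ) : (bas d K n).natDegree = n := by
  unfold bas
  rw [((it_natDegree hd K).1.pow _).natDegree_mul
    (monic_prod_of_monic _ _ fun i _ => (it_natDegree hd i).1.pow _),
    (it_natDegree hd K).1.natDegree_pow, (it_natDegree hd K).2,
    natDegree_prod_of_monic _ _ fun i _ => (it_natDegree hd i).1.pow _]
  have : ∑ i ∈ Finset.range K, ((it d i) ^ (n / d ^ i % d)).natDegree =
      ∑ i ∈ Finset.range K, (n / d ^ i % d) * d ^ i := by
    apply Finset.sum_congr rfl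
    intro i _
    rw [(it_natDegree hd i).1.natDegree_pow, (it_natDegree hd i).2]
  rw [this]
  exact digits_sum d K n

/-- independence of monic polynomials of different degrees -/
theorem indep {A : Type} [CommRing A] (B : ℕ → A[X]) (hB : ∀ n, (B n).Monic ∧ (B n).natDegree = n)
    (a : ℕ → A) (M : ℕ) (h : ∑ n ∈ Finset.range M, C (a n) * B n = 0) : ∀ n < M, a n = 0 := by
  induction M with
  | zero => intro n hn; omega
  | succ M ih =>
    have h1 : a M = 0 := by
      have h2 := congrArg (fun p => p.coeff M) h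
      simp only [coeff_zero] at h2
      rw [Finset.sum_range_succ, coeff_add, finsetSum_coeff, Finset.sum_eq_zero, zero_add,
        coeff_C_mul] at h2
      · have h3 : (B M).coeff M = 1 := by
          conv_lhs => rw [← (hB M).2]
          rw [(hB M).2]
          have := (hB M).1.coeff_natDegree
          rwa [(hB M).2] at this
        rwa [h3, mul_one] at h2
      · intro n hn
        rw [coeff_C_mul, coeff_eq_zero_of_natDegree_lt, mul_zero]
        rw [(hB n).2]
        exact Finset.mem_range.1 hn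
    rw [Finset.sum_range_succ, h1, C_0, zero_mul, add_zero] at h
    intro n hn
    rcases Nat.lt_succ_iff_lt_or_eq.1 hn with h2 | h2
    · exact ih h n h2
    · rw [h2]; exact h1

theorem int_CC (n : ℤ) : (n : ℤ[X][X]) = C (C n) := by
  have h1 : (n : ℤ[X][X]) = C (n : ℤ[X]) := by simp
  rw [h1]; rfl

/-- the products `c ^ j` times a basis polynomial -/
noncomputable def mon (d K : ℕ) {J M : ℕ} (x : Fin J × Fin M) : ℤ[X][X] :=
  C (X ^ (x.1 : ℕ)) * bas d K (x.2 : ℕ)

theorem mon_sum_eq {d K J M : ℕ} (e : Fin J × Fin M → ℤ) :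
    ∑ x, (e x : ℤ[X][X]) * mon d K x = ∑ n ∈ Finset.range M,
      C (if h : n < M then ∑ j : Fin J, C (e (j, ⟨n, h⟩)) * X ^ (j : ℕ) else 0) * bas d K n := by
  rw [Fintype.sum_prod_type_right, Finset.sum_range]
  apply Finset.sum_congr rfl
  intro n _
  rw [dif_pos n.2, map_sum, Finset.sum_mul]
  apply Finset.sum_congr rfl
  intro j _
  unfold mon
  rw [int_CC]
  simp only [C_mul, C_pow]
  ring

theorem mon_ne {d : ℕ} (hd : 1 ≤ d) {K J M : ℕ} {e : Fin J × Fin M → ℤ} (he : e ≠ 0) :
    ∑ x, (e x : ℤ[X][X]) * mon d K x ≠ 0 := by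
  intro h
  apply he
  rw [mon_sum_eq] at h
  have h1 := indep (bas d K) (fun n => ⟨bas_monic hd K n, bas_natDegree hd K n⟩) _ M h
  funext x
  obtain ⟨j, n⟩ := x
  have h2 := h1 n n.2
  rw [dif_pos n.2] at h2
  have h3 := congrArg (fun p => p.coeff (j : ℕ)) h2
  simp only [finsetSum_coeff, coeff_C_mul, coeff_X_pow, coeff_zero] at h3
  rw [Finset.sum_eq_single j] at h3
  · simpa using h3
  · intro b _ hb
    rw [if_neg, mul_zero]
    intro h4
    exact hb (Fin.ext h4.symm)
  · intro h4; exact absurd (Finset.mem_univ j) h4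

theorem mon_natDegree {d : ℕ} (hd : 1 ≤ d) {K J M : ℕ} (e : Fin J × Fin M → ℤ) :
    (∑ x, (e x : ℤ[X][X]) * mon d K x).natDegree ≤ M := by
  refine (natDegree_sum_le _ _).trans ?_
  rw [Finset.fold_max_le]
  refine ⟨Nat.zero_le _, fun x _ => ?_⟩
  have h1 : ((e x : ℤ[X][X]) * mon d K x) = C (C (e x) * X ^ (x.1 : ℕ)) * bas d K (x.2 : ℕ) := by
    unfold mon
    rw [int_CC]
    simp only [C_mul, C_pow]
    ring
  show ((e x : ℤ[X][X]) * mon d K x).natDegree ≤ M
  rw [h1]
  refine natDegree_C_mul_le _ _ |>.trans ?_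
  rw [bas_natDegree hd]
  exact x.2.2.le

end Pool.Agent.Y673.PP
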