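import Mathlib

/-!
Approximate roots modulo powers of a maximal ideal (helper673).
-/

set_option autoImplicit false

namespace Pool.Agent.Y673.PP

open Polynomial

section
variable {R : Type} [CommRing R] {𝔮 : Ideal R}

theorem mem_of_mul (h𝔮 : 𝔮.IsMaximal) {x t : R} {m : ℕ} (h : x * t ∈ 𝔮 ^ m) (ht : t ∉ 𝔮) :
    x ∈ 𝔮 ^ m := by
  obtain ⟨y, i, hi, hyi⟩ := h𝔮.exists_inv ht
  obtain ⟨s, hs⟩ := sub_dvd_pow_sub_pow (1 : R) i m
  have h1 : (1 : R) - i = y * t := by linear_combination (-1 : R) * hyi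
  have h2 : x = y * s * (x * t) + x * i ^ m := by
    rw [one_pow, h1] at hs
    linear_combination x * hs
  rw [h2]
  exact (𝔮 ^ m).add_mem ((𝔮 ^ m).mul_mem_left _ h) ((𝔮 ^ m).mul_mem_left _ (Ideal.pow_mem_pow hi m))

/-- an approximate root close to an approximate root is very close -/
theorem close_root (h𝔮 : 𝔮.IsMaximal) (F : R[X]) (y z : R) (m : ℕ) (h1 : F.eval y ∈ 𝔮 ^ m)
    (h2 : F.eval z ∈ 𝔮 ^ m) (h3 : y - z ∈ 𝔮) (h4 : F.derivative.eval y ∉ 𝔮) : y - z ∈ 𝔮 ^ m := by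
  obtain ⟨c, hc⟩ := F.binomExpansion y (z - y)
  rw [add_sub_cancel] at hc
  have h5 : (y - z) * (-(F.derivative.eval y) - c * (z - y)) = F.eval z - F.eval y := by
    rw [hc]; ring
  apply mem_of_mul h𝔮 (t := -(F.derivative.eval y) - c * (z - y))
  · rw [h5]
    exact (𝔮 ^ m).sub_mem h2 h1
  · intro h
    apply h4
    have h7 : F.derivative.eval y = -(-(F.derivative.eval y) - c * (z - y)) + c * (y - z) := by
      ring
    rw [h7]
    exact 𝔮.add_mem (𝔮.neg_mem h) (𝔮.mul_mem_left _ h3)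

/-- Newton's iteration with a fixed inverse of the derivative -/
theorem newton {S : Type} [CommRing S] (I : Ideal S) (F : S[X]) (y₀ u : S)
    (h0 : F.eval y₀ ∈ I) (hu : u * F.derivative.eval y₀ - 1 ∈ I) (k : ℕ) :
    ∃ y : S, y - y₀ ∈ I ∧ F.eval y ∈ I ^ (k + 1) := by
  induction k with
  | zero => exact ⟨y₀, by simp, by simpa using h0⟩
  | succ k ih =>
    obtain ⟨y, hy, hF⟩ := ih
    set G := F.eval y with hG
    refine ⟨y - u * G, ?_, ?_⟩
    · have h1 : G ∈ I := Ideal.pow_le_self (Nat.succ_ne_zero k) hF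
      have : y - u * G - y₀ = (y - y₀) - u * G := by ring
      rw [this]
      exact I.sub_mem hy (I.mul_mem_left _ h1)
    · obtain ⟨c, hc⟩ := F.binomExpansion y (-(u * G))
      have h2 : F.eval (y - u * G) = (1 - u * F.derivative.eval y) * G + c * u ^ 2 * (G * G) := by
        rw [sub_eq_add_neg, hc]; ring
      rw [h2]
      have h3 : 1 - u * F.derivative.eval y ∈ I := by
        obtain ⟨e, he⟩ := F.derivative.evalSubFactor y y₀
        have h4 : F.derivative.eval y - F.derivative.eval y₀ ∈ I := by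
          rw [he]; exact I.mul_mem_left _ hy
        have h5 : 1 - u * F.derivative.eval y = -(u * F.derivative.eval y₀ - 1) -
          u * (F.derivative.eval y - F.derivative.eval y₀) := by ring
        rw [h5]
        exact I.sub_mem (I.neg_mem hu) (I.mul_mem_left _ h4)
      have h6 : (1 - u * F.derivative.eval y) * G ∈ I ^ (k + 1 + 1) := by
        rw [pow_succ' I (k + 1)]
        exact Ideal.mul_mem_mul h3 hF
      have h7 : G * G ∈ I ^ (k + 1 + 1) := by
        have h8 : G * G ∈ I ^ (k + 1) * I ^ (k + 1) := Ideal.mul_mem_mul hF hF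
        rw [← pow_add] at h8
        exact Ideal.pow_le_pow_right (by omega) h8
      exact (I ^ (k + 1 + 1)).add_mem h6 ((I ^ (k + 1 + 1)).mul_mem_left _ h7)

/-- the ideal `(𝔮, T)` of `R[T]` -/
noncomputable def IT (𝔮 : Ideal R) : Ideal R[X] := Ideal.map C 𝔮 ⊔ Ideal.span {X}

theorem eval_mem_IT {g : R[X]} {t : R} (k : ℕ) (ht : t ∈ 𝔮) (hg : g ∈ IT 𝔮 ^ k) :
    g.eval t ∈ 𝔮 ^ k := by
  have h1 : Ideal.map (evalRingHom t) (IT 𝔮) ≤ 𝔮 := by
    unfold IT
    rw [Ideal.map_sup, sup_le_iff, Ideal.map_map, Ideal.map_span, Ideal.span_le]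
    constructor
    · have : (evalRingHom t).comp (C : R →+* R[X]) = RingHom.id R := by
        ext x; simp
      rw [this, Ideal.map_id]
    · rintro x ⟨y, hy, rfl⟩
      rw [Set.mem_singleton_iff] at hy
      rw [hy]
      simpa using ht
  have h2 : (evalRingHom t) g ∈ Ideal.map (evalRingHom t) (IT 𝔮 ^ k) :=
    Ideal.mem_map_of_mem _ hg
  rw [Ideal.map_pow] at h2
  exact Ideal.pow_right_mono h1 k h2

theorem mem_IT_of {g : R[X]} (h : g.eval 0 ∈ 𝔮) : g ∈ IT 𝔮 := by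
  have h1 : g = X * g.divX + C (g.coeff 0) := (X_mul_divX_add g).symm
  rw [h1]
  unfold IT
  apply Ideal.add_mem
  · exact Ideal.mul_mem_right _ _ (Ideal.mem_sup_right (Ideal.subset_span rfl))
  · rw [← coeff_zero_eq_eval_zero] at h
    exact Ideal.mem_sup_left (Ideal.mem_map_of_mem C h)

/-- values of a polynomial whose coefficients are in high powers of `𝔮` -/
theorem eval_of_coeff {m : ℕ} {g : R[X]} {t : R} (ht : t ∈ 𝔮)
    (hg : ∀ i < m, g.coeff i ∈ 𝔮 ^ (m - i)) : g.eval t ∈ 𝔮 ^ m := by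
  rw [eval_eq_sum_range]
  apply Ideal.sum_mem
  intro i _
  have hti : t ^ i ∈ 𝔮 ^ i := Ideal.pow_mem_pow ht i
  by_cases hi : i < m
  · have := Ideal.mul_mem_mul (hg i hi) hti
    rwa [← pow_add, Nat.sub_add_cancel hi.le] at this
  · exact Ideal.mul_mem_left _ _ (Ideal.pow_le_pow_right (not_lt.1 hi) hti)

/-- the value of a polynomial in two variables -/
noncomputable def ev (F : R[X][X]) (c z : R) : R := (F.map (evalRingHom c)).eval z

theorem ev_eq (F : R[X][X]) (c z : R) : ev F c z = (F.eval (C z)).eval c := by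
  unfold ev
  rw [map_evalRingHom_eval]

theorem ev_sub_mem (F : R[X][X]) {c c' z z' : R} {m : ℕ} (h1 : c - c' ∈ 𝔮 ^ m) (h2 : z - z' ∈ 𝔮 ^ m) :
    ev F c z - ev F c' z' ∈ 𝔮 ^ m := by
  have e1 : ev F c z - ev F c z' ∈ 𝔮 ^ m := by
    unfold ev
    obtain ⟨e, he⟩ := (F.map (evalRingHom c)).evalSubFactor z z'
    rw [he]
    exact Ideal.mul_mem_left _ _ h2
  have e3 : ev F c z' - ev F c' z' ∈ 𝔮 ^ m := by
    rw [ev_eq, ev_eq]
    obtain ⟨e, he⟩ := (F.eval (C z')).evalSubFactor c c'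
    rw [he]
    exact Ideal.mul_mem_left _ _ h1
  have := (𝔮 ^ m).add_mem e1 e3
  rwa [sub_add_sub_cancel] at this

theorem ev_shift (F : R[X][X]) (c₀ t : R) (Φ : R[X]) :
    ((F.map (compRingHom (X + C c₀))).eval Φ).eval t = ev F (t + c₀) (Φ.eval t) := by
  have h1 : (evalRingHom t).comp (compRingHom (X + C c₀)) = evalRingHom (t + c₀) := by
    ext <;> simp
  unfold ev
  rw [eval_map, eval_map, ← coe_evalRingHom, hom_eval₂, h1, coe_evalRingHom]

theorem exists_phi (h𝔮 : 𝔮.IsMaximal) (F : R[X][X]) (c₀ z₀ : R) (m : ℕ)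
    (h0 : ev F c₀ z₀ ∈ 𝔮) (h1 : ev F.derivative c₀ z₀ ∉ 𝔮) :
    ∃ Φ : R[X], ∀ c z : R, c - c₀ ∈ 𝔮 → z - z₀ ∈ 𝔮 → ev F c z ∈ 𝔮 ^ m →
      z - Φ.eval (c - c₀) ∈ 𝔮 ^ m := by
  set G := F.map (compRingHom (X + C c₀)) with hG
  obtain ⟨u, i, hi, hui⟩ := h𝔮.exists_inv h1
  have hs : ∀ (E : R[X][X]), ((E.map (compRingHom (X + C c₀))).eval (C z₀)).eval 0 =
      ev E c₀ z₀ := by
    intro E
    rw [ev_shift, zero_add, eval_C]
  have e0 : G.eval (C z₀) ∈ IT 𝔮 := mem_IT_of (by rw [hG, hs]; exact h0)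
  have e1 : C u * G.derivative.eval (C z₀) - 1 ∈ IT 𝔮 := by
    apply mem_IT_of
    rw [eval_sub, eval_mul, eval_C, eval_one, hG, derivative_map, hs]
    have : u * ev F.derivative c₀ z₀ - 1 = -i := by linear_combination hui
    rw [this]
    exact 𝔮.neg_mem hi
  obtain ⟨Φ, hΦ, hΦ2⟩ := newton (IT 𝔮) G (C z₀) (C u) e0 e1 m
  refine ⟨Φ, fun c z hc hz hF => ?_⟩
  have hz2 : Φ.eval (c - c₀) - z₀ ∈ 𝔮 := by
    have := eval_mem_IT 1 hc (by rw [pow_one]; exact hΦ)
    rwa [pow_one, eval_sub, eval_C] at this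
  have e2 := eval_mem_IT (m + 1) hc hΦ2
  rw [hG, ev_shift, sub_add_cancel] at e2
  refine close_root h𝔮 (F.map (evalRingHom c)) z _ m hF (Ideal.pow_le_pow_right (Nat.le_succ m) e2)
    ?_ ?_
  · have := 𝔮.sub_mem hz hz2
    rwa [sub_sub_sub_cancel_right] at this
  · intro h
    apply h1
    have h2 := ev_sub_mem (𝔮 := 𝔮) F.derivative (m := 1) (by rw [pow_one]; exact hc)
      (by rw [pow_one]; exact hz)
    rw [pow_one] at h2
    have h3 : ev F.derivative c z ∈ 𝔮 := by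
      unfold ev
      rw [← derivative_map]
      exact h
    have := 𝔮.sub_mem h3 h2
    rwa [sub_sub_cancel] at this

/-- a polynomial in two variables whose coefficients are in high powers of `𝔮` -/
theorem ev_of_coeff {m : ℕ} {g : R[X][X]} {s t : R} (hs : s ∈ 𝔮) (ht : t ∈ 𝔮)
    (hg : ∀ l < m, ∀ k < m - l, (g.coeff l).coeff k ∈ 𝔮 ^ (m - l - k)) : ev g s t ∈ 𝔮 ^ m := by
  unfold ev
  apply eval_of_coeff ht
  intro l hl
  rw [coeff_map, coe_evalRingHom]
  exact eval_of_coeff hs fun k hk => hg l hl k hk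

end

end Pool.Agent.Y673.PP
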