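import Pool.Agent.Y673.PP.Loc

/-!
Auxiliary polynomials by the pigeonhole principle (helper673).
-/

set_option autoImplicit false

namespace Pool.Agent.Y673.PP

open Polynomial

/-- integral linear combinations in ideals of finite index -/
theorem pigeon {R : Type} [CommRing R] {ι Ω : Type} [Fintype ι] [Fintype Ω]
    (γ : ι → Ω → R) (I : Ω → Ideal R) (hfin : ∀ w, Finite (R ⧸ I w)) {H : ℕ}
    (hH : ∏ w, Nat.card (R ⧸ I w) < H ^ Fintype.card ι) :
    ∃ e : ι → ℤ, e ≠ 0 ∧ (∀ x, |e x| ≤ H) ∧ ∀ w, ∑ x, (e x : R) * γ x w ∈ I w := by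
  classical
  haveI : ∀ w, Fintype (R ⧸ I w) := fun w => Fintype.ofFinite _
  set f : (ι → Fin H) → ((w : Ω) → R ⧸ I w) := fun c w =>
    Ideal.Quotient.mk (I w) (∑ x, (((c x : ℕ) : ℤ) : R) * γ x w) with hf
  have hcard : Fintype.card ((w : Ω) → R ⧸ I w) < Fintype.card (ι → Fin H) := by
    rw [Fintype.card_pi, Fintype.card_fun, Fintype.card_fin]
    refine lt_of_le_of_lt (le_of_eq ?_) hH
    apply Finset.prod_congr rfl
    intro w _
    rw [Nat.card_eq_fintype_card]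
  obtain ⟨c, c', hne, hcc⟩ := Fintype.exists_ne_map_eq_of_card_lt f hcard
  refine ⟨fun x => ((c x : ℕ) : ℤ) - ((c' x : ℕ) : ℤ), ?_, ?_, ?_⟩
  · intro h
    apply hne
    funext x
    have := congrFun h x
    simp only [Pi.zero_apply, sub_eq_zero] at this
    exact Fin.ext (by exact_mod_cast this)
  · intro x
    have h1 := (c x).2
    have h2 := (c' x).2
    show |((c x : ℕ) : ℤ) - ((c' x : ℕ) : ℤ)| ≤ H
    rw [abs_le]
    constructor <;> omega
  · intro w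
    have h1 := congrFun hcc w
    simp only [hf] at h1
    rw [Ideal.Quotient.eq, ← Finset.sum_sub_distrib] at h1
    have h2 : ∑ x, (((((c x : ℕ) : ℤ) - ((c' x : ℕ) : ℤ)) : ℤ) : R) * γ x w =
        ∑ x, ((((c x : ℕ) : ℤ) : R) * γ x w - (((c' x : ℕ) : ℤ) : R) * γ x w) := by
      apply Finset.sum_congr rfl
      intro x _
      push_cast
      ring
    rw [h2]
    exact h1

section
variable {R : Type} [CommRing R] {𝔮 : Ideal R}

/-- the polynomial shifted to `(c₀, z₀)` -/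
noncomputable def sh (c₀ z₀ : R) (P : R[X][X]) : R[X][X] :=
  (P.map (compRingHom (X + C c₀))).comp (X + C (C z₀))

theorem ev_sh (c₀ z₀ : R) (P : R[X][X]) (s t : R) : ev (sh c₀ z₀ P) s t = ev P (s + c₀) (t + z₀) := by
  have h1 : (evalRingHom s).comp (compRingHom (X + C c₀)) = evalRingHom (s + c₀) := by
    ext <;> simp
  unfold ev sh
  rw [Polynomial.map_comp, Polynomial.map_map, h1, eval_comp]
  simp

theorem ev_sum {ι : Type} [Fintype ι] (e : ι → ℤ) (P : ι → R[X][X]) (c z : R) :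
    ev (∑ x, (e x : R[X][X]) * P x) c z = ∑ x, (e x : R) * ev (P x) c z := by
  unfold ev
  rw [Polynomial.map_sum, eval_finsetSum]
  apply Finset.sum_congr rfl
  intro x _
  rw [Polynomial.map_mul, eval_mul]
  simp

theorem sh_sum {ι : Type} [Fintype ι] (c₀ z₀ : R) (e : ι → ℤ) (P : ι → R[X][X]) :
    sh c₀ z₀ (∑ x, (e x : R[X][X]) * P x) = ∑ x, (e x : R[X][X]) * sh c₀ z₀ (P x) := by
  unfold sh
  rw [Polynomial.map_sum, sum_comp]
  apply Finset.sum_congr rfl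
  intro x _
  rw [Polynomial.map_mul, mul_comp]
  simp

theorem int_mul_coeff (n : ℤ) (P : R[X][X]) (l k : ℕ) :
    (((n : R[X][X]) * P).coeff l).coeff k = (n : R) * (P.coeff l).coeff k := by
  have h1 : (n : R[X][X]) = C (C (n : R)) := by simp
  rw [h1, coeff_C_mul, coeff_C_mul]

/-- the auxiliary polynomial of a residue class in the plane -/
theorem two_var {Q : ℕ} (hQ1 : 1 ≤ Q) (hfin : ∀ k, Finite (R ⧸ 𝔮 ^ k))
    (hcard : ∀ k, Nat.card (R ⧸ 𝔮 ^ k) = Q ^ k) {ι : Type} [Fintype ι] (P : ι → R[X][X])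
    (c₀ z₀ : R) {m H : ℕ} (hH : Q ^ (m ^ 3) < H ^ Fintype.card ι) :
    ∃ e : ι → ℤ, e ≠ 0 ∧ (∀ x, |e x| ≤ H) ∧ ∀ c z : R, c - c₀ ∈ 𝔮 → z - z₀ ∈ 𝔮 →
      ∑ x, (e x : R) * ev (P x) c z ∈ 𝔮 ^ m := by
  obtain ⟨e, he0, heH, he⟩ := pigeon (Ω := Fin m × Fin m)
    (fun x w => ((sh c₀ z₀ (P x)).coeff (w.1 : ℕ)).coeff (w.2 : ℕ))
    (fun w => 𝔮 ^ (m - (w.1 : ℕ) - (w.2 : ℕ))) (fun w => hfin _) (H := H) (by
      refine lt_of_le_of_lt ?_ hH
      calc ∏ w : Fin m × Fin m, Nat.card (R ⧸ 𝔮 ^ (m - (w.1 : ℕ) - (w.2 : ℕ))) ≤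
          ∏ _w : Fin m × Fin m, Q ^ m := by
            apply Finset.prod_le_prod'
            intro w _
            rw [hcard]
            exact Nat.pow_le_pow_right hQ1 (by omega)
        _ = Q ^ (m ^ 3) := by
            rw [Finset.prod_const, Finset.card_univ, Fintype.card_prod, Fintype.card_fin, ← pow_mul]
            congr 1
            ring)
  refine ⟨e, he0, heH, fun c z hc hz => ?_⟩
  have h1 := ev_of_coeff (m := m) (g := ∑ x, (e x : R[X][X]) * sh c₀ z₀ (P x)) hc hz (by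
    intro l hl k hk
    have h2 := he (⟨l, hl⟩, ⟨k, by omega⟩)
    simp only at h2
    rw [finsetSum_coeff, finsetSum_coeff]
    simp only [int_mul_coeff]
    exact h2)
  rw [← sh_sum, ev_sh, sub_add_cancel, sub_add_cancel, ev_sum] at h1
  exact h1

/-- the auxiliary polynomial of a residue class on a curve -/
theorem one_var (h𝔮 : 𝔮.IsMaximal) {Q : ℕ} (hQ1 : 1 ≤ Q) (hfin : ∀ k, Finite (R ⧸ 𝔮 ^ k))
    (hcard : ∀ k, Nat.card (R ⧸ 𝔮 ^ k) = Q ^ k) {ι : Type} [Fintype ι] (P : ι → R[X][X])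
    (F : R[X][X]) (c₀ z₀ : R) (h0 : ev F c₀ z₀ ∈ 𝔮) (h1 : ev F.derivative c₀ z₀ ∉ 𝔮) {m H : ℕ}
    (hH : Q ^ (m ^ 2) < H ^ Fintype.card ι) :
    ∃ e : ι → ℤ, e ≠ 0 ∧ (∀ x, |e x| ≤ H) ∧ ∀ c z : R, c - c₀ ∈ 𝔮 → z - z₀ ∈ 𝔮 →
      ev F c z ∈ 𝔮 ^ m → ∑ x, (e x : R) * ev (P x) c z ∈ 𝔮 ^ m := by
  obtain ⟨Φ, hΦ⟩ := exists_phi h𝔮 F c₀ z₀ m h0 h1
  obtain ⟨e, he0, heH, he⟩ := pigeon (Ω := Fin m)
    (fun x w => (((P x).map (compRingHom (X + C c₀))).eval Φ).coeff (w : ℕ))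
    (fun w => 𝔮 ^ (m - (w : ℕ))) (fun w => hfin _) (H := H) (by
      refine lt_of_le_of_lt ?_ hH
      calc ∏ w : Fin m, Nat.card (R ⧸ 𝔮 ^ (m - (w : ℕ))) ≤ ∏ _w : Fin m, Q ^ m := by
            apply Finset.prod_le_prod'
            intro w _
            rw [hcard]
            exact Nat.pow_le_pow_right hQ1 (by omega)
        _ = Q ^ (m ^ 2) := by
            rw [Finset.prod_const, Finset.card_univ, Fintype.card_fin, ← pow_mul]
            congr 1
            ring)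
  refine ⟨e, he0, heH, fun c z hc hz hF => ?_⟩
  have h2 := hΦ c z hc hz hF
  have h3 : ∑ x, (e x : R) * ev (P x) c (Φ.eval (c - c₀)) ∈ 𝔮 ^ m := by
    have h4 := eval_of_coeff (m := m) (g := ∑ x, C (e x : R) *
      (((P x).map (compRingHom (X + C c₀))).eval Φ)) hc (by
        intro i hi
        have h5 := he ⟨i, hi⟩
        simp only at h5
        rw [finsetSum_coeff]
        simp only [coeff_C_mul]
        exact h5)
    rw [eval_finsetSum] at h4
    simp only [eval_mul, eval_C, ev_shift, sub_add_cancel] at h4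
    exact h4
  have h4 : ∑ x, (e x : R) * ev (P x) c z - ∑ x, (e x : R) * ev (P x) c (Φ.eval (c - c₀)) ∈
      𝔮 ^ m := by
    rw [← Finset.sum_sub_distrib]
    apply Ideal.sum_mem
    intro x _
    rw [← mul_sub]
    apply Ideal.mul_mem_left
    have h5 : c - c ∈ 𝔮 ^ m := by rw [sub_self]; exact Ideal.zero_mem _
    exact ev_sub_mem (P x) h5 h2
  have := (𝔮 ^ m).add_mem h4 h3
  rwa [sub_add_cancel] at this

end

end Pool.Agent.Y673.PP
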