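import Pool.Agent.Y673.PP.It
import Pool.Agent.Y673.PP.Pig

/-!
Points with integral orbits over number fields (helper673).
-/

set_option autoImplicit false

namespace Pool.Agent.Y673.PP

open Polynomial NumberField

/-- a product of iterates -/
noncomputable def gm (d : ℕ) (α : ℕ) (β : ℕ → ℕ) (L : ℕ) : ℤ[X][X] :=
  C (X ^ α) * ∏ i ∈ Finset.range L, (it d i) ^ (β i)

section
variable {S : Type} [CommRing S] {d : ℕ}

theorem E2_gm (c z : S) (α : ℕ) (β : ℕ → ℕ) (L : ℕ) :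
    E2 c z (gm d α β L) = c ^ α * ∏ i ∈ Finset.range L, (orb d c z i) ^ (β i) := by
  unfold gm
  rw [map_mul, map_prod, E2_C, eval₂_X_pow]
  congr 1
  apply Finset.prod_congr rfl
  intro i _
  rw [map_pow, E2_it]

/-- the value of a product of iterates, multiplied by a power of the denominator -/
def gt (d : ℕ) (a v : S) (u : ℕ → S) (α : ℕ) (β : ℕ → ℕ) (L T : ℕ) : S :=
  a ^ α * (∏ i ∈ Finset.range L, (u i) ^ (β i)) * v ^ (T - (d * α + ∑ i ∈ Finset.range L, β i))

theorem gt_eq {c z a v : S} {u : ℕ → S} (ha : a = v ^ d * c) (hu : ∀ i, u i = v * orb d c z i)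
    (α : ℕ) (β : ℕ → ℕ) {L T : ℕ} (hT : d * α + ∑ i ∈ Finset.range L, β i ≤ T) :
    gt d a v u α β L T = v ^ T * E2 c z (gm d α β L) := by
  unfold gt
  rw [E2_gm, ha]
  have h1 : ∏ i ∈ Finset.range L, (u i) ^ (β i) = v ^ (∑ i ∈ Finset.range L, β i) *
      ∏ i ∈ Finset.range L, (orb d c z i) ^ (β i) := by
    rw [← Finset.prod_pow_eq_pow_sum, ← Finset.prod_mul_distrib]
    apply Finset.prod_congr rfl
    intro i _
    rw [hu, mul_pow]
  have h2 : v ^ T = v ^ (d * α) * v ^ (∑ i ∈ Finset.range L, β i) *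
      v ^ (T - (d * α + ∑ i ∈ Finset.range L, β i)) := by
    rw [← pow_add, ← pow_add]
    congr 1
    omega
  rw [h1, h2, mul_pow, pow_mul]
  ring

theorem gt_map {S' : Type} [CommRing S'] (φ : S →+* S') (a v : S) (u : ℕ → S) (α : ℕ) (β : ℕ → ℕ)
    (L T : ℕ) : φ (gt d a v u α β L T) = gt d (φ a) (φ v) (fun i => φ (u i)) α β L T := by
  unfold gt
  rw [map_mul, map_mul, map_pow, map_pow, map_prod]
  simp only [map_pow]

/-- the value of a polynomial, multiplied by a power of the denominator -/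
noncomputable def hm (d : ℕ) (a v x : S) (F : ℤ[X][X]) (A B : ℕ) : S :=
  ∑ l ∈ Finset.range (A + 1), ∑ k ∈ Finset.range (B + 1),
    (((F.coeff l).coeff k : ℤ) : S) * a ^ k * x ^ l * v ^ (d * B + A - (d * k + l))

theorem hm_eq {c z a v x : S} (ha : a = v ^ d * c) (hx : x = v * z) {F : ℤ[X][X]} {A B : ℕ}
    (hA : F.natDegree ≤ A) (hB : ∀ l, (F.coeff l).natDegree ≤ B) :
    hm d a v x F A B = v ^ (d * B + A) * E2 c z F := by
  unfold hm
  rw [E2_eq_sum c z F hA hB, Finset.mul_sum]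
  apply Finset.sum_congr rfl
  intro l hl
  rw [Finset.mul_sum]
  apply Finset.sum_congr rfl
  intro k hk
  have h1 := Finset.mem_range.1 hl
  have h2 := Finset.mem_range.1 hk
  have h3 : d * k ≤ d * B := Nat.mul_le_mul_left _ (by omega)
  have h4 : v ^ (d * B + A) = v ^ (d * k) * v ^ l * v ^ (d * B + A - (d * k + l)) := by
    rw [← pow_add, ← pow_add]
    congr 1
    omega
  rw [ha, hx, h4, mul_pow, mul_pow, pow_mul]
  ring

theorem hm_map {S' : Type} [CommRing S'] (φ : S →+* S') (a v x : S) (F : ℤ[X][X]) (A B : ℕ) :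
    φ (hm d a v x F A B) = hm d (φ a) (φ v) (φ x) F A B := by
  unfold hm
  simp only [map_sum, map_mul, map_pow, map_intCast]

end

section
variable {R : Type} [CommRing R] {𝔮 : Ideal R}

theorem exists_inv_pow (h𝔮 : 𝔮.IsMaximal) {t : R} (ht : t ∉ 𝔮) (m : ℕ) :
    ∃ w : R, t * w - 1 ∈ 𝔮 ^ m := by
  obtain ⟨y, i, hi, hyi⟩ := h𝔮.exists_inv ht
  obtain ⟨s, hs⟩ := sub_dvd_pow_sub_pow (1 : R) i m
  refine ⟨y * s, ?_⟩
  have h1 : (1 : R) - i = y * t := by linear_combination (-1 : R) * hyi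
  have h2 : t * (y * s) - 1 = -(i ^ m) := by
    rw [one_pow, h1] at hs
    linear_combination (-1 : R) * hs
  rw [h2]
  exact (𝔮 ^ m).neg_mem (Ideal.pow_mem_pow hi m)

/-- integral points reduced modulo a power of a prime ideal -/
theorem reduce {d : ℕ} (hd : 1 ≤ d) (h𝔮 : 𝔮.IsMaximal) {v : R} (hv : v ∉ 𝔮) (m : ℕ) {a : R}
    {u : ℕ → R} (hrel : ∀ i, v ^ (d - 1) * u (i + 1) = u i ^ d + a) :
    ∃ c' z' : R, a - v ^ d * c' ∈ 𝔮 ^ m ∧ ∀ i, u i - v * orb d c' z' i ∈ 𝔮 ^ m := by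
  obtain ⟨w, hw⟩ := exists_inv_pow h𝔮 hv m
  refine ⟨a * w ^ d, u 0 * w, ?_, ?_⟩
  · have h1 : a - v ^ d * (a * w ^ d) = -(a * ((v * w) ^ d - 1 ^ d)) := by
      rw [mul_pow, one_pow]; ring
    rw [h1]
    obtain ⟨s, hs⟩ := sub_dvd_pow_sub_pow (v * w) 1 d
    rw [hs]
    exact (𝔮 ^ m).neg_mem ((𝔮 ^ m).mul_mem_left _ ((𝔮 ^ m).mul_mem_right _ hw))
  · set π := Ideal.Quotient.mk (𝔮 ^ m) with hπ
    have hw' : π v * π w = 1 := by
      rw [← map_mul, ← map_one π, hπ, Ideal.Quotient.eq]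
      exact hw
    have key : ∀ i, π (u i) = π (v * orb d (a * w ^ d) (u 0 * w) i) := by
      intro i
      induction i with
      | zero =>
        rw [orb_zero, map_mul, map_mul]
        linear_combination (-(π (u 0))) * hw'
      | succ i ih =>
        have h1 := congrArg π (hrel i)
        rw [map_mul, map_pow, map_add, map_pow, ih, map_mul] at h1
        rw [orb_succ, map_mul, map_add, map_pow, map_mul, map_pow]
        have h2 : (π v) ^ d = (π v) ^ (d - 1) * π v := by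
          rw [← pow_succ]; congr 1; omega
        have h3 : (π w) ^ (d - 1) * (π v) ^ (d - 1) = 1 := by
          rw [← mul_pow, mul_comm, hw', one_pow]
        have h4 : (π v) ^ d * (π w) ^ d = 1 := by rw [← mul_pow, hw', one_pow]
        calc π (u (i + 1)) = (π w) ^ (d - 1) * ((π v) ^ (d - 1) * π (u (i + 1))) := by
              rw [← mul_assoc, h3, one_mul]
          _ = (π w) ^ (d - 1) * ((π v * π (orb d (a * w ^ d) (u 0 * w) i)) ^ d + π a) := by rw [h1]
          _ = (π w) ^ (d - 1) * ((π v) ^ d * (π (orb d (a * w ^ d) (u 0 * w) i) ^ d +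
                π a * (π w) ^ d)) := by
              have h5 : π a = π a * ((π v) ^ d * (π w) ^ d) := by rw [h4, mul_one]
              have h6 : (π v * π (orb d (a * w ^ d) (u 0 * w) i)) ^ d + π a =
                  (π v) ^ d * (π (orb d (a * w ^ d) (u 0 * w) i) ^ d + π a * (π w) ^ d) := by
                rw [mul_pow]
                linear_combination h5
              rw [h6]
          _ = ((π w) ^ (d - 1) * (π v) ^ (d - 1)) * π v *
                (π (orb d (a * w ^ d) (u 0 * w) i) ^ d + π a * (π w) ^ d) := by rw [h2]; ring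
          _ = _ := by rw [h3, one_mul]
    intro i
    have := key i
    rwa [hπ, Ideal.Quotient.eq] at this

/-- the two evaluations -/
theorem ev_map_int (F : ℤ[X][X]) (c z : R) :
    ev (F.map (mapRingHom (Int.castRingHom R))) c z = E2 c z F := by
  unfold ev
  rw [Polynomial.map_map, E2_eq_eval]
  congr 2
  refine Polynomial.ringHom_ext' (Subsingleton.elim _ _) ?_
  simp

end

section
variable {K : Type} [Field K] [NumberField K]

open Module

/-- a small element of a high power of an ideal is zero -/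
theorem eq_zero_of_mem {𝔮 : Ideal (𝓞 K)} {m : ℕ} {x : 𝓞 K} (hx : x ∈ 𝔮 ^ m) {B : ℝ}
    (hB : ∀ σ : K →+* ℂ, ‖σ (x : K)‖ ≤ B)
    (hlt : B ^ (finrank ℚ K) < ((Ideal.absNorm 𝔮 : ℕ) : ℝ) ^ m) : x = 0 := by
  by_contra hne
  have h1 := Ideal.absNorm_dvd_norm_of_mem hx
  rw [map_pow] at h1
  have h2 : Algebra.norm ℤ x ≠ 0 := Algebra.norm_ne_zero_iff.2 hne
  have h3 := Int.le_of_dvd (abs_pos.2 h2) ((dvd_abs _ _).2 h1)
  have h4 : |((Algebra.norm ℤ x : ℤ) : ℝ)| ≤ B ^ (finrank ℚ K) := by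
    have h5 := Algebra.norm_eq_prod_embeddings ℚ ℂ (x : K)
    have h6 : (Algebra.norm ℚ (x : K)) = ((Algebra.norm ℤ x : ℤ) : ℚ) := by
      rw [Algebra.coe_norm_int]
    have h7 : ((algebraMap ℚ ℂ) (Algebra.norm ℚ (x : K))) = ((Algebra.norm ℤ x : ℤ) : ℂ) := by
      rw [h6]; simp
    rw [h7] at h5
    rw [← Complex.norm_intCast, h5, norm_prod]
    refine (Finset.prod_le_prod (fun _ _ => norm_nonneg _) (g := fun _ => B) ?_).trans ?_
    · intro σ _
      exact hB σ.toRingHom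
    · rw [Finset.prod_const, Finset.card_univ, AlgHom.card]
  have h5 : ((Ideal.absNorm 𝔮 : ℕ) : ℝ) ^ m ≤ |((Algebra.norm ℤ x : ℤ) : ℝ)| := by
    have : (((Ideal.absNorm 𝔮 ^ m : ℕ) : ℤ) : ℝ) ≤ ((|Algebra.norm ℤ x| : ℤ) : ℝ) := by
      exact_mod_cast h3
    push_cast at this
    exact this
  linarith

theorem card_quot {𝔮 : Ideal (𝓞 K)} (k : ℕ) :
    Nat.card (𝓞 K ⧸ 𝔮 ^ k) = (Ideal.absNorm 𝔮) ^ k := by
  rw [← map_pow, Ideal.absNorm_apply, Submodule.cardQuot_apply]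

theorem finite_quot {𝔮 : Ideal (𝓞 K)} (h𝔮 : 𝔮 ≠ ⊥) (k : ℕ) : Finite (𝓞 K ⧸ 𝔮 ^ k) :=
  Ideal.finiteQuotientOfFreeOfNeBot _ (pow_ne_zero k h𝔮)

end

end Pool.Agent.Y673.PP
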