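import Pool.Agent.Y673.PP.Cv

/-!
The number of exceptional parameters (helper673).
-/

set_option autoImplicit false

namespace Pool.Agent.Y673.PP

open Polynomial NumberField Module

/-- the exponents of the monomials in the plane -/
def bp (d K n i : ℕ) : ℕ := if i = K then n / d ^ K else n / d ^ i % d

theorem gm_bp (d K j n : ℕ) : gm d j (bp d K n) (K + 1) = C (X ^ j) * bas d K n := by
  unfold gm bas
  rw [Finset.prod_range_succ, mul_comm (∏ i ∈ Finset.range K, _)]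
  congr 2
  · unfold bp
    rw [if_pos rfl]
  · apply Finset.prod_congr rfl
    intro i hi
    unfold bp
    rw [if_neg (by have := Finset.mem_range.1 hi; omega)]

theorem sum_bp {d K n b : ℕ} (hd : 1 ≤ d) (hn : n < d ^ K * b) :
    ∑ i ∈ Finset.range (K + 1), bp d K n i ≤ (d - 1) * K + b := by
  rw [Finset.sum_range_succ]
  apply Nat.add_le_add
  · refine (Finset.sum_le_card_nsmul _ _ (d - 1) ?_).trans ?_
    · intro i hi
      unfold bp
      rw [if_neg (by have := Finset.mem_range.1 hi; omega)]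
      have := Nat.mod_lt (n / d ^ i) (by omega : d > 0)
      omega
    · rw [Finset.card_range, smul_eq_mul, mul_comm]
  · unfold bp
    rw [if_pos rfl]
    exact (Nat.div_lt_of_lt_mul hn).le

theorem exists_mult {K : Type} [Field K] [CharZero K] {Q : ℤ[X][X]} {A : ℕ} (hA : Q.natDegree ≤ A)
    (c z : K) (h0 : Q.map (eval₂RingHom (Int.castRingHom K) c) ≠ 0) (h1 : E2 c z Q = 0) :
    ∃ μ ≤ A, E2 c z (derivative^[μ] Q) = 0 ∧ E2 c z (derivative^[μ] Q).derivative ≠ 0 := by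
  set g := Q.map (eval₂RingHom (Int.castRingHom K) c) with hg
  have hE : ∀ μ, E2 c z (derivative^[μ] Q) = (derivative^[μ] g).eval z := by
    intro μ
    rw [E2_eq_eval, hg, iterate_derivative_map]
  set n := g.rootMultiplicity z with hn
  have hn1 : 1 ≤ n := by
    rw [hn]
    apply Nat.succ_le_of_lt
    rw [rootMultiplicity_pos h0, IsRoot.def]
    have := hE 0
    simp only [Function.iterate_zero, id] at this
    rw [← this, h1]
  have hnA : n ≤ A := by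
    have h2 : (X - C z) ^ n ∣ g := pow_rootMultiplicity_dvd g z
    have h3 := natDegree_le_of_dvd h2 h0
    rw [natDegree_pow, natDegree_X_sub_C, mul_one] at h3
    exact h3.trans (natDegree_map_le.trans hA)
  refine ⟨n - 1, by omega, ?_, ?_⟩
  · rw [hE]
    have := (lt_rootMultiplicity_iff_isRoot_iterate_derivative (n := n - 1) (t := z) h0).1 (by omega)
    exact this (n - 1) (le_refl _)
  · rw [← Function.iterate_succ_apply' (f := derivative), Nat.succ_eq_add_one, hE]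
    have e1 : n - 1 + 1 = n := by omega
    rw [e1]
    intro h2
    have h3 : n < g.rootMultiplicity z := by
      rw [lt_rootMultiplicity_iff_isRoot_iterate_derivative h0]
      intro m hm
      rcases Nat.lt_or_ge m n with h4 | h4
      · have := (lt_rootMultiplicity_iff_isRoot_iterate_derivative (n := n - 1) (t := z) h0).1
          (by omega)
        exact this m (by omega)
      · have : m = n := le_antisymm hm h4
        rw [this]; exact h2
    omega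

set_option maxHeartbeats 1000000 in
theorem plane_count {d : ℕ} (hd : 2 ≤ d) (D t : ℕ) (hD : 1 ≤ D) :
    ∃ A B C M₃ s₁ s₂ T₁ T₂ : ℕ, ∀ (K : Type) [Field K] [NumberField K], finrank ℚ K = D →
      ∀ Y : ℝ, 1 ≤ Y → ∀ Z₀ Z₁ W₁ Z₂ W₂ : ℕ,
      2 * (s₁ : ℝ) * Y ^ T₁ < (Z₀ : ℝ) ^ (t * T₁ + 1) →
      2 * (s₂ : ℝ) * Y ^ T₂ < (Z₀ : ℝ) ^ (t * T₂ + 1) →
      (∀ w : ℤ, w ≠ 0 → |w| ≤ W₁ → ∃ q : ℕ, q.Prime ∧ Z₀ ≤ q ∧ q ≤ Z₁ ∧ ¬ (q : ℤ) ∣ w) →
      (∀ w : ℤ, w ≠ 0 → |w| ≤ W₂ → ∃ q : ℕ, q.Prime ∧ Z₀ ≤ q ∧ q ≤ Z₂ ∧ ¬ (q : ℤ) ∣ w) →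
      Y ^ D ≤ W₁ →
      (Y * ((A + 1) * (B + 1) * (((A + 1) ^ (A + 1) * (C * ((Z₁ ^ D) ^ (t * T₁ + 1) + 1)) : ℕ) : ℝ) *
        Y ^ (d * B + A))) ^ D ≤ W₂ →
      ∀ S : Finset K, (∀ c ∈ S, ∃ (z : K) (v : ℕ) (a : 𝓞 K) (u : ℕ → 𝓞 K), Pt d Y c z v a u ∧
        ¬ Gd d ((d * d) ^ A) c z) →
      S.card ≤ (B + (A + 1) * (M₃ * ((Z₂ + 1) * Z₂ ^ (2 * D)))) * ((Z₁ + 1) * Z₁ ^ (2 * D)) := by
  classical
  have hd1 : 1 ≤ d := by omega
  -- parameters
  set Kp : ℕ := 8 * D ^ 3 * (2 * d * t + 1) ^ 2 with hKp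
  have hKp1 : 1 ≤ Kp := Nat.succ_le_of_lt (by positivity)
  obtain ⟨A, B, C, hfam⟩ := fam_bd (fun x : Fin Kp × Fin (d ^ Kp * Kp) =>
    gm d (x.1 : ℕ) (bp d Kp (x.2 : ℕ)) (Kp + 1))
  set d₀ : ℕ := 4 * D ^ 2 * (t * (d + 1) + 1) with hd₀
  have hd₀1 : 1 ≤ d₀ := Nat.succ_le_of_lt (by positivity)
  set K₂ : ℕ := (d * d) ^ A + 3 + d₀ + A * d₀ with hK₂
  have hK₂' : A * d₀ < d ^ K₂ := by
    calc A * d₀ ≤ K₂ := by omega
      _ < 2 ^ K₂ := Nat.lt_two_pow_self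
      _ ≤ d ^ K₂ := Nat.pow_le_pow_left hd _
  obtain ⟨M₃, hM₃⟩ := curve_count hd A B d₀ K₂ hd₀1 (by omega) hK₂'
  set T₁ : ℕ := 2 * d * Kp with hT₁
  set T₂ : ℕ := d * d₀ + d₀ with hT₂
  refine ⟨A, B, C, M₃, Kp * (d ^ Kp * Kp), d₀ * d₀, T₁, T₂, ?_⟩
  intro K _ _ hKD Y hY Z₀ Z₁ W₁ Z₂ W₂ hsz₁ hsz₂ hpr₁ hpr₂ hW₁ hW₂ S hS
  obtain ⟨f, hf⟩ := exists_qi K
  choose! z v a u hp hGd using hS
  set h₁ : ℕ := t * T₁ + 1 with hh₁
  set h₂ : ℕ := t * T₂ + 1 with hh₂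
  -- test elements
  have hw0 : ∀ c ∈ S, ((v c : ℕ) : 𝓞 K) ≠ 0 := fun c hc => Nat.cast_ne_zero.2 (hp c hc).v0
  have hwW : ∀ c ∈ S, |Algebra.norm ℤ ((v c : ℕ) : 𝓞 K)| ≤ (W₁ : ℤ) := by
    intro c hc
    have h1 : |((Algebra.norm ℤ ((v c : ℕ) : 𝓞 K) : ℤ) : ℝ)| ≤ Y ^ (finrank ℚ K) := by
      apply norm_le_of
      intro σ
      show ‖(σ.comp (algebraMap (𝓞 K) K)) ((v c : ℕ) : 𝓞 K)‖ ≤ _
      rw [map_natCast, Complex.norm_natCast]
      exact (hp c hc).vY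
    rw [hKD] at h1
    have h2 := h1.trans hW₁
    exact_mod_cast h2
  have hq : ∀ c ∈ S, ∃ q : ℕ, q.Prime ∧ Z₀ ≤ q ∧ q ≤ Z₁ ∧
      ¬ (q : ℤ) ∣ Algebra.norm ℤ ((v c : ℕ) : 𝓞 K) :=
    fun c hc => hpr₁ _ (Algebra.norm_ne_zero_iff.2 (hw0 c hc)) (hwW c hc)
  choose! q hq1 hq2 hq3 hq4 using hq
  have hvq : ∀ c ∈ S, ((v c : ℕ) : 𝓞 K) ∉ f (q c) :=
    fun c hc h0 => hq4 c hc ((hf (q c) (hq1 c hc)).2.2.2.2 _ h0)
  have hred : ∀ c ∈ S, ∃ c' z' : 𝓞 K,
      a c - ((v c : ℕ) : 𝓞 K) ^ d * c' ∈ f (q c) ^ (2 * finrank ℚ K * h₁) ∧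
      ∀ i, u c i - ((v c : ℕ) : 𝓞 K) * orb d c' z' i ∈ f (q c) ^ (2 * finrank ℚ K * h₁) :=
    fun c hc => reduce hd1 (hf (q c) (hq1 c hc)).1 (hvq c hc) _ ((hp c hc).rel hd1)
  choose! c' z' hc' hz' using hred
  have hcls := classes hf (Z := Z₁) (M := B + (A + 1) * (M₃ * ((Z₂ + 1) * Z₂ ^ (2 * D)))) S q c' z'
    (fun c hc => ⟨hq1 c hc, hq3 c hc⟩)
  rw [hKD] at hcls
  apply hcls
  intro c₁ hc₁ T' hT' hcl
  obtain ⟨hmax, hbot, hnq, hnq', -⟩ := hf (q c₁) (hq1 c₁ hc₁)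
  have hcardι : Fintype.card (Fin Kp × Fin (d ^ Kp * Kp)) = Kp * (d ^ Kp * Kp) := by
    rw [Fintype.card_prod, Fintype.card_fin, Fintype.card_fin]
  have hs₁ : (2 * finrank ℚ K * h₁) ^ 3 ≤ Kp * (d ^ Kp * Kp) * h₁ := by
    rw [hKD]
    have e1 : h₁ ≤ (2 * d * t + 1) * Kp := by
      rw [hh₁, hT₁]
      have : (2 * d * t + 1) * Kp = t * (2 * d * Kp) + Kp := by ring
      omega
    have e2 : Kp ≤ d ^ Kp := by
      calc Kp ≤ 2 ^ Kp := Nat.lt_two_pow_self.le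
        _ ≤ d ^ Kp := Nat.pow_le_pow_left hd _
    calc (2 * D * h₁) ^ 3 = 8 * D ^ 3 * h₁ ^ 2 * h₁ := by ring
      _ ≤ 8 * D ^ 3 * ((2 * d * t + 1) * Kp) ^ 2 * h₁ :=
          Nat.mul_le_mul_right _ (Nat.mul_le_mul_left _ (Nat.pow_le_pow_left e1 2))
      _ = Kp * Kp * Kp * h₁ := by
          have : 8 * D ^ 3 * ((2 * d * t + 1) * Kp) ^ 2 =
            (8 * D ^ 3 * (2 * d * t + 1) ^ 2) * Kp * Kp := by ring
          rw [this, ← hKp]
      _ ≤ Kp * (d ^ Kp * Kp) * h₁ := by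
          apply Nat.mul_le_mul_right
          rw [mul_assoc]
          exact Nat.mul_le_mul_left _ (Nat.mul_le_mul_right _ e2)
  obtain ⟨e, he0, heH, he⟩ := aux_plane (K := K) hd1 (ι := Fin Kp × Fin (d ^ Kp * Kp)) (by
      rw [hcardι]; exact Nat.succ_le_of_lt (by positivity)) (fun x => (x.1 : ℕ))
    (fun x => bp d Kp (x.2 : ℕ)) (L := Kp + 1) (T := T₁) (by
      intro x
      have h2 := x.1.2
      have h3 := sum_bp (b := Kp) hd1 x.2.2
      have h4 : d * (x.1 : ℕ) ≤ d * Kp := Nat.mul_le_mul_left _ (by omega)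
      have h5 : T₁ = d * Kp + ((d - 1) * Kp + Kp) := by
        have : (d - 1) * Kp + Kp = d * Kp := by
          have : d - 1 + 1 = d := by omega
          calc (d - 1) * Kp + Kp = (d - 1 + 1) * Kp := by ring
            _ = d * Kp := by rw [this]
        rw [this, hT₁]; ring
      rw [h5]
      exact Nat.add_le_add h4 h3) (h := h₁) (by rw [hcardι]; exact hs₁) hmax hbot hY (by
      rw [hcardι]
      refine lt_of_lt_of_le hsz₁ ?_
      apply pow_le_pow_left₀ (Nat.cast_nonneg _)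
      have : Z₀ ≤ Ideal.absNorm (f (q c₁)) := (hq2 c₁ hc₁).trans hnq
      exact_mod_cast this) (c' c₁) (z' c₁)
  set Q : ℤ[X][X] := ∑ x, (e x : ℤ[X][X]) * gm d (x.1 : ℕ) (bp d Kp (x.2 : ℕ)) (Kp + 1) with hQ
  have hQ0 : Q ≠ 0 := by
    have h1 := mon_ne hd1 (K := Kp) he0
    have h2 : Q = ∑ x, (e x : ℤ[X][X]) * mon d Kp x := by
      rw [hQ]
      apply Finset.sum_congr rfl
      intro x _
      rw [gm_bp]
      rfl
    rw [h2]; exact h1
  set H : ℕ := (Z₁ ^ D) ^ h₁ + 1 with hH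
  have heH' : ∀ x, |e x| ≤ (H : ℤ) := by
    intro x
    refine (heH x).trans ?_
    have h1 : Ideal.absNorm (f (q c₁)) ≤ Z₁ ^ D := by
      rw [← hKD]
      exact hnq'.trans (Nat.pow_le_pow_left (hq3 c₁ hc₁) _)
    have h2 : Ideal.absNorm (f (q c₁)) ^ h₁ + 1 ≤ H :=
      Nat.add_le_add_right (Nat.pow_le_pow_left h1 _) 1
    exact_mod_cast h2
  obtain ⟨g1, g2, g3⟩ := hfam e H heH'
  have hcT : ∀ c ∈ T', E2 c (z c) Q = 0 := by
    intro c hc
    have hcS := hT' hc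
    obtain ⟨k1, k2, k3⟩ := hcl c hc
    have k4 := hc' c hcS
    have k5 := hz' c hcS
    rw [k1] at k4 k5
    have k7 := he c (z c) (v c) (a c) (u c) (hp c hcS) (c' c) (z' c) k4 k5 k2 k3
    rw [hQ, map_sum, ← k7]
    apply Finset.sum_congr rfl
    intro x _
    rw [map_mul, map_intCast]
  -- the decomposition
  set U₀ : Finset K := T'.filter fun c => Q.map (eval₂RingHom (Int.castRingHom K) c) = 0 with hU₀
  set U : ℕ → Finset K := fun μ => T'.filter fun c => E2 c (z c) (derivative^[μ] Q) = 0 ∧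
    E2 c (z c) (derivative^[μ] Q).derivative ≠ 0 with hU
  have hcov : T' ⊆ U₀ ∪ (Finset.range (A + 1)).biUnion U := by
    intro c hc
    rw [Finset.mem_union]
    by_cases h0 : Q.map (eval₂RingHom (Int.castRingHom K) c) = 0
    · left
      rw [hU₀, Finset.mem_filter]
      exact ⟨hc, h0⟩
    · right
      obtain ⟨μ, hμ, h1, h2⟩ := exists_mult g1 c (z c) h0 (hcT c hc)
      rw [Finset.mem_biUnion]
      refine ⟨μ, Finset.mem_range.2 (by omega), ?_⟩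
      rw [hU]
      simp only
      rw [Finset.mem_filter]
      exact ⟨hc, h1, h2⟩
  have hU₀c : U₀.card ≤ B := by
    obtain ⟨l, hl⟩ : ∃ l, Q.coeff l ≠ 0 := by
      by_contra hall
      push Not at hall
      exact hQ0 (Polynomial.ext fun l => by rw [hall l, coeff_zero])
    obtain ⟨h1, h2⟩ := roots_fin (K := K) hl
    have hsub : (U₀ : Set K) ⊆ {c : K | (Q.coeff l).eval₂ (Int.castRingHom K) c = 0} := by
      intro c hc
      rw [hU₀, Finset.mem_coe, Finset.mem_filter] at hc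
      have := congrArg (fun p => p.coeff l) hc.2
      simp only [coeff_map, coeff_zero] at this
      exact this
    have h3 := Set.ncard_le_ncard hsub h1
    rw [Set.ncard_coe_finset] at h3
    exact h3.trans (h2.trans (g2 l))
  have hs₂ : (2 * finrank ℚ K * h₂) ^ 2 ≤ d₀ * d₀ * h₂ := by
    rw [hKD]
    have e1 : h₂ ≤ (t * (d + 1) + 1) * d₀ := by
      rw [hh₂, hT₂]
      have : (t * (d + 1) + 1) * d₀ = t * (d * d₀ + d₀) + d₀ := by ring
      omega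
    calc (2 * D * h₂) ^ 2 = 4 * D ^ 2 * h₂ * h₂ := by ring
      _ ≤ 4 * D ^ 2 * ((t * (d + 1) + 1) * d₀) * h₂ :=
          Nat.mul_le_mul_right _ (Nat.mul_le_mul_left _ e1)
      _ = d₀ * d₀ * h₂ := by
          have : 4 * D ^ 2 * ((t * (d + 1) + 1) * d₀) = (4 * D ^ 2 * (t * (d + 1) + 1)) * d₀ := by
            ring
          rw [this, ← hd₀]
  have hUc : ∀ μ ∈ Finset.range (A + 1), (U μ).card ≤ M₃ * ((Z₂ + 1) * Z₂ ^ (2 * D)) := by
    intro μ hμ
    have hμA : μ ≤ A := by have := Finset.mem_range.1 hμ; omega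
    rcases (U μ).eq_empty_or_nonempty with h0 | ⟨c₂, hc₂⟩
    · rw [h0, Finset.card_empty]; exact Nat.zero_le _
    obtain ⟨i1, i2, -⟩ := iter_deriv_bd g1 g2 (C := C * H) (by
      intro l k
      exact_mod_cast g3 l k) μ
    obtain ⟨-, -, i3⟩ := iter_deriv_bd g1 g2 (C := C * H) (by
      intro l k
      exact_mod_cast g3 l k) (μ + 1)
    have hF0 : derivative^[μ] Q ≠ 0 := by
      intro h0
      rw [hU] at hc₂
      simp only at hc₂
      rw [Finset.mem_filter, h0, derivative_zero, map_zero] at hc₂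
      exact hc₂.2.2 rfl
    have hcc := hM₃ K h₂ T₂ (by omega) (le_refl _) hs₂ Y hY Z₀ Z₂ W₂ (by
        push_cast at hsz₂ ⊢
        exact hsz₂) hpr₂ (derivative^[μ] Q) ((A + 1) ^ (A + 1) * (C * H)) hF0 i1 i2 (by
        intro l k
        rw [Function.iterate_succ_apply'] at i3
        refine (i3 l k).trans ?_
        have h1 : A ^ (μ + 1) ≤ (A + 1) ^ (A + 1) :=
          (Nat.pow_le_pow_left (Nat.le_succ A) _).trans
            (Nat.pow_le_pow_right (by omega) (by omega))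
        have h2 : A ^ (μ + 1) * (C * H) ≤ (A + 1) ^ (A + 1) * (C * H) :=
          Nat.mul_le_mul_right _ h1
        exact_mod_cast h2) (by rw [hKD]; exact hW₂) (U μ) (by
        intro c hc
        rw [hU] at hc
        simp only at hc
        rw [Finset.mem_filter] at hc
        have hcS := hT' hc.1
        exact ⟨z c, v c, a c, u c, hp c hcS, hc.2.1, hc.2.2, hGd c hcS⟩)
    rw [hKD] at hcc
    exact hcc
  calc T'.card ≤ (U₀ ∪ (Finset.range (A + 1)).biUnion U).card := Finset.card_le_card hcov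
    _ ≤ U₀.card + ((Finset.range (A + 1)).biUnion U).card := Finset.card_union_le _ _
    _ ≤ B + (A + 1) * (M₃ * ((Z₂ + 1) * Z₂ ^ (2 * D))) := by
        apply Nat.add_le_add hU₀c
        refine (Finset.card_biUnion_le_card_mul _ _ _ hUc).trans ?_
        rw [Finset.card_range]

end Pool.Agent.Y673.PP
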